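import Mathlib

/-!
# Families of symmetric chains covering the middle levels, and their extension by one level

`Good n k C` : `C` is a set of symmetric chains of the Boolean lattice of `Fin n`, each contained in
the levels `k, …, n - k`, which partitions these levels.
-/

set_option autoImplicit false

namespace Pool.MP_0ccee8_co.Lib

open Finset

variable {n : ℕ}

/-- Consecutive members of the list are cover pairs. -/
def ChainCond (c : List (Finset (Fin n))) : Prop :=
  ∀ a b : Finset (Fin n), [a, b] <:+: c → a ⊆ b ∧ b.card = a.card + 1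

/-- A pair is consecutive in one of the chains. -/
def Edge (C : Set (List (Finset (Fin n)))) (a b : Finset (Fin n)) : Prop :=
  ∃ c ∈ C, [a, b] <:+: c

/-- Symmetric chains partitioning the levels `k, …, n - k`. -/
structure Good (n k : ℕ) (C : Set (List (Finset (Fin n)))) : Prop where
  ends : ∀ c ∈ C, ∃ a b : Finset (Fin n), c.head? = some a ∧ c.getLast? = some b ∧
    a.card + b.card = n ∧ k ≤ a.card
  chain : ∀ c ∈ C, ChainCond c
  cover : ∀ S : Finset (Fin n), k ≤ S.card → S.card + k ≤ n → ∃! c, c ∈ C ∧ S ∈ c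

theorem pair_infix_cons {α : Type*} {a b v : α} {l : List α} :
    [a, b] <:+: v :: l ↔ (a = v ∧ l.head? = some b) ∨ [a, b] <:+: l := by
  rw [List.infix_cons_iff]
  constructor
  · rintro (h | h)
    · left
      rw [List.prefix_cons_iff] at h
      rcases h with h | ⟨t, h, h'⟩
      · cases h
      · injection h with h1 h2
        subst h1
        subst h2
        exact ⟨rfl, List.singleton_prefix_iff_head?_eq_some.1 h'⟩
    · right; exact h
  · rintro (⟨rfl, h⟩ | h)
    · left
      rw [List.prefix_cons_iff]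
      right
      exact ⟨[b], rfl, List.singleton_prefix_iff_head?_eq_some.2 h⟩
    · right; exact h

theorem pair_infix_concat {α : Type*} {a b w : α} {l : List α} :
    [a, b] <:+: l ++ [w] ↔ (b = w ∧ l.getLast? = some a) ∨ [a, b] <:+: l := by
  rw [List.infix_concat_iff]
  constructor
  · rintro (h | h)
    · left
      rw [List.suffix_concat_iff] at h
      rcases h with h | ⟨t, h, h'⟩
      · cases h
      · have h2 : [a] ++ [b] = t ++ [w] := h
        have h3 := List.append_inj' h2 rfl
        obtain ⟨h4, h5⟩ := h3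
        subst h4
        injection h5 with h6
        subst h6
        exact ⟨rfl, List.singleton_suffix_iff_getLast?_eq_some.1 h'⟩
    · right; exact h
  · rintro (⟨rfl, h⟩ | h)
    · left
      rw [List.suffix_concat_iff]
      right
      exact ⟨[a], rfl, List.singleton_suffix_iff_getLast?_eq_some.2 h⟩
    · right; exact h

theorem ChainCond.tail {v : Finset (Fin n)} {l : List (Finset (Fin n))} (h : ChainCond (v :: l)) :
    ChainCond l := fun a b hab => h a b (pair_infix_cons.2 (Or.inr hab))

theorem ChainCond.pairwise {c : List (Finset (Fin n))} (h : ChainCond c) :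
    c.Pairwise (fun a b => a.card < b.card) := by
  haveI : Trans (fun a b : Finset (Fin n) => a.card < b.card)
      (fun a b : Finset (Fin n) => a.card < b.card) (fun a b : Finset (Fin n) => a.card < b.card) :=
    ⟨fun h1 h2 => lt_trans h1 h2⟩
  rw [← List.isChain_iff_pairwise]
  induction c with
  | nil => exact List.IsChain.nil
  | cons v l ih =>
    rcases l with _ | ⟨w, l⟩
    · exact List.IsChain.singleton v
    · rw [List.isChain_cons_cons]
      refine ⟨?_, ih h.tail⟩
      have := h v w (pair_infix_cons.2 (Or.inl ⟨rfl, rfl⟩))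
      omega

theorem ChainCond.head_le {c : List (Finset (Fin n))} (h : ChainCond c) {a S : Finset (Fin n)}
    (ha : c.head? = some a) (hS : S ∈ c) : a.card ≤ S.card ∧ (S.card = a.card → S = a) := by
  have hp := h.pairwise
  obtain ⟨l, rfl⟩ := List.head?_eq_some_iff.1 ha
  rw [List.pairwise_cons] at hp
  rcases List.mem_cons.1 hS with rfl | hS
  · exact ⟨le_rfl, fun _ => rfl⟩
  · have := hp.1 S hS
    exact ⟨this.le, fun h => by omega⟩

theorem ChainCond.le_last {c : List (Finset (Fin n))} (h : ChainCond c) {b S : Finset (Fin n)}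
    (hb : c.getLast? = some b) (hS : S ∈ c) : S.card ≤ b.card ∧ (S.card = b.card → S = b) := by
  have hp := h.pairwise
  obtain ⟨l, rfl⟩ := List.getLast?_eq_some_iff.1 hb
  rw [List.pairwise_append] at hp
  rcases List.mem_append.1 hS with hS | hS
  · have := hp.2.2 S hS b (by simp)
    exact ⟨this.le, fun h => by omega⟩
  · simp only [List.mem_singleton] at hS
    subst hS
    exact ⟨le_rfl, fun _ => rfl⟩

theorem ChainCond.eq_of_card {c : List (Finset (Fin n))} (h : ChainCond c) {S T : Finset (Fin n)}
    (hS : S ∈ c) (hT : T ∈ c) (hc : S.card = T.card) : S = T := by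
  have hp := h.pairwise
  induction c with
  | nil => cases hS
  | cons v l ih =>
    rw [List.pairwise_cons] at hp
    rcases List.mem_cons.1 hS with rfl | hS'
    · rcases List.mem_cons.1 hT with rfl | hT'
      · rfl
      · have := hp.1 T hT'
        omega
    · rcases List.mem_cons.1 hT with rfl | hT'
      · have := hp.1 S hS'
        omega
      · exact ih h.tail hS' hT' hp.2

theorem mem_of_pair_infix {α : Type*} {a b : α} {c : List α} (h : [a, b] <:+: c) :
    a ∈ c ∧ b ∈ c := by
  constructor
  · exact h.subset (by simp)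
  · exact h.subset (by simp)

theorem mem_of_head? {α : Type*} {a : α} {c : List α} (h : c.head? = some a) : a ∈ c := by
  obtain ⟨l, rfl⟩ := List.head?_eq_some_iff.1 h
  simp

theorem mem_of_getLast? {α : Type*} {a : α} {c : List α} (h : c.getLast? = some a) : a ∈ c := by
  obtain ⟨l, rfl⟩ := List.getLast?_eq_some_iff.1 h
  simp

/-- The members of a chain of a good family lie in the levels `k, …, n - k`. -/
theorem Good.mem_card {k : ℕ} {C : Set (List (Finset (Fin n)))} (hC : Good n k C)
    {c : List (Finset (Fin n))} (hc : c ∈ C) {S : Finset (Fin n)} (hS : S ∈ c) :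
    k ≤ S.card ∧ S.card + k ≤ n := by
  obtain ⟨a, b, ha, hb, hab, hk⟩ := hC.ends c hc
  have h1 := ((hC.chain c hc).head_le ha hS).1
  have h2 := ((hC.chain c hc).le_last hb hS).1
  omega

theorem Good.chain_unique {k : ℕ} {C : Set (List (Finset (Fin n)))} (hC : Good n k C)
    {c c' : List (Finset (Fin n))} (hc : c ∈ C) (hc' : c' ∈ C) {S : Finset (Fin n)}
    (hS : S ∈ c) (hS' : S ∈ c') : c = c' := by
  obtain ⟨h1, h2⟩ := hC.mem_card hc hS
  exact (hC.cover S h1 h2).unique ⟨hc, hS⟩ ⟨hc', hS'⟩

theorem Good.edge_up_unique {k : ℕ} {C : Set (List (Finset (Fin n)))} (hC : Good n k C)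
    {a b b' : Finset (Fin n)} (h : Edge C a b) (h' : Edge C a b') : b = b' := by
  obtain ⟨c, hc, hi⟩ := h
  obtain ⟨c', hc', hi'⟩ := h'
  have hcc : c = c' := hC.chain_unique hc hc' (mem_of_pair_infix hi).1 (mem_of_pair_infix hi').1
  subst hcc
  have h1 := hC.chain c hc _ _ hi
  have h2 := hC.chain c hc _ _ hi'
  exact (hC.chain c hc).eq_of_card (mem_of_pair_infix hi).2 (mem_of_pair_infix hi').2 (by omega)

theorem Good.edge_down_unique {k : ℕ} {C : Set (List (Finset (Fin n)))} (hC : Good n k C)
    {a a' b : Finset (Fin n)} (h : Edge C a b) (h' : Edge C a' b) : a = a' := by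
  obtain ⟨c, hc, hi⟩ := h
  obtain ⟨c', hc', hi'⟩ := h'
  have hcc : c = c' := hC.chain_unique hc hc' (mem_of_pair_infix hi).2 (mem_of_pair_infix hi').2
  subst hcc
  have h1 := hC.chain c hc _ _ hi
  have h2 := hC.chain c hc _ _ hi'
  exact (hC.chain c hc).eq_of_card (mem_of_pair_infix hi).1 (mem_of_pair_infix hi').1 (by omega)

theorem Good.edge_cover {k : ℕ} {C : Set (List (Finset (Fin n)))} (hC : Good n k C)
    {a b : Finset (Fin n)} (h : Edge C a b) :
    a ⊆ b ∧ b.card = a.card + 1 ∧ k ≤ a.card ∧ b.card + k ≤ n := by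
  obtain ⟨c, hc, hi⟩ := h
  obtain ⟨h1, h2⟩ := hC.chain c hc _ _ hi
  exact ⟨h1, h2, (hC.mem_card hc (mem_of_pair_infix hi).1).1,
    (hC.mem_card hc (mem_of_pair_infix hi).2).2⟩

/-- A level of the Boolean lattice. -/
abbrev Lev (n k : ℕ) : Type := {v : Finset (Fin n) // v.card = k}

/-- The linking bijection of a good family. -/
theorem Good.linkEquiv {k : ℕ} (hk : 2 * k ≤ n) {C : Set (List (Finset (Fin n)))}
    (hC : Good n k C) :
    ∃ ζ : Lev n k ≃ Lev n k, ∀ y : Lev n k, ∃ c ∈ C, c.head? = some y.1 ∧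
      c.getLast? = some ((ζ y).1)ᶜ := by
  have h1 : ∀ y : Lev n k, ∃ z : Lev n k, ∃ c ∈ C, c.head? = some y.1 ∧
      c.getLast? = some (z.1)ᶜ := by
    intro y
    have hy := y.2
    obtain ⟨c, ⟨hc, hyc⟩, _⟩ := hC.cover y.1 (by omega) (by omega)
    obtain ⟨a, b, ha, hb, hab, hka⟩ := hC.ends c hc
    have h2 := (hC.chain c hc).head_le ha hyc
    have h3 : y.1 = a := h2.2 (by omega)
    have hbc : (bᶜ).card = k := by
      rw [card_compl, Fintype.card_fin]
      subst h3
      omega
    exact ⟨⟨bᶜ, hbc⟩, c, hc, by rw [ha, h3], by simp [hb]⟩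
  choose z hz using h1
  have hinj : Function.Injective z := by
    intro y y' hyy
    obtain ⟨c, hc, h2, h3⟩ := hz y
    obtain ⟨c', hc', h2', h3'⟩ := hz y'
    rw [← hyy] at h3'
    have hcc : c = c' := hC.chain_unique hc hc' (mem_of_getLast? h3) (mem_of_getLast? h3')
    subst hcc
    rw [h2] at h2'
    injection h2' with h4
    exact Subtype.ext h4
  refine ⟨Equiv.ofBijective z (Finite.injective_iff_bijective.1 hinj), ?_⟩
  intro y
  simpa using hz y

/-- Extension of a good family by one level on both sides. -/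
theorem Good.extend {k : ℕ} (hk : 2 * (k + 1) ≤ n) {C : Set (List (Finset (Fin n)))}
    (hC : Good n (k + 1) C) (ζ : Lev n (k + 1) ≃ Lev n (k + 1))
    (hζ : ∀ y : Lev n (k + 1), ∃ c ∈ C, c.head? = some y.1 ∧ c.getLast? = some ((ζ y).1)ᶜ)
    (u : Lev n k → Lev n (k + 1)) (τ : Lev n k ≃ Lev n k) (hu : Function.Injective u)
    (hu1 : ∀ a, a.1 ⊆ (u a).1) (hu2 : ∀ a, (τ a).1 ⊆ (ζ (u a)).1) :
    ∃ C' : Set (List (Finset (Fin n))), Good n k C' ∧
      ∀ S T, Edge C' S T → Edge C S T ∨ (∃ a, S = a.1 ∧ T = (u a).1) ∨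
        (∃ a, S = ((ζ (u a)).1)ᶜ ∧ T = ((τ a).1)ᶜ) := by
  let C' : Set (List (Finset (Fin n))) :=
    {c | c ∈ C ∧ ∀ a, c.head? ≠ some (u a).1} ∪
      {c' | ∃ a : Lev n k, ∃ c ∈ C, c.head? = some (u a).1 ∧
        c' = a.1 :: (c ++ [((τ a).1)ᶜ])}
  -- the last element of the chain through `u a`
  have hlast : ∀ a : Lev n k, ∀ c ∈ C, c.head? = some (u a).1 →
      c.getLast? = some ((ζ (u a)).1)ᶜ := by
    intro a c hc hh
    obtain ⟨c', hc', h1, h2⟩ := hζ (u a)
    have : c = c' := hC.chain_unique hc hc' (mem_of_head? hh) (mem_of_head? h1)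
    rw [this, h2]
  have hcard1 : ∀ a : Lev n k, (((τ a).1)ᶜ).card = n - k := by
    intro a
    rw [card_compl, Fintype.card_fin, (τ a).2]
  have hcard2 : ∀ y : Lev n (k+1), (((ζ y).1)ᶜ).card = n - (k + 1) := by
    intro y
    rw [card_compl, Fintype.card_fin, (ζ y).2]
  have hedge : ∀ a : Lev n k, ∀ c ∈ C, c.head? = some (u a).1 → ∀ S T,
      [S, T] <:+: a.1 :: (c ++ [((τ a).1)ᶜ]) → (S = a.1 ∧ T = (u a).1) ∨
        (S = ((ζ (u a)).1)ᶜ ∧ T = ((τ a).1)ᶜ) ∨ [S, T] <:+: c := by
    intro a c hc hh S T hST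
    rcases pair_infix_cons.1 hST with ⟨rfl, h1⟩ | h1
    · left
      rw [List.head?_append, hh] at h1
      simp only [Option.some_or, Option.some.injEq] at h1
      exact ⟨rfl, h1.symm⟩
    · rcases pair_infix_concat.1 h1 with ⟨rfl, h2⟩ | h2
      · right; left
        rw [hlast a c hc hh] at h2
        simp only [Option.some.injEq] at h2
        exact ⟨h2.symm, rfl⟩
      · right; right; exact h2
  refine ⟨C', ⟨?_, ?_, ?_⟩, ?_⟩
  · -- ends
    intro c hc
    rcases hc with ⟨hc, _⟩ | ⟨a, c, hc, hh, rfl⟩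
    · obtain ⟨a, b, h1, h2, h3, h4⟩ := hC.ends c hc
      exact ⟨a, b, h1, h2, h3, by omega⟩
    · refine ⟨a.1, ((τ a).1)ᶜ, rfl, ?_, ?_, a.2.ge⟩
      · rw [← List.cons_append, List.getLast?_concat]
      · rw [hcard1, a.2]; omega
  · -- chain
    intro c hc
    rcases hc with ⟨hc, _⟩ | ⟨a, c, hc, hh, rfl⟩
    · exact hC.chain c hc
    · intro S T hST
      rcases hedge a c hc hh S T hST with ⟨rfl, rfl⟩ | ⟨rfl, rfl⟩ | h
      · exact ⟨hu1 a, by rw [a.2, (u a).2]⟩
      · refine ⟨compl_subset_compl.2 (hu2 a), ?_⟩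
        rw [hcard1, hcard2]
        omega
      · exact hC.chain c hc S T h
  · -- cover
    intro S hS1 hS2
    rcases Nat.eq_or_lt_of_le hS1 with hS1 | hS1
    · -- level k
      obtain ⟨c, hc, h1, h2⟩ := hζ (u ⟨S, hS1.symm⟩)
      refine ⟨S :: (c ++ [((τ ⟨S, hS1.symm⟩).1)ᶜ]),
        ⟨Or.inr ⟨⟨S, hS1.symm⟩, c, hc, h1, rfl⟩, by simp⟩, ?_⟩
      rintro c' ⟨hc', hSc'⟩
      rcases hc' with ⟨hc', _⟩ | ⟨a, c'', hc'', hh, rfl⟩
      · have := hC.mem_card hc' hSc'
        omega
      · have : S = a.1 := by
          rw [List.mem_cons, List.mem_append, List.mem_singleton] at hSc'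
          rcases hSc' with h | h | h
          · exact h
          · have := hC.mem_card hc'' h
            omega
          · have h3 := hcard1 a
            rw [← h] at h3
            omega
        subst this
        have : c'' = c := hC.chain_unique hc'' hc (mem_of_head? hh) (mem_of_head? h1)
        rw [this]
    · rcases Nat.eq_or_lt_of_le hS2 with hS2 | hS2
      · -- level n - k
        have hSc : (Sᶜ).card = k := by
          rw [card_compl, Fintype.card_fin]; omega
        set a : Lev n k := τ.symm ⟨Sᶜ, hSc⟩ with ha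
        have hτa : ((τ a).1)ᶜ = S := by
          rw [ha, Equiv.apply_symm_apply]; simp
        obtain ⟨c, hc, h1, h2⟩ := hζ (u a)
        refine ⟨a.1 :: (c ++ [((τ a).1)ᶜ]), ⟨Or.inr ⟨a, c, hc, h1, rfl⟩, by simp [hτa]⟩, ?_⟩
        rintro c' ⟨hc', hSc'⟩
        rcases hc' with ⟨hc', _⟩ | ⟨a', c'', hc'', hh, rfl⟩
        · have := hC.mem_card hc' hSc'
          omega
        · have : a' = a := by
            rw [List.mem_cons, List.mem_append, List.mem_singleton] at hSc'
            rcases hSc' with h | h | h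
            · have := a'.2
              rw [← h] at this
              omega
            · have := hC.mem_card hc'' h
              omega
            · apply τ.injective
              apply Subtype.ext
              rw [← compl_inj_iff, ← h, hτa]
          subst this
          have : c'' = c := hC.chain_unique hc'' hc (mem_of_head? hh) (mem_of_head? h1)
          rw [this]
      · -- middle levels
        obtain ⟨c, ⟨hc, hSc⟩, _⟩ := hC.cover S (by omega) (by omega)
        by_cases hex : ∃ a, c.head? = some (u a).1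
        · obtain ⟨a, ha⟩ := hex
          refine ⟨a.1 :: (c ++ [((τ a).1)ᶜ]), ⟨Or.inr ⟨a, c, hc, ha, rfl⟩, by simp [hSc]⟩, ?_⟩
          rintro c' ⟨hc', hSc'⟩
          rcases hc' with ⟨hc', hno⟩ | ⟨a', c'', hc'', hh, rfl⟩
          · have : c' = c := hC.chain_unique hc' hc hSc' hSc
            subst this
            exact absurd ha (hno a)
          · have hSc'' : S ∈ c'' := by
              rw [List.mem_cons, List.mem_append, List.mem_singleton] at hSc'
              rcases hSc' with h | h | h
              · have := a'.2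
                rw [← h] at this
                omega
              · exact h
              · have h3 := hcard1 a'
                rw [← h] at h3
                omega
            have : c'' = c := hC.chain_unique hc'' hc hSc'' hSc
            subst this
            rw [hh] at ha
            simp only [Option.some.injEq] at ha
            have : a' = a := hu (Subtype.ext ha)
            rw [this]
        · refine ⟨c, ⟨Or.inl ⟨hc, fun a h => hex ⟨a, h⟩⟩, hSc⟩, ?_⟩
          rintro c' ⟨hc', hSc'⟩
          rcases hc' with ⟨hc', hno⟩ | ⟨a', c'', hc'', hh, rfl⟩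
          · exact hC.chain_unique hc' hc hSc' hSc
          · have hSc'' : S ∈ c'' := by
              rw [List.mem_cons, List.mem_append, List.mem_singleton] at hSc'
              rcases hSc' with h | h | h
              · have := a'.2
                rw [← h] at this
                omega
              · exact h
              · have h3 := hcard1 a'
                rw [← h] at h3
                omega
            have : c'' = c := hC.chain_unique hc'' hc hSc'' hSc
            subst this
            exact absurd ⟨a', hh⟩ hex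
  · rintro S T ⟨c, hc, hST⟩
    rcases hc with ⟨hc, _⟩ | ⟨a, c, hc, hh, rfl⟩
    · exact Or.inl ⟨c, hc, hST⟩
    · rcases hedge a c hc hh S T hST with h | h | h
      · right; left; exact ⟨a, h⟩
      · right; right; exact ⟨a, h⟩
      · left; exact ⟨c, hc, h⟩

/-- The starting family for `n = 2 m`. -/
theorem good_even {m : ℕ} (hm : n = 2 * m) :
    ∃ C : Set (List (Finset (Fin n))), Good n m C ∧ ∀ S T, ¬ Edge C S T := by
  refine ⟨{c | ∃ S : Finset (Fin n), S.card = m ∧ c = [S]}, ⟨?_, ?_, ?_⟩, ?_⟩
  · rintro c ⟨S, hS, rfl⟩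
    exact ⟨S, S, rfl, rfl, by omega, hS.ge⟩
  · rintro c ⟨S, hS, rfl⟩ a b h
    have := h.length_le
    simp at this
  · intro S h1 h2
    refine ⟨[S], ⟨⟨S, by omega, rfl⟩, by simp⟩, ?_⟩
    rintro c ⟨⟨T, hT, rfl⟩, hST⟩
    simp only [List.mem_singleton] at hST
    rw [hST]
  · rintro S T ⟨c, ⟨U, hU, rfl⟩, h⟩
    have := h.length_le
    simp at this

/-- The starting family for `n = 2 m + 1`. -/
theorem good_odd {m : ℕ} (hm : n = 2 * m + 1) (f : Lev n m ≃ Lev n (m + 1))
    (hf : ∀ a, a.1 ⊆ (f a).1) :
    ∃ C : Set (List (Finset (Fin n))), Good n m C ∧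
      ∀ S T, Edge C S T → ∃ a, S = a.1 ∧ T = (f a).1 := by
  have key : ∀ a : Lev n m, ∀ S T, [S, T] <:+: [a.1, (f a).1] → S = a.1 ∧ T = (f a).1 := by
    intro a S T h
    rcases pair_infix_cons.1 h with ⟨h1, h2⟩ | h1
    · simp only [List.head?_cons, Option.some.injEq] at h2
      exact ⟨h1, h2.symm⟩
    · have := h1.length_le
      simp at this
  refine ⟨{c | ∃ a : Lev n m, c = [a.1, (f a).1]}, ⟨?_, ?_, ?_⟩, ?_⟩
  · rintro c ⟨a, rfl⟩
    refine ⟨a.1, (f a).1, rfl, rfl, ?_, a.2.ge⟩
    rw [a.2, (f a).2]; omega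
  · rintro c ⟨a, rfl⟩ S T h
    obtain ⟨rfl, rfl⟩ := key a S T h
    exact ⟨hf a, by rw [a.2, (f a).2]⟩
  · intro S h1 h2
    rcases Nat.eq_or_lt_of_le h1 with h1 | h1
    · refine ⟨[S, (f ⟨S, h1.symm⟩).1], ⟨⟨⟨S, h1.symm⟩, rfl⟩, by simp⟩, ?_⟩
      rintro c ⟨⟨a, rfl⟩, hSa⟩
      have : S = a.1 := by
        simp only [List.mem_cons, List.not_mem_nil, or_false] at hSa
        rcases hSa with h | h
        · exact h
        · have := (f a).2
          rw [← h] at this
          omega
      subst this
      rfl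
    · have hc : S.card = m + 1 := by omega
      refine ⟨[(f.symm ⟨S, hc⟩).1, S], ⟨⟨f.symm ⟨S, hc⟩, by simp⟩, by simp⟩, ?_⟩
      rintro c ⟨⟨a, rfl⟩, hSa⟩
      have : S = (f a).1 := by
        simp only [List.mem_cons, List.not_mem_nil, or_false] at hSa
        rcases hSa with h | h
        · have := a.2
          rw [← h] at this
          omega
        · exact h
      have h3 : f.symm ⟨S, hc⟩ = a := by
        rw [Equiv.symm_apply_eq]
        exact Subtype.ext this
      rw [h3, ← this]
  · rintro S T ⟨c, ⟨a, rfl⟩, h⟩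
    exact ⟨a, key a S T h⟩

end Pool.MP_0ccee8_co.Lib
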