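import Mathlib

/-!
# Normalised flows between two consecutive levels and rerouting along hexagons

An edge between the levels `k` and `k + 1` is given by a `k`-set `v` and an element `x ∉ v`; it joins
`v` and `insert x v`.
-/

set_option autoImplicit false

namespace Pool.MP_0ccee8_co.Lib

open Finset

variable {n : ℕ}

/-- A normalised flow between the levels `k` and `k + 1`. -/
structure NF (n k : ℕ) (w : Finset (Fin n) → Fin n → ℝ) : Prop where
  nonneg : ∀ v x, v.card = k → x ∉ v → 0 ≤ w v x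
  row : ∀ v, v.card = k → ∑ x ∈ vᶜ, w v x = (n : ℝ) - k
  col : ∀ y, y.card = k + 1 → ∑ x ∈ y, w (y.erase x) x = (k : ℝ) + 1

theorem NF.one {k : ℕ} : NF n k (fun _ _ => 1) := by
  refine ⟨fun _ _ _ _ => zero_le_one, ?_, ?_⟩
  · intro v hv
    have hle : v.card ≤ n := by simpa using card_le_univ v
    rw [sum_const, card_compl, Fintype.card_fin, nsmul_eq_mul, mul_one, Nat.cast_sub hle, hv]
  · intro y hy
    rw [sum_const, hy]; simp

/-- The indicator of the edge `(v, x)`. -/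
noncomputable def ind (v : Finset (Fin n)) (x : Fin n) (u : Finset (Fin n)) (z : Fin n) : ℝ :=
  if u = v ∧ z = x then 1 else 0

theorem ind_nonneg (v : Finset (Fin n)) (x : Fin n) (u : Finset (Fin n)) (z : Fin n) :
    0 ≤ ind v x u z := by
  unfold ind; split_ifs <;> norm_num

theorem ind_self (v : Finset (Fin n)) (x : Fin n) : ind v x v x = 1 := by
  unfold ind; simp

theorem ind_row (v : Finset (Fin n)) (x : Fin n) (hx : x ∉ v) (u : Finset (Fin n)) :
    ∑ z ∈ uᶜ, ind v x u z = if u = v then 1 else 0 := by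
  unfold ind
  by_cases h : u = v
  · subst h
    simp [hx]
  · simp [h]

theorem ind_col (v : Finset (Fin n)) (x : Fin n) (hx : x ∉ v) (y : Finset (Fin n)) :
    ∑ z ∈ y, ind v x (y.erase z) z = if y = insert x v then 1 else 0 := by
  unfold ind
  by_cases h : y = insert x v
  · subst h
    rw [if_pos rfl, Finset.sum_eq_single x]
    · simp [hx]
    · intro b _ hb
      simp [hb]
    · intro h; simp at h
  · rw [if_neg h]
    apply Finset.sum_eq_zero
    intro z hz
    rw [if_neg]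
    rintro ⟨h1, rfl⟩
    apply h
    rw [← h1, insert_erase hz]

/-- The signed indicator of a hexagon. -/
noncomputable def hex (v : Finset (Fin n)) (x a b : Fin n) (u : Finset (Fin n)) (z : Fin n) : ℝ :=
  - ind v x u z + ind v b u z - ind (insert b (v.erase a)) a u z + ind (insert b (v.erase a)) x u z
    - ind (insert x (v.erase a)) b u z + ind (insert x (v.erase a)) a u z

theorem hex_row (v : Finset (Fin n)) (x a b : Fin n) (hx : x ∉ v) (ha : a ∈ v) (hb : b ∉ v)
    (hbx : b ≠ x) (u : Finset (Fin n)) : ∑ z ∈ uᶜ, hex v x a b u z = 0 := by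
  have hab : a ≠ b := fun h => hb (h ▸ ha)
  have hax : a ≠ x := fun h => hx (h ▸ ha)
  unfold hex
  simp only [sum_add_distrib, sum_sub_distrib, sum_neg_distrib]
  rw [ind_row v x hx, ind_row v b hb, ind_row _ a (by simp [hab]), ind_row _ x (by simp [hx, hbx.symm]),
    ind_row _ b (by simp [hb, hbx]), ind_row _ a (by simp [hax])]
  ring

theorem hex_col (v : Finset (Fin n)) (x a b : Fin n) (hx : x ∉ v) (ha : a ∈ v) (hb : b ∉ v)
    (hbx : b ≠ x) (y : Finset (Fin n)) : ∑ z ∈ y, hex v x a b (y.erase z) z = 0 := by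
  have hab : a ≠ b := fun h => hb (h ▸ ha)
  have hax : a ≠ x := fun h => hx (h ▸ ha)
  unfold hex
  simp only [sum_add_distrib, sum_sub_distrib, sum_neg_distrib]
  rw [ind_col v x hx, ind_col v b hb, ind_col _ a (by simp [hab]), ind_col _ x (by simp [hx, hbx.symm]),
    ind_col _ b (by simp [hb, hbx]), ind_col _ a (by simp [hax])]
  rw [Finset.insert_comm a b, insert_erase ha, Finset.insert_comm a x, insert_erase ha, Finset.insert_comm x b]
  ring

theorem hex_ge (v : Finset (Fin n)) (x a b : Fin n) (u : Finset (Fin n)) (z : Fin n)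
    (h1 : ¬ (u = v ∧ z = x)) :
    - ind (insert b (v.erase a)) a u z - ind (insert x (v.erase a)) b u z ≤ hex v x a b u z := by
  have h2 : ind v x u z = 0 := by unfold ind; rw [if_neg h1]
  unfold hex
  rw [h2]
  have := ind_nonneg v b u z
  have := ind_nonneg (insert b (v.erase a)) x u z
  have := ind_nonneg (insert x (v.erase a)) a u z
  linarith

theorem hex_le (v : Finset (Fin n)) (x a b : Fin n) (u : Finset (Fin n)) (z : Fin n) :
    hex v x a b u z ≤ ind v b u z + ind (insert b (v.erase a)) x u z +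
      ind (insert x (v.erase a)) a u z := by
  unfold hex
  have := ind_nonneg v x u z
  have := ind_nonneg (insert b (v.erase a)) a u z
  have := ind_nonneg (insert x (v.erase a)) b u z
  linarith

theorem card_le_of_map {α β γ : Type*} (S : Finset α) (f : α → β) (g : α → γ)
    (hinj : ∀ x ∈ S, ∀ y ∈ S, f x = f y → g x = g y → x = y) (s : Finset β) (t : β → Finset γ)
    (hs : ∀ x ∈ S, f x ∈ s) (ht : ∀ x ∈ S, g x ∈ t (f x)) (D : ℝ)
    (hD : ∀ b ∈ s, ((t b).card : ℝ) ≤ D) : (S.card : ℝ) ≤ s.card * D := by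
  classical
  have h1 : S.card ≤ (s.sigma t).card := by
    apply Finset.card_le_card_of_injOn (fun x => (⟨f x, g x⟩ : Σ _ : β, γ))
    · intro x hx
      simp only [coe_sigma, Set.mem_sigma_iff, mem_coe]
      exact ⟨hs x hx, ht x hx⟩
    · intro x hx y hy hxy
      simp only [Sigma.mk.injEq] at hxy
      exact hinj x hx y hy hxy.1 (eq_of_heq hxy.2)
  rw [card_sigma] at h1
  calc (S.card : ℝ) ≤ ((∑ b ∈ s, (t b).card : ℕ) : ℝ) := by exact_mod_cast h1
    _ = ∑ b ∈ s, ((t b).card : ℝ) := by push_cast; rfl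
    _ ≤ ∑ b ∈ s, D := Finset.sum_le_sum hD
    _ = s.card * D := by simp

section Reroute

variable {k : ℕ} (R : Finset (Finset (Fin n) × Fin n))
  (G : Finset (Fin n) × Fin n → Finset (Fin n × Fin n))

/-- All the hexagons used. -/
def quads : Finset ((Finset (Fin n) × Fin n) × (Fin n × Fin n)) :=
  (R ×ˢ univ).filter (fun t => t.2 ∈ G t.1)

theorem mem_quads {t : (Finset (Fin n) × Fin n) × (Fin n × Fin n)} :
    t ∈ quads R G ↔ t.1 ∈ R ∧ t.2 ∈ G t.1 := by
  simp [quads]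

theorem sum_quads (F : (Finset (Fin n) × Fin n) × (Fin n × Fin n) → ℝ) :
    ∑ t ∈ quads R G, F t = ∑ e ∈ R, ∑ g ∈ G e, F (e, g) := by
  unfold quads
  rw [sum_filter, sum_product]
  apply sum_congr rfl
  intro e _
  rw [← sum_filter]
  apply sum_congr
  · ext g; simp
  · intro _ _; rfl

variable (hR : ∀ e ∈ R, e.1.card = k ∧ e.2 ∉ e.1)
  (hG : ∀ e ∈ R, ∀ g ∈ G e, g.1 ∈ e.1 ∧ g.2 ∉ e.1 ∧ g.2 ≠ e.2)

include hR hG in
theorem count2 {Du : ℝ} (u : Finset (Fin n)) (z : Fin n) (hu : u.card = k)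
    (hDu : ∀ v, v.card = k → (((univ.filter (fun x => (v, x) ∈ R)).card : ℕ) : ℝ) ≤ Du) :
    ((((quads R G).filter (fun t => u = t.1.1 ∧ z = t.2.2)).card : ℕ) : ℝ) ≤ k * Du := by
  have := card_le_of_map ((quads R G).filter (fun t => u = t.1.1 ∧ z = t.2.2))
    (fun t => t.2.1) (fun t => t.1.2) ?_ u (fun _ => univ.filter (fun x => (u, x) ∈ R)) ?_ ?_ Du ?_
  · rwa [hu] at this
  · rintro ⟨⟨v, x⟩, ⟨a, b⟩⟩ h1 ⟨⟨v', x'⟩, ⟨a', b'⟩⟩ h2 h3 h4
    simp only [mem_filter] at h1 h2 h3 h4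
    obtain ⟨_, rfl, rfl⟩ := h1
    obtain ⟨_, rfl, rfl⟩ := h2
    subst h3 h4
    rfl
  · rintro ⟨⟨v, x⟩, ⟨a, b⟩⟩ h1
    simp only [mem_filter, mem_quads] at h1
    obtain ⟨⟨h1, h2⟩, rfl, rfl⟩ := h1
    exact (hG _ h1 _ h2).1
  · rintro ⟨⟨v, x⟩, ⟨a, b⟩⟩ h1
    simp only [mem_filter, mem_quads] at h1
    obtain ⟨⟨h1, h2⟩, rfl, rfl⟩ := h1
    simpa using h1
  · intro _ _
    exact hDu u hu

theorem insert_erase_swap {v : Finset (Fin n)} {a b : Fin n} (ha : a ∈ v) (hb : b ∉ v) :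
    insert a ((insert b (v.erase a)).erase b) = v := by
  have hab : a ≠ b := fun h => hb (h ▸ ha)
  rw [erase_insert (by simp [hb]), insert_erase ha]

include hR hG in
theorem count3 {Du : ℝ} (u : Finset (Fin n)) (z : Fin n) (hu : u.card = k)
    (hDu : ∀ v, v.card = k → (((univ.filter (fun x => (v, x) ∈ R)).card : ℕ) : ℝ) ≤ Du) :
    ((((quads R G).filter (fun t => u = insert t.2.2 (t.1.1.erase t.2.1) ∧ z = t.2.1)).card : ℕ) : ℝ)
      ≤ k * Du := by
  have := card_le_of_map ((quads R G).filter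
    (fun t => u = insert t.2.2 (t.1.1.erase t.2.1) ∧ z = t.2.1))
    (fun t => t.2.2) (fun t => t.1.2) ?_ u
    (fun b => if (insert z (u.erase b)).card = k then
      univ.filter (fun x => (insert z (u.erase b), x) ∈ R) else ∅) ?_ ?_ Du ?_
  · rwa [hu] at this
  · rintro ⟨⟨v, x⟩, ⟨a, b⟩⟩ h1 ⟨⟨v', x'⟩, ⟨a', b'⟩⟩ h2 h3 h4
    simp only [mem_filter, mem_quads] at h1 h2 h3 h4
    obtain ⟨⟨h1, h1'⟩, h5, rfl⟩ := h1
    obtain ⟨⟨h2, h2'⟩, h6, rfl⟩ := h2
    subst h3 h4
    have e1 := insert_erase_swap (hG _ h1 _ h1').1 (hG _ h1 _ h1').2.1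
    have e2 := insert_erase_swap (hG _ h2 _ h2').1 (hG _ h2 _ h2').2.1
    simp only at e1 e2
    rw [← h5] at e1
    rw [← h6] at e2
    rw [← e1, ← e2]
  · rintro ⟨⟨v, x⟩, ⟨a, b⟩⟩ h1
    simp only [mem_filter, mem_quads] at h1
    obtain ⟨⟨h1, h2⟩, rfl, rfl⟩ := h1
    simp
  · rintro ⟨⟨v, x⟩, ⟨a, b⟩⟩ h1
    simp only [mem_filter, mem_quads] at h1
    obtain ⟨⟨h1, h2⟩, rfl, rfl⟩ := h1
    have e1 := insert_erase_swap (hG _ h1 _ h2).1 (hG _ h1 _ h2).2.1
    simp only at e1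
    simp only [e1]
    rw [if_pos (hR _ h1).1]
    simpa using h1
  · intro b hb
    split_ifs with h
    · exact hDu _ h
    · have := hDu u hu
      have h0 : (0 : ℝ) ≤ (((univ.filter (fun x => (u, x) ∈ R)).card : ℕ) : ℝ) := Nat.cast_nonneg _
      simp only [card_empty, Nat.cast_zero]
      linarith

include hR hG in
theorem count4 (u : Finset (Fin n)) (z : Fin n) (hu : u.card = k) (hz : z ∉ u) :
    ((((quads R G).filter (fun t => u = insert t.2.2 (t.1.1.erase t.2.1) ∧ z = t.1.2)).card : ℕ) : ℝ)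
      ≤ k * ((n : ℝ) - k - 1) := by
  have := card_le_of_map ((quads R G).filter
    (fun t => u = insert t.2.2 (t.1.1.erase t.2.1) ∧ z = t.1.2))
    (fun t => t.2.2) (fun t => t.2.1) ?_ u (fun _ => (insert z u)ᶜ) ?_ ?_ ((n : ℝ) - k - 1) ?_
  · rwa [hu] at this
  · rintro ⟨⟨v, x⟩, ⟨a, b⟩⟩ h1 ⟨⟨v', x'⟩, ⟨a', b'⟩⟩ h2 h3 h4
    simp only [mem_filter, mem_quads] at h1 h2 h3 h4
    obtain ⟨⟨h1, h1'⟩, h5, rfl⟩ := h1
    obtain ⟨⟨h2, h2'⟩, h6, rfl⟩ := h2
    subst h3 h4
    have e1 := insert_erase_swap (hG _ h1 _ h1').1 (hG _ h1 _ h1').2.1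
    have e2 := insert_erase_swap (hG _ h2 _ h2').1 (hG _ h2 _ h2').2.1
    simp only at e1 e2
    rw [← h5] at e1
    rw [← h6] at e2
    rw [← e1, ← e2]
  · rintro ⟨⟨v, x⟩, ⟨a, b⟩⟩ h1
    simp only [mem_filter, mem_quads] at h1
    obtain ⟨⟨h1, h2⟩, rfl, rfl⟩ := h1
    simp
  · rintro ⟨⟨v, x⟩, ⟨a, b⟩⟩ h1
    simp only [mem_filter, mem_quads] at h1
    obtain ⟨⟨h1, h2⟩, rfl, rfl⟩ := h1
    have h3 := hG _ h1 _ h2
    have h4 := hR _ h1
    simp only at h3 h4
    have hab : a ≠ b := fun h => h3.2.1 (h ▸ h3.1)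
    have hax : a ≠ z := fun h => h4.2 (h ▸ h3.1)
    simp [hab, hax]
  · intro _ _
    rw [card_compl, Fintype.card_fin, card_insert_of_notMem hz, hu]
    have hle : k + 1 ≤ n := by
      have := card_le_univ (insert z u)
      rw [card_insert_of_notMem hz, hu, Fintype.card_fin] at this
      exact this
    rw [Nat.cast_sub hle]
    push_cast
    linarith

include hR hG in
theorem count5 {Dd : ℝ} (hDd0 : 0 ≤ Dd) (u : Finset (Fin n)) (z : Fin n) (hu : u.card = k)
    (hz : z ∉ u)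
    (hDd : ∀ y : Finset (Fin n), y.card = k + 1 →
      (((y.filter (fun x => (y.erase x, x) ∈ R)).card : ℕ) : ℝ) ≤ Dd) :
    ((((quads R G).filter (fun t => u = insert t.1.2 (t.1.1.erase t.2.1) ∧ z = t.2.2)).card : ℕ) : ℝ)
      ≤ ((n : ℝ) - k - 1) * Dd := by
  have := card_le_of_map ((quads R G).filter
    (fun t => u = insert t.1.2 (t.1.1.erase t.2.1) ∧ z = t.2.2))
    (fun t => t.2.1) (fun t => t.1.2) ?_ ((insert z u)ᶜ)
    (fun a => (insert a u).filter (fun x => ((insert a u).erase x, x) ∈ R)) ?_ ?_ Dd ?_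
  · rw [card_compl, Fintype.card_fin, card_insert_of_notMem hz, hu] at this
    have hle : k + 1 ≤ n := by
      have := card_le_univ (insert z u)
      rw [card_insert_of_notMem hz, hu, Fintype.card_fin] at this
      exact this
    rw [Nat.cast_sub hle] at this
    push_cast at this
    calc _ ≤ _ := this
      _ = _ := by ring
  · rintro ⟨⟨v, x⟩, ⟨a, b⟩⟩ h1 ⟨⟨v', x'⟩, ⟨a', b'⟩⟩ h2 h3 h4
    simp only [mem_filter, mem_quads] at h1 h2 h3 h4
    obtain ⟨⟨h1, h1'⟩, h5, rfl⟩ := h1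
    obtain ⟨⟨h2, h2'⟩, h6, rfl⟩ := h2
    subst h3 h4
    have e1 := insert_erase_swap (hG _ h1 _ h1').1 (hR _ h1).2
    have e2 := insert_erase_swap (hG _ h2 _ h2').1 (hR _ h2).2
    simp only at e1 e2
    rw [← h5] at e1
    rw [← h6] at e2
    rw [← e1, ← e2]
  · rintro ⟨⟨v, x⟩, ⟨a, b⟩⟩ h1
    simp only [mem_filter, mem_quads] at h1
    obtain ⟨⟨h1, h2⟩, rfl, rfl⟩ := h1
    have h3 := hG _ h1 _ h2
    have h4 := hR _ h1
    simp only at h3 h4
    have hab : a ≠ z := fun h => h3.2.1 (h ▸ h3.1)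
    have hax : a ≠ x := fun h => h4.2 (h ▸ h3.1)
    simp [hab, hax]
  · rintro ⟨⟨v, x⟩, ⟨a, b⟩⟩ h1
    simp only [mem_filter, mem_quads] at h1
    obtain ⟨⟨h1, h2⟩, rfl, rfl⟩ := h1
    have h3 := hG _ h1 _ h2
    have h4 := hR _ h1
    simp only at h3 h4
    have hax : a ≠ x := fun h => h4.2 (h ▸ h3.1)
    have e1 : (insert a (insert x (v.erase a))).erase x = v := by
      rw [Finset.insert_comm, insert_erase h3.1, erase_insert h4.2]
    simp only [mem_filter, e1]
    exact ⟨by simp, h1⟩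
  · intro a ha
    simp only [mem_compl, mem_insert, not_or] at ha
    exact hDd _ (by rw [card_insert_of_notMem ha.2, hu])

include hR hG in
theorem count6 {Dd : ℝ} (hDd0 : 0 ≤ Dd) (u : Finset (Fin n)) (z : Fin n) (hu : u.card = k)
    (hz : z ∉ u)
    (hDd : ∀ y : Finset (Fin n), y.card = k + 1 →
      (((y.filter (fun x => (y.erase x, x) ∈ R)).card : ℕ) : ℝ) ≤ Dd) :
    ((((quads R G).filter (fun t => u = insert t.1.2 (t.1.1.erase t.2.1) ∧ z = t.2.1)).card : ℕ) : ℝ)
      ≤ ((n : ℝ) - k - 1) * Dd := by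
  have := card_le_of_map ((quads R G).filter
    (fun t => u = insert t.1.2 (t.1.1.erase t.2.1) ∧ z = t.2.1))
    (fun t => t.2.2) (fun t => t.1.2) ?_ ((insert z u)ᶜ)
    (fun _ => (insert z u).filter (fun x => ((insert z u).erase x, x) ∈ R)) ?_ ?_ Dd ?_
  · rw [card_compl, Fintype.card_fin, card_insert_of_notMem hz, hu] at this
    have hle : k + 1 ≤ n := by
      have := card_le_univ (insert z u)
      rw [card_insert_of_notMem hz, hu, Fintype.card_fin] at this
      exact this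
    rw [Nat.cast_sub hle] at this
    push_cast at this
    calc _ ≤ _ := this
      _ = _ := by ring
  · rintro ⟨⟨v, x⟩, ⟨a, b⟩⟩ h1 ⟨⟨v', x'⟩, ⟨a', b'⟩⟩ h2 h3 h4
    simp only [mem_filter, mem_quads] at h1 h2 h3 h4
    obtain ⟨⟨h1, h1'⟩, h5, rfl⟩ := h1
    obtain ⟨⟨h2, h2'⟩, h6, rfl⟩ := h2
    subst h3 h4
    have e1 := insert_erase_swap (hG _ h1 _ h1').1 (hR _ h1).2
    have e2 := insert_erase_swap (hG _ h2 _ h2').1 (hR _ h2).2
    simp only at e1 e2
    rw [← h5] at e1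
    rw [← h6] at e2
    rw [← e1, ← e2]
  · rintro ⟨⟨v, x⟩, ⟨a, b⟩⟩ h1
    simp only [mem_filter, mem_quads] at h1
    obtain ⟨⟨h1, h2⟩, rfl, rfl⟩ := h1
    have h3 := hG _ h1 _ h2
    have h4 := hR _ h1
    simp only at h3 h4
    have hab : b ≠ z := fun h => h3.2.1 (h ▸ h3.1)
    simp [hab, h3.2.1, h3.2.2]
  · rintro ⟨⟨v, x⟩, ⟨a, b⟩⟩ h1
    simp only [mem_filter, mem_quads] at h1
    obtain ⟨⟨h1, h2⟩, rfl, rfl⟩ := h1
    have h3 := hG _ h1 _ h2
    have h4 := hR _ h1
    simp only at h3 h4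
    have e1 : (insert z (insert x (v.erase z))).erase x = v := by
      rw [Finset.insert_comm, insert_erase h3.1, erase_insert h4.2]
    simp only [mem_filter, e1]
    exact ⟨by simp, h1⟩
  · intro b hb
    exact hDd _ (by rw [card_insert_of_notMem hz, hu])

end Reroute

theorem sum_ind_eq_card {τ : Type*} (S : Finset τ) (f : τ → Finset (Fin n)) (g : τ → Fin n)
    (u : Finset (Fin n)) (z : Fin n) :
    ∑ t ∈ S, ind (f t) (g t) u z = (((S.filter (fun t => u = f t ∧ z = g t)).card : ℕ) : ℝ) := by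
  unfold ind
  rw [sum_ite]
  simp

/-- Rerouting a flow away from the edges in `R` along hexagons. -/
theorem reroute {k : ℕ} (w : Finset (Fin n) → Fin n → ℝ) (hw : NF n k w)
    (R : Finset (Finset (Fin n) × Fin n))
    (G : Finset (Fin n) × Fin n → Finset (Fin n × Fin n))
    (P : Finset (Fin n) → Fin n → Prop) (hPR : ∀ v x, P v x → (v, x) ∉ R)
    (W N Du Dd : ℝ) (hN : 0 < N) (hW : 0 ≤ W) (hDd0 : 0 ≤ Dd) (hDu0 : 0 ≤ Du)
    (hR : ∀ e ∈ R, e.1.card = k ∧ e.2 ∉ e.1) (hRW : ∀ e ∈ R, w e.1 e.2 ≤ W)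
    (hGN : ∀ e ∈ R, N ≤ (G e).card)
    (hG : ∀ e ∈ R, ∀ g ∈ G e, g.1 ∈ e.1 ∧ g.2 ∉ e.1 ∧ g.2 ≠ e.2)
    (hP : ∀ e ∈ R, ∀ g ∈ G e, P e.1 g.2 ∧ P (insert g.2 (e.1.erase g.1)) g.1 ∧
      P (insert g.2 (e.1.erase g.1)) e.2 ∧ P (insert e.2 (e.1.erase g.1)) g.2 ∧
      P (insert e.2 (e.1.erase g.1)) g.1)
    (hu : ∀ v, v.card = k → (((univ.filter (fun x => (v, x) ∈ R)).card : ℕ) : ℝ) ≤ Du)
    (hd : ∀ y : Finset (Fin n), y.card = k + 1 →
      (((y.filter (fun x => (y.erase x, x) ∈ R)).card : ℕ) : ℝ) ≤ Dd)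
    (hlow : ∀ v x, v.card = k → x ∉ v → P v x →
      W / N * (k * Du + (n - k - 1) * Dd) ≤ w v x) :
    ∃ w' : Finset (Fin n) → Fin n → ℝ, NF n k w' ∧ (∀ e ∈ R, w' e.1 e.2 = 0) ∧
      (∀ v x, (v, x) ∉ R → ¬ P v x → w' v x = w v x) ∧
      (∀ v x, v.card = k → x ∉ v → (v, x) ∉ R →
        w v x - W / N * (k * Du + (n - k - 1) * Dd) ≤ w' v x) ∧
      (∀ v x, v.card = k → x ∉ v →
        w' v x ≤ w v x + W / N * (k * Du + (n - k - 1) * Dd + k * (n - k - 1))) := by
  classical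
  set c : (Finset (Fin n) × Fin n) × (Fin n × Fin n) → ℝ :=
    fun t => w t.1.1 t.1.2 / (G t.1).card with hc
  set T := quads R G with hT
  have hc0 : ∀ t ∈ T, 0 ≤ c t := by
    intro t ht
    have h1 := (mem_quads R G).1 ht
    exact div_nonneg (hw.nonneg _ _ (hR _ h1.1).1 (hR _ h1.1).2) (Nat.cast_nonneg _)
  have hcW : ∀ t ∈ T, c t ≤ W / N := by
    intro t ht
    have h1 := (mem_quads R G).1 ht
    exact div_le_div₀ hW (hRW _ h1.1) hN (hGN _ h1.1)
  have hWN : 0 ≤ W / N := div_nonneg hW hN.le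
  set w' : Finset (Fin n) → Fin n → ℝ := fun u z =>
    w u z + ∑ t ∈ T, c t * hex t.1.1 t.1.2 t.2.1 t.2.2 u z with hw'
  have hTR : ∀ t ∈ T, t.1.2 ∉ t.1.1 ∧ t.2.1 ∈ t.1.1 ∧ t.2.2 ∉ t.1.1 ∧ t.2.2 ≠ t.1.2 := by
    intro t ht
    have h1 := (mem_quads R G).1 ht
    exact ⟨(hR _ h1.1).2, hG _ h1.1 _ h1.2⟩
  have hzero : ∀ e ∈ R, w' e.1 e.2 = 0 := by
    rintro ⟨u, z⟩ he
    simp only [hw']
    have h1 : ∀ t ∈ T, c t * hex t.1.1 t.1.2 t.2.1 t.2.2 u z = - (c t * ind t.1.1 t.1.2 u z) := by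
      intro t ht
      have h1 := (mem_quads R G).1 ht
      obtain ⟨p1, p2, p3, p4, p5⟩ := hP _ h1.1 _ h1.2
      have aux : ∀ v x, P v x → ind v x u z = 0 := by
        intro v x h
        unfold ind
        rw [if_neg]
        rintro ⟨rfl, rfl⟩
        exact hPR _ _ h he
      unfold hex
      rw [aux _ _ p1, aux _ _ p2, aux _ _ p3, aux _ _ p4, aux _ _ p5]
      ring
    rw [sum_congr rfl h1, sum_neg_distrib, hT, sum_quads R G (fun t => c t * ind t.1.1 t.1.2 u z)]
    rw [Finset.sum_eq_single (u, z)]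
    · simp only [ind_self, mul_one, hc, sum_const, nsmul_eq_mul]
      have h2 : ((G (u, z)).card : ℝ) ≠ 0 := by
        have := hGN _ he
        intro h0
        rw [h0] at this
        linarith
      rw [mul_div_cancel₀ _ h2]
      ring
    · intro e _ hne
      apply Finset.sum_eq_zero
      intro g _
      unfold ind
      rw [if_neg, mul_zero]
      rintro ⟨rfl, rfl⟩
      exact hne rfl
    · intro h; exact absurd he h
  have hsame : ∀ v x, (v, x) ∉ R → ¬ P v x → w' v x = w v x := by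
    intro u z h1 h2
    simp only [hw']
    rw [Finset.sum_eq_zero, add_zero]
    intro t ht
    have h3 := (mem_quads R G).1 ht
    obtain ⟨p1, p2, p3, p4, p5⟩ := hP _ h3.1 _ h3.2
    have aux : ∀ v x, P v x → ind v x u z = 0 := by
      intro v x h
      unfold ind
      rw [if_neg]
      rintro ⟨rfl, rfl⟩
      exact h2 h
    have aux2 : ind t.1.1 t.1.2 u z = 0 := by
      unfold ind
      rw [if_neg]
      rintro ⟨rfl, rfl⟩
      exact h1 h3.1
    unfold hex
    rw [aux _ _ p1, aux _ _ p2, aux _ _ p3, aux _ _ p4, aux _ _ p5, aux2]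
    ring
  have hlo : ∀ v x, v.card = k → x ∉ v → (v, x) ∉ R →
        w v x - W / N * (k * Du + (n - k - 1) * Dd) ≤ w' v x := by
    intro u z hu1 hz hne
    have h1 : - (W / N * (k * Du + (n - k - 1) * Dd)) ≤
        ∑ t ∈ T, c t * hex t.1.1 t.1.2 t.2.1 t.2.2 u z := by
      calc - (W / N * (k * Du + (n - k - 1) * Dd)) = - (W / N * (k * Du)) - W / N * ((n - k - 1) * Dd) := by
            ring
        _ ≤ - (W / N * ∑ t ∈ T, ind (insert t.2.2 (t.1.1.erase t.2.1)) t.2.1 u z)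
            - W / N * ∑ t ∈ T, ind (insert t.1.2 (t.1.1.erase t.2.1)) t.2.2 u z := by
            rw [sum_ind_eq_card T (fun t => insert t.2.2 (t.1.1.erase t.2.1)) (fun t => t.2.1),
              sum_ind_eq_card T (fun t => insert t.1.2 (t.1.1.erase t.2.1)) (fun t => t.2.2)]
            have e1 := mul_le_mul_of_nonneg_left (count3 R G hR hG u z hu1 hu) hWN
            have e2 := mul_le_mul_of_nonneg_left (count5 R G hR hG hDd0 u z hu1 hz hd) hWN
            linarith
        _ = ∑ t ∈ T, (W / N * (- ind (insert t.2.2 (t.1.1.erase t.2.1)) t.2.1 u z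
            - ind (insert t.1.2 (t.1.1.erase t.2.1)) t.2.2 u z)) := by
            rw [← mul_sum, sum_sub_distrib, sum_neg_distrib]; ring
        _ ≤ ∑ t ∈ T, c t * hex t.1.1 t.1.2 t.2.1 t.2.2 u z := by
            apply sum_le_sum
            intro t ht
            have h3 := (mem_quads R G).1 ht
            have h4 := hex_ge t.1.1 t.1.2 t.2.1 t.2.2 u z (by
              rintro ⟨rfl, rfl⟩
              exact hne h3.1)
            have h5 : - ind (insert t.2.2 (t.1.1.erase t.2.1)) t.2.1 u z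
              - ind (insert t.1.2 (t.1.1.erase t.2.1)) t.2.2 u z ≤ 0 := by
              have := ind_nonneg (insert t.2.2 (t.1.1.erase t.2.1)) t.2.1 u z
              have := ind_nonneg (insert t.1.2 (t.1.1.erase t.2.1)) t.2.2 u z
              linarith
            calc _ ≤ c t * (- ind (insert t.2.2 (t.1.1.erase t.2.1)) t.2.1 u z
              - ind (insert t.1.2 (t.1.1.erase t.2.1)) t.2.2 u z) := by
                  exact mul_le_mul_of_nonpos_right (hcW t ht) h5
              _ ≤ _ := mul_le_mul_of_nonneg_left h4 (hc0 t ht)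
    simp only [hw']
    linarith
  have hhi : ∀ v x, v.card = k → x ∉ v →
        w' v x ≤ w v x + W / N * (k * Du + (n - k - 1) * Dd + k * (n - k - 1)) := by
    intro u z hu1 hz
    have h1 : ∑ t ∈ T, c t * hex t.1.1 t.1.2 t.2.1 t.2.2 u z ≤
        W / N * (k * Du + (n - k - 1) * Dd + k * (n - k - 1)) := by
      calc ∑ t ∈ T, c t * hex t.1.1 t.1.2 t.2.1 t.2.2 u z
          ≤ ∑ t ∈ T, (W / N * (ind t.1.1 t.2.2 u z + ind (insert t.2.2 (t.1.1.erase t.2.1)) t.1.2 u z
            + ind (insert t.1.2 (t.1.1.erase t.2.1)) t.2.1 u z)) := by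
            apply sum_le_sum
            intro t ht
            have h4 := hex_le t.1.1 t.1.2 t.2.1 t.2.2 u z
            have h5 : 0 ≤ ind t.1.1 t.2.2 u z + ind (insert t.2.2 (t.1.1.erase t.2.1)) t.1.2 u z
              + ind (insert t.1.2 (t.1.1.erase t.2.1)) t.2.1 u z := by
              have := ind_nonneg t.1.1 t.2.2 u z
              have := ind_nonneg (insert t.2.2 (t.1.1.erase t.2.1)) t.1.2 u z
              have := ind_nonneg (insert t.1.2 (t.1.1.erase t.2.1)) t.2.1 u z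
              linarith
            calc _ ≤ c t * _ := mul_le_mul_of_nonneg_left h4 (hc0 t ht)
              _ ≤ _ := mul_le_mul_of_nonneg_right (hcW t ht) h5
        _ = W / N * (∑ t ∈ T, ind t.1.1 t.2.2 u z +
            ∑ t ∈ T, ind (insert t.2.2 (t.1.1.erase t.2.1)) t.1.2 u z +
            ∑ t ∈ T, ind (insert t.1.2 (t.1.1.erase t.2.1)) t.2.1 u z) := by
            rw [← mul_sum, sum_add_distrib, sum_add_distrib]
        _ ≤ W / N * (k * Du + (n - k - 1) * Dd + k * (n - k - 1)) := by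
            apply mul_le_mul_of_nonneg_left _ hWN
            rw [sum_ind_eq_card T (fun t => t.1.1) (fun t => t.2.2),
              sum_ind_eq_card T (fun t => insert t.2.2 (t.1.1.erase t.2.1)) (fun t => t.1.2),
              sum_ind_eq_card T (fun t => insert t.1.2 (t.1.1.erase t.2.1)) (fun t => t.2.1)]
            have e1 := count2 R G hR hG u z hu1 hu
            have e2 := count4 R G hR hG u z hu1 hz
            have e3 := count6 R G hR hG hDd0 u z hu1 hz hd
            linarith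
    simp only [hw']
    linarith
  refine ⟨w', ⟨?_, ?_, ?_⟩, hzero, hsame, hlo, hhi⟩
  · intro v x hv hx
    by_cases h1 : (v, x) ∈ R
    · exact (hzero _ h1).ge
    · by_cases h2 : P v x
      · have := hlow v x hv hx h2
        have := hlo v x hv hx h1
        linarith
      · rw [hsame v x h1 h2]
        exact hw.nonneg v x hv hx
  · intro v hv
    simp only [hw']
    rw [sum_add_distrib, hw.row v hv, sum_comm, Finset.sum_eq_zero, add_zero]
    intro t ht
    obtain ⟨h1, h2, h3, h4⟩ := hTR t ht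
    rw [← mul_sum, hex_row _ _ _ _ h1 h2 h3 h4, mul_zero]
  · intro y hy
    simp only [hw']
    rw [sum_add_distrib, hw.col y hy, sum_comm, Finset.sum_eq_zero, add_zero]
    intro t ht
    obtain ⟨h1, h2, h3, h4⟩ := hTR t ht
    rw [← mul_sum, hex_col _ _ _ _ h1 h2 h3 h4, mul_zero]

end Pool.MP_0ccee8_co.Lib
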