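import Mathlib

/-!
# The linking lemma

Given a set `A` (bottom elements to be attached), a set `B` (current chain ends), a bijection `ζ` of
`B` (which records the identification of the lower ends with the upper ends) and two bipartite
relations `r`, `r'` between `A` and `B`, we look for an injection `u : A → B` and a permutation `τ` of
`A` with `r a (u a)` and `r' (τ a) (ζ (u a))`.
-/

set_option autoImplicit false

namespace Pool.MP_0ccee8_co.Lib

open Finset

/-- Linking lemma, Hall form. -/
theorem link_hall {A B : Type*} [Fintype A] [Fintype B] [DecidableEq A] [DecidableEq B]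
    (r r' : A → B → Prop) (ζ : B ≃ B)
    (h : ∀ Z P : Finset A, ∃ X : Finset B,
      (∀ b ∈ X, (∃ a ∈ Z, r a b) ∧ (∃ a, a ∉ P ∧ r' a (ζ b))) ∧ Z.card ≤ P.card + X.card) :
    ∃ (u : A → B) (τ : A ≃ A), Function.Injective u ∧ ∀ a, r a (u a) ∧ r' (τ a) (ζ (u a)) := by
  classical
  -- the bipartite graph
  let t : A ⊕ B → Finset (A ⊕ B) := fun x =>
    Sum.elim (fun a => univ.filter (fun y => ∃ b, y = Sum.inr b ∧ r a b))
      (fun b => univ.filter (fun y => y = Sum.inr b ∨ ∃ a, y = Sum.inl a ∧ r' a (ζ b))) x
  have hall : ∀ s : Finset (A ⊕ B), s.card ≤ (s.biUnion t).card := by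
    intro s
    let Z : Finset A := univ.filter (fun a => Sum.inl a ∈ s)
    let Y : Finset B := univ.filter (fun b => Sum.inr b ∈ s)
    let P : Finset A := univ.filter (fun a => ∃ b ∈ Y, r' a (ζ b))
    obtain ⟨X, hX, hc⟩ := h Z P
    have hs : s = Z.map Function.Embedding.inl ∪ Y.map Function.Embedding.inr := by
      ext x
      rcases x with a | b
      · simp [Z, Y]
      · simp [Z, Y]
    have hscard : s.card = Z.card + Y.card := by
      rw [hs, card_union_of_disjoint]
      · simp
      · rw [disjoint_left]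
        intro x hx hx'
        simp only [mem_map, Function.Embedding.inl_apply, Function.Embedding.inr_apply] at hx hx'
        obtain ⟨a, _, rfl⟩ := hx
        obtain ⟨b, _, hb⟩ := hx'
        cases hb
    have hXY : Disjoint X Y := by
      rw [disjoint_left]
      intro b hb hbY
      obtain ⟨_, a, haP, har⟩ := hX b hb
      apply haP
      simp only [P, mem_filter, mem_univ, true_and]
      exact ⟨b, hbY, har⟩
    have hsub : (X ∪ Y).map Function.Embedding.inr ∪ P.map Function.Embedding.inl ⊆ s.biUnion t := by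
      intro y hy
      rw [mem_union, mem_map, mem_map] at hy
      rw [mem_biUnion]
      rcases hy with ⟨b, hb, rfl⟩ | ⟨a, ha, rfl⟩
      · rw [mem_union] at hb
        rcases hb with hb | hb
        · obtain ⟨⟨a, haZ, hra⟩, _⟩ := hX b hb
          refine ⟨Sum.inl a, ?_, ?_⟩
          · simpa [Z] using haZ
          · simp [t, hra]
        · refine ⟨Sum.inr b, ?_, ?_⟩
          · simpa [Y] using hb
          · simp [t]
      · simp only [P, mem_filter, mem_univ, true_and] at ha
        obtain ⟨b, hbY, hr⟩ := ha
        refine ⟨Sum.inr b, ?_, ?_⟩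
        · simpa [Y] using hbY
        · simp [t, hr]
    have hcard : ((X ∪ Y).map Function.Embedding.inr ∪ P.map (Function.Embedding.inl : A ↪ A ⊕ B)).card
        = X.card + Y.card + P.card := by
      rw [card_union_of_disjoint, card_map, card_map, card_union_of_disjoint hXY]
      rw [disjoint_left]
      intro x hx hx'
      simp only [mem_map, Function.Embedding.inl_apply, Function.Embedding.inr_apply] at hx hx'
      obtain ⟨a, _, rfl⟩ := hx
      obtain ⟨b, _, hb⟩ := hx'
      cases hb
    have := card_le_card hsub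
    rw [hcard] at this
    rw [hscard]
    omega
  obtain ⟨f, hf, hft⟩ := (Finset.all_card_le_biUnion_card_iff_exists_injective t).1 hall
  have hfb : Function.Bijective f := Finite.injective_iff_bijective.1 hf
  have h1 : ∀ a, ∃ b, f (Sum.inl a) = Sum.inr b ∧ r a b := by
    intro a
    have := hft (Sum.inl a)
    simpa [t] using this
  choose u hu hru using h1
  have huinj : Function.Injective u := by
    intro a a' h
    have : f (Sum.inl a) = f (Sum.inl a') := by rw [hu, hu, h]
    exact Sum.inl_injective (hf this)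
  have h2 : ∀ a, ∃ a', f (Sum.inr (u a)) = Sum.inl a' ∧ r' a' (ζ (u a)) := by
    intro a
    have := hft (Sum.inr (u a))
    simp only [t, Sum.elim_inr, mem_filter, mem_univ, true_and] at this
    rcases this with h | h
    · exfalso
      exact Sum.inr_ne_inl (hf (h.trans (hu a).symm))
    · obtain ⟨a', h, h'⟩ := h
      exact ⟨a', h, h'⟩
  choose τ hτ hrτ using h2
  have hτinj : Function.Injective τ := by
    intro a a' h
    have : f (Sum.inr (u a)) = f (Sum.inr (u a')) := by rw [hτ, hτ, h]
    exact huinj (Sum.inr_injective (hf this))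
  refine ⟨u, Equiv.ofBijective τ (Finite.injective_iff_bijective.1 hτinj), huinj, ?_⟩
  intro a
  exact ⟨hru a, by simpa using hrτ a⟩

/-- Linking lemma, fractional form. -/
theorem link_frac {A B : Type*} [Fintype A] [Fintype B] [DecidableEq A] [DecidableEq B]
    (w w' : A → B → ℝ) (ζ : B ≃ B) (p q : ℝ) (hq : 0 < q) (hqp : q ≤ p)
    (hw0 : ∀ a b, 0 ≤ w a b) (hw0' : ∀ a b, 0 ≤ w' a b)
    (hrow : ∀ a, ∑ b, w a b = p) (hcol : ∀ b, ∑ a, w a b = q)
    (hrow' : ∀ a, ∑ b, w' a b = p) (hcol' : ∀ b, ∑ a, w' a b = q) :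
    ∃ (u : A → B) (τ : A ≃ A), Function.Injective u ∧
      ∀ a, 0 < w a (u a) ∧ 0 < w' (τ a) (ζ (u a)) := by
  classical
  apply link_hall (fun a b => 0 < w a b) (fun a b => 0 < w' a b) ζ
  intro Z P
  let NZ : Finset B := univ.filter (fun b => ∃ a ∈ Z, 0 < w a b)
  let X : Finset B := NZ.filter (fun b => ∃ a, a ∉ P ∧ 0 < w' a (ζ b))
  refine ⟨X, ?_, ?_⟩
  · intro b hb
    simp only [X, NZ, mem_filter, mem_univ, true_and] at hb
    exact hb
  · have e1 : (Z.card : ℝ) * p = ∑ b ∈ NZ, ∑ a ∈ Z, w a b := by
      calc (Z.card : ℝ) * p = ∑ a ∈ Z, ∑ b, w a b := by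
            rw [Finset.sum_congr rfl (fun a _ => hrow a)]; simp
        _ = ∑ b, ∑ a ∈ Z, w a b := Finset.sum_comm
        _ = ∑ b ∈ NZ, ∑ a ∈ Z, w a b := by
            symm
            apply Finset.sum_subset (subset_univ _)
            intro b _ hb
            simp only [NZ, mem_filter, mem_univ, true_and, not_exists, not_and, not_lt] at hb
            apply Finset.sum_eq_zero
            intro a ha
            exact le_antisymm (hb a ha) (hw0 a b)
    have e2 : ∀ b, ∑ a ∈ Z, w a b ≤ q := by
      intro b
      rw [← hcol b]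
      exact Finset.sum_le_sum_of_subset_of_nonneg (subset_univ _) (fun a _ _ => hw0 a b)
    have e3 : ∑ b ∈ NZ, ∑ a ∈ Z, w a b ≤ NZ.card * q := by
      calc ∑ b ∈ NZ, ∑ a ∈ Z, w a b ≤ ∑ b ∈ NZ, q := Finset.sum_le_sum (fun b _ => e2 b)
        _ = NZ.card * q := by simp
    have e4 : ((NZ \ X).card : ℝ) * q ≤ P.card * p := by
      calc ((NZ \ X).card : ℝ) * q = ∑ b ∈ NZ \ X, ∑ a, w' a (ζ b) := by
            rw [Finset.sum_congr rfl (fun b _ => hcol' (ζ b))]; simp
        _ = ∑ b ∈ NZ \ X, ∑ a ∈ P, w' a (ζ b) := by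
            apply Finset.sum_congr rfl
            intro b hb
            symm
            apply Finset.sum_subset (subset_univ _)
            intro a _ ha
            simp only [X, mem_sdiff, mem_filter, not_and, not_exists, not_lt] at hb
            exact le_antisymm (hb.2 hb.1 a ha) (hw0' a _)
        _ ≤ ∑ b, ∑ a ∈ P, w' a (ζ b) :=
            Finset.sum_le_sum_of_subset_of_nonneg (subset_univ _)
              (fun b _ _ => Finset.sum_nonneg (fun a _ => hw0' a _))
        _ = ∑ a ∈ P, ∑ b, w' a (ζ b) := Finset.sum_comm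
        _ = ∑ a ∈ P, ∑ b, w' a b := by
            apply Finset.sum_congr rfl
            intro a _
            exact Equiv.sum_comp ζ (fun b => w' a b)
        _ = P.card * p := by
            rw [Finset.sum_congr rfl (fun a _ => hrow' a)]; simp
    have e5 : (NZ.card : ℝ) = X.card + (NZ \ X).card := by
      have : X ⊆ NZ := filter_subset _ _
      have h := Finset.card_sdiff_add_card_eq_card this
      have h' : (((NZ \ X).card + X.card : ℕ) : ℝ) = NZ.card := by rw [h]
      push_cast at h'
      linarith
    have hp : 0 < p := lt_of_lt_of_le hq hqp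
    have e6 : (Z.card : ℝ) * p ≤ (P.card + X.card) * p := by
      calc (Z.card : ℝ) * p ≤ NZ.card * q := by rw [e1]; exact e3
        _ = X.card * q + (NZ \ X).card * q := by rw [e5]; ring
        _ ≤ X.card * p + P.card * p := by
            have : (X.card : ℝ) * q ≤ X.card * p :=
              mul_le_mul_of_nonneg_left hqp (Nat.cast_nonneg _)
            linarith
        _ = (P.card + X.card) * p := by ring
    have e7 : (Z.card : ℝ) ≤ P.card + X.card := le_of_mul_le_mul_right e6 hp
    exact_mod_cast e7

/-- Perfect matchings from regular weights. -/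
theorem match_frac {A B : Type*} [Fintype A] [Fintype B] [DecidableEq A] [DecidableEq B]
    (w : A → B → ℝ) (p : ℝ) (hp : 0 < p) (hw0 : ∀ a b, 0 ≤ w a b)
    (hrow : ∀ a, ∑ b, w a b = p) (hcol : ∀ b, ∑ a, w a b = p) :
    ∃ u : A ≃ B, ∀ a, 0 < w a (u a) := by
  classical
  have hcard : Fintype.card A = Fintype.card B := by
    have h1 : ∑ a : A, ∑ b : B, w a b = Fintype.card A * p := by
      rw [Finset.sum_congr rfl (fun a _ => hrow a)]; simp
    have h2 : ∑ b : B, ∑ a : A, w a b = Fintype.card B * p := by
      rw [Finset.sum_congr rfl (fun b _ => hcol b)]; simp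
    rw [Finset.sum_comm] at h1
    have h3 : (Fintype.card A : ℝ) * p = Fintype.card B * p := by rw [← h1, ← h2]
    have h4 := mul_right_cancel₀ hp.ne' h3
    exact_mod_cast h4
  let t : A → Finset B := fun a => univ.filter (fun b => 0 < w a b)
  have hall : ∀ s : Finset A, s.card ≤ (s.biUnion t).card := by
    intro Z
    let NZ : Finset B := Z.biUnion t
    have e1 : (Z.card : ℝ) * p = ∑ b ∈ NZ, ∑ a ∈ Z, w a b := by
      calc (Z.card : ℝ) * p = ∑ a ∈ Z, ∑ b, w a b := by
            rw [Finset.sum_congr rfl (fun a _ => hrow a)]; simp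
        _ = ∑ b, ∑ a ∈ Z, w a b := Finset.sum_comm
        _ = ∑ b ∈ NZ, ∑ a ∈ Z, w a b := by
            symm
            apply Finset.sum_subset (subset_univ _)
            intro b _ hb
            simp only [NZ, t, mem_biUnion, mem_filter, mem_univ, true_and, not_exists, not_and,
              not_lt] at hb
            apply Finset.sum_eq_zero
            intro a ha
            exact le_antisymm (hb a ha) (hw0 a b)
    have e2 : ∀ b, ∑ a ∈ Z, w a b ≤ p := by
      intro b
      rw [← hcol b]
      exact Finset.sum_le_sum_of_subset_of_nonneg (subset_univ _) (fun a _ _ => hw0 a b)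
    have e3 : ∑ b ∈ NZ, ∑ a ∈ Z, w a b ≤ NZ.card * p := by
      calc ∑ b ∈ NZ, ∑ a ∈ Z, w a b ≤ ∑ b ∈ NZ, p := Finset.sum_le_sum (fun b _ => e2 b)
        _ = NZ.card * p := by simp
    have e4 : (Z.card : ℝ) ≤ NZ.card := le_of_mul_le_mul_right (by rw [e1]; exact e3) hp
    exact_mod_cast e4
  obtain ⟨f, hf, hft⟩ := (Finset.all_card_le_biUnion_card_iff_exists_injective t).1 hall
  have hfb : Function.Bijective f := (Fintype.bijective_iff_injective_and_card f).2 ⟨hf, hcard⟩
  refine ⟨Equiv.ofBijective f hfb, ?_⟩
  intro a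
  have := hft a
  simpa [t] using this

end Pool.MP_0ccee8_co.Lib
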