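import Mathlib
import Pool.Agent.Lib.MP_0ccee8_co.Link
import Pool.Agent.Lib.MP_0ccee8_co.Chains
import Pool.Agent.Lib.MP_0ccee8_co.Flow

/-!
# From flows to one family of symmetric chains
-/

set_option autoImplicit false

namespace Pool.MP_0ccee8_co.Lib

open Finset

variable {n : ℕ}

/-- The weight matrix between two consecutive levels coming from a flow. -/
noncomputable def wt (n k : ℕ) (w : Finset (Fin n) → Fin n → ℝ) (a : Lev n k) (b : Lev n (k + 1)) :
    ℝ :=
  ∑ x : Fin n, if x ∉ a.1 ∧ insert x a.1 = b.1 then w a.1 x else 0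

theorem wt_nonneg {k : ℕ} {w : Finset (Fin n) → Fin n → ℝ} (hw : NF n k w) (a : Lev n k)
    (b : Lev n (k + 1)) : 0 ≤ wt n k w a b := by
  unfold wt
  apply Finset.sum_nonneg
  intro x _
  split_ifs with h
  · exact hw.nonneg _ _ a.2 h.1
  · exact le_rfl

theorem wt_pos {k : ℕ} {w : Finset (Fin n) → Fin n → ℝ} (a : Lev n k)
    (b : Lev n (k + 1)) (h : 0 < wt n k w a b) :
    ∃ x, x ∉ a.1 ∧ insert x a.1 = b.1 ∧ 0 < w a.1 x := by
  by_contra hcon
  push Not at hcon
  apply absurd h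
  rw [not_lt]
  unfold wt
  apply Finset.sum_nonpos
  intro x _
  split_ifs with h
  · exact hcon x h.1 h.2
  · exact le_rfl

theorem wt_row {k : ℕ} {w : Finset (Fin n) → Fin n → ℝ} (hw : NF n k w) (a : Lev n k) :
    ∑ b, wt n k w a b = (n : ℝ) - k := by
  classical
  unfold wt
  rw [sum_comm, ← hw.row a.1 a.2]
  have : ∀ x : Fin n, ∑ b : Lev n (k + 1), (if x ∉ a.1 ∧ insert x a.1 = b.1 then w a.1 x else 0)
      = if x ∈ (a.1)ᶜ then w a.1 x else 0 := by
    intro x
    by_cases hx : x ∈ a.1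
    · simp [hx]
    · rw [if_pos (by simpa using hx)]
      have hc : (insert x a.1).card = k + 1 := by rw [card_insert_of_notMem hx, a.2]
      rw [Finset.sum_eq_single (⟨insert x a.1, hc⟩ : Lev n (k + 1))]
      · simp [hx]
      · intro b _ hb
        rw [if_neg]
        rintro ⟨_, h⟩
        exact hb (Subtype.ext h.symm)
      · intro h; exact absurd (mem_univ _) h
  rw [sum_congr rfl (fun x _ => this x), ← sum_filter]
  apply sum_congr
  · ext x; simp
  · intro _ _; rfl

theorem wt_col {k : ℕ} {w : Finset (Fin n) → Fin n → ℝ} (hw : NF n k w) (b : Lev n (k + 1)) :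
    ∑ a, wt n k w a b = (k : ℝ) + 1 := by
  classical
  unfold wt
  rw [sum_comm, ← hw.col b.1 b.2]
  have : ∀ x : Fin n, ∑ a : Lev n k, (if x ∉ a.1 ∧ insert x a.1 = b.1 then w a.1 x else 0)
      = if x ∈ b.1 then w (b.1.erase x) x else 0 := by
    intro x
    by_cases hx : x ∈ b.1
    · rw [if_pos hx]
      have hc : (b.1.erase x).card = k := by rw [card_erase_of_mem hx, b.2]; rfl
      rw [Finset.sum_eq_single (⟨b.1.erase x, hc⟩ : Lev n k)]
      · simp [insert_erase hx]
      · intro a _ ha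
        rw [if_neg]
        rintro ⟨h1, h⟩
        apply ha
        apply Subtype.ext
        simp only
        rw [← h, erase_insert h1]
      · intro h; exact absurd (mem_univ _) h
    · rw [if_neg hx]
      apply Finset.sum_eq_zero
      intro a _
      rw [if_neg]
      rintro ⟨h1, h⟩
      apply hx
      rw [← h]; simp
  rw [sum_congr rfl (fun x _ => this x), ← sum_filter]
  apply sum_congr
  · ext x; simp
  · intro _ _; rfl

theorem flow_link {k : ℕ} (hk : 2 * (k + 1) ≤ n + 1) {w w' : Finset (Fin n) → Fin n → ℝ}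
    (hw : NF n k w) (hw' : NF n k w') (ζ : Lev n (k + 1) ≃ Lev n (k + 1)) :
    ∃ (u : Lev n k → Lev n (k + 1)) (τ : Lev n k ≃ Lev n k), Function.Injective u ∧
      ∀ a, (∃ x, x ∉ a.1 ∧ insert x a.1 = (u a).1 ∧ 0 < w a.1 x) ∧
        (∃ x, x ∉ (τ a).1 ∧ insert x (τ a).1 = (ζ (u a)).1 ∧ 0 < w' (τ a).1 x) := by
  classical
  have hle : ((k : ℝ) + 1) ≤ (n : ℝ) - k := by
    have : ((2 * (k + 1) : ℕ) : ℝ) ≤ ((n + 1 : ℕ) : ℝ) := by exact_mod_cast hk
    push_cast at this
    linarith
  obtain ⟨u, τ, h1, h2⟩ := link_frac (wt n k w) (wt n k w') ζ ((n : ℝ) - k) ((k : ℝ) + 1)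
    (by positivity) hle (wt_nonneg hw) (wt_nonneg hw') (wt_row hw) (wt_col hw) (wt_row hw')
    (wt_col hw')
  exact ⟨u, τ, h1, fun a => ⟨wt_pos _ _ (h2 a).1, wt_pos _ _ (h2 a).2⟩⟩

/-- If no edge forbidden by `Forb` is essential, there is a family of symmetric chains partitioning
the levels `k₁, …, n - k₁` and avoiding the forbidden edges. -/
theorem inner {k₁ : ℕ} (hk1 : 2 * k₁ ≤ n) (Forb : Finset (Fin n) → Finset (Fin n) → Prop)
    (hlow : ∀ k, k₁ ≤ k → 2 * (k + 1) ≤ n + 1 → ∃ w, NF n k w ∧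
      ∀ v x, v.card = k → x ∉ v → Forb v (insert x v) → w v x = 0)
    (hup : ∀ k, k₁ ≤ k → 2 * (k + 1) ≤ n → ∃ w, NF n k w ∧
      ∀ v x, v.card = k → x ∉ v → Forb (insert x v)ᶜ vᶜ → w v x = 0) :
    ∃ C : Set (List (Finset (Fin n))), Good n k₁ C ∧ ∀ S T, Edge C S T → ¬ Forb S T := by
  classical
  set m := n / 2 with hm
  -- base
  have hbase : ∃ C : Set (List (Finset (Fin n))), Good n m C ∧ ∀ S T, Edge C S T → ¬ Forb S T := by
    rcases Nat.even_or_odd' n with ⟨m', h | h⟩
    · have hmm : m' = m := by omega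
      subst hmm
      obtain ⟨C, hC, hE⟩ := good_even h
      exact ⟨C, hC, fun S T hST => absurd hST (hE S T)⟩
    · have hmm : m' = m := by omega
      rw [hmm] at h
      obtain ⟨w, hw, hw0⟩ := hlow m (by omega) (by omega)
      have hnm : (n : ℝ) - m = (m : ℝ) + 1 := by
        have : (n : ℝ) = ((2 * m + 1 : ℕ) : ℝ) := by exact_mod_cast h
        push_cast at this
        linarith
      obtain ⟨f, hf⟩ := match_frac (wt n m w) ((m : ℝ) + 1) (by positivity) (wt_nonneg hw)
        (fun a => by rw [wt_row hw a, hnm]) (wt_col hw)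
      have hf' : ∀ a, ∃ x, x ∉ a.1 ∧ insert x a.1 = (f a).1 ∧ 0 < w a.1 x :=
        fun a => wt_pos _ _ (hf a)
      obtain ⟨C, hC, hE⟩ := good_odd h f (fun a => by
        obtain ⟨x, _, hx, _⟩ := hf' a
        rw [← hx]; exact subset_insert _ _)
      refine ⟨C, hC, ?_⟩
      intro S T hST hF
      obtain ⟨a, rfl, rfl⟩ := hE S T hST
      obtain ⟨x, hxa, hx, hpos⟩ := hf' a
      rw [← hx] at hF
      have := hw0 a.1 x a.2 hxa hF
      linarith
  -- downward induction
  have hstep : ∀ d k, k + d = m → k₁ ≤ k → ∃ C : Set (List (Finset (Fin n))),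
      Good n k C ∧ ∀ S T, Edge C S T → ¬ Forb S T := by
    intro d
    induction d with
    | zero =>
      intro k hk _
      have : k = m := by omega
      rw [this]
      exact hbase
    | succ d ih =>
      intro k hk hk1'
      obtain ⟨C, hC, hE⟩ := ih (k + 1) (by omega) (by omega)
      have hkn : 2 * (k + 1) ≤ n := by omega
      obtain ⟨w, hw, hw0⟩ := hlow k hk1' (by omega)
      obtain ⟨w', hw', hw0'⟩ := hup k hk1' hkn
      obtain ⟨ζ, hζ⟩ := hC.linkEquiv hkn
      obtain ⟨u, τ, hu, huτ⟩ := flow_link (by omega) hw hw' ζ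
      obtain ⟨C', hC', hE'⟩ := hC.extend hkn ζ hζ u τ hu
        (fun a => by
          obtain ⟨⟨x, _, hx, _⟩, _⟩ := huτ a
          rw [← hx]; exact subset_insert _ _)
        (fun a => by
          obtain ⟨_, ⟨x, _, hx, _⟩⟩ := huτ a
          rw [← hx]; exact subset_insert _ _)
      refine ⟨C', hC', ?_⟩
      intro S T hST hF
      rcases hE' S T hST with h | ⟨a, rfl, rfl⟩ | ⟨a, rfl, rfl⟩
      · exact hE S T h hF
      · obtain ⟨⟨x, hxa, hx, hpos⟩, _⟩ := huτ a
        rw [← hx] at hF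
        have := hw0 a.1 x a.2 hxa hF
        linarith
      · obtain ⟨_, ⟨x, hxa, hx, hpos⟩⟩ := huτ a
        rw [← hx] at hF
        have := hw0' (τ a).1 x (τ a).2 hxa hF
        linarith
  exact hstep (m - k₁) k₁ (by omega) le_rfl

end Pool.MP_0ccee8_co.Lib
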