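import Mathlib
import Pool.Agent.Lib.MP_0ccee8_co.Inner

/-!
# Building several edge-disjoint families one after the other
-/

set_option autoImplicit false

namespace Pool.MP_0ccee8_co.Lib

open Finset

variable {n : ℕ}

/-- The property needed at a level: there are reserved edge classes `H 0, …, H (K - 1)` such that for
every class `j` and every set `D` of edges of small degrees disjoint from the class `j`, there is a
flow avoiding `D` and the other classes. -/
def ML (n k K : ℕ) : Prop :=
  ∃ H : Fin K → Finset (Fin n) → Fin n → Prop, ∀ j : Fin K, ∀ D : Finset (Finset (Fin n) × Fin n),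
    (∀ e ∈ D, e.1.card = k ∧ e.2 ∉ e.1 ∧ ¬ H j e.1 e.2) →
    (∀ v : Finset (Fin n), (univ.filter (fun x => (v, x) ∈ D)).card ≤ K) →
    (∀ y : Finset (Fin n), (y.filter (fun x => (y.erase x, x) ∈ D)).card ≤ K) →
    ∃ w, NF n k w ∧ (∀ e ∈ D, w e.1 e.2 = 0) ∧
      (∀ v x, v.card = k → x ∉ v → ∀ j', j' ≠ j → H j' v x → w v x = 0)

theorem card_le_of_cover {α : Type*} {K : ℕ} (S : Finset α) (p : Fin K → α → Prop)
    (h1 : ∀ i, ∀ x ∈ S, ∀ y ∈ S, p i x → p i y → x = y) (h2 : ∀ x ∈ S, ∃ i, p i x) :
    S.card ≤ K := by
  classical
  rcases S.eq_empty_or_nonempty with h | ⟨x0, hx0⟩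
  · simp [h]
  · obtain ⟨i0, _⟩ := h2 x0 hx0
    have h2' : ∀ x, ∃ i, x ∈ S → p i x := by
      intro x
      by_cases hx : x ∈ S
      · obtain ⟨i, hi⟩ := h2 x hx
        exact ⟨i, fun _ => hi⟩
      · exact ⟨i0, fun h => absurd h hx⟩
    choose f hf using h2'
    have := Finset.card_le_card_of_injOn (s := S) (t := (univ : Finset (Fin K))) f
      (fun _ _ => by simp) (by
        intro x hx y hy hxy
        exact h1 (f x) x hx y hy (hf x hx) (by rw [hxy]; exact hf y hy))
    simpa using this

theorem insert_inj_of_notMem {v : Finset (Fin n)} {x y : Fin n} (hx : x ∉ v) (_hy : y ∉ v)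
    (h : insert x v = insert y v) : x = y := by
  have : x ∈ insert y v := h ▸ mem_insert_self x v
  rcases mem_insert.1 this with h | h
  · exact h
  · exact absurd h hx

theorem erase_inj_of_mem {v : Finset (Fin n)} {x y : Fin n} (_hx : x ∈ v) (hy : y ∈ v)
    (h : v.erase x = v.erase y) : x = y := by
  by_contra hne
  have h1 : y ∈ v.erase x := mem_erase.2 ⟨fun h => hne h.symm, hy⟩
  rw [h] at h1
  simp at h1

/-- Sequential construction. -/
theorem sequential {k₁ K : ℕ} (hk1 : 2 * k₁ ≤ n)
    (hML : ∀ k, k₁ ≤ k → 2 * (k + 1) ≤ n + 1 → ML n k K) :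
    ∃ C : Fin K → Set (List (Finset (Fin n))), (∀ i, Good n k₁ (C i)) ∧
      ∀ i i', i ≠ i' → ∀ S T, Edge (C i) S T → ¬ Edge (C i') S T := by
  classical
  unfold ML at hML
  choose! H hH using hML
  let Res : Fin K → Finset (Fin n) → Finset (Fin n) → Prop := fun i' S T =>
    ∃ k, k₁ ≤ k ∧ ((2 * (k + 1) ≤ n + 1 ∧ S.card = k ∧ ∃ x, x ∉ S ∧ T = insert x S ∧ H k i' S x) ∨
      (2 * (k + 1) ≤ n ∧ T.card = n - k ∧ ∃ x, x ∉ Tᶜ ∧ Sᶜ = insert x Tᶜ ∧ H k i' Tᶜ x))
  -- lower and upper reserved edges
  have hReslow : ∀ i' k v x, k₁ ≤ k → 2 * (k + 1) ≤ n + 1 → v.card = k → x ∉ v →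
      (Res i' v (insert x v) ↔ H k i' v x) := by
    intro i' k v x hk hkn hv hx
    constructor
    · rintro ⟨k', hk', ⟨h1, h2, x', hx', h3, h4⟩ | ⟨h1, h2, _⟩⟩
      · have : k' = k := by omega
        subst this
        have : x = x' := insert_inj_of_notMem hx hx' h3
        subst this
        exact h4
      · rw [card_insert_of_notMem hx] at h2
        omega
    · intro h
      exact ⟨k, hk, Or.inl ⟨hkn, hv, x, hx, rfl, h⟩⟩
  have hResup : ∀ i' k v x, k₁ ≤ k → 2 * (k + 1) ≤ n → v.card = k → x ∉ v →
      (Res i' (insert x v)ᶜ vᶜ ↔ H k i' v x) := by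
    intro i' k v x hk hkn hv hx
    have hc1 : (vᶜ).card = n - k := by rw [card_compl, Fintype.card_fin, hv]
    have hc2 : ((insert x v)ᶜ).card = n - (k + 1) := by
      rw [card_compl, Fintype.card_fin, card_insert_of_notMem hx, hv]
    constructor
    · rintro ⟨k', hk', ⟨h1, h2, _⟩ | ⟨h1, h2, x', hx', h3, h4⟩⟩
      · rw [hc2] at h2
        omega
      · rw [hc1] at h2
        have : k' = k := by omega
        subst this
        rw [compl_compl] at hx' h4
        rw [compl_compl, compl_compl] at h3
        have : x = x' := insert_inj_of_notMem hx hx' h3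
        subst this
        exact h4
    · intro h
      refine ⟨k, hk, Or.inr ⟨hkn, hc1, x, by simpa using hx, ?_, ?_⟩⟩
      · rw [compl_compl, compl_compl]
      · rw [compl_compl]; exact h
  have hmain : ∀ j, j ≤ K → ∃ C : Fin K → Set (List (Finset (Fin n))),
      (∀ i : Fin K, i.1 < j → Good n k₁ (C i) ∧
        ∀ S T, Edge (C i) S T → ∀ i', i' ≠ i → ¬ Res i' S T) ∧
      (∀ i i' : Fin K, i.1 < j → i'.1 < j → i ≠ i' → ∀ S T, Edge (C i) S T → ¬ Edge (C i') S T) := by
    intro j
    induction j with
    | zero =>
      intro _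
      exact ⟨fun _ => ∅, fun i hi => absurd hi (Nat.not_lt_zero _),
        fun i i' hi => absurd hi (Nat.not_lt_zero _)⟩
    | succ j ih =>
      intro hj
      obtain ⟨C, hC, hCC⟩ := ih (by omega)
      let jj : Fin K := ⟨j, by omega⟩
      have hin : ∃ Cj : Set (List (Finset (Fin n))), Good n k₁ Cj ∧ ∀ S T, Edge Cj S T →
          ¬ ((∃ i', i' ≠ jj ∧ Res i' S T) ∨ (∃ i : Fin K, i.1 < j ∧ Edge (C i) S T)) := by
        apply inner hk1
        · -- lower flows
          intro k hk hkn
          let D : Finset (Finset (Fin n) × Fin n) := univ.filter (fun e => e.1.card = k ∧ e.2 ∉ e.1 ∧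
            ∃ i : Fin K, i.1 < j ∧ Edge (C i) e.1 (insert e.2 e.1))
          have h3 := hH k hk hkn jj D ?_ ?_ ?_
          · obtain ⟨w, hw, hwD, hwH⟩ := h3
            refine ⟨w, hw, ?_⟩
            intro v x hv hx hF
            rcases hF with ⟨i', hi', hR⟩ | ⟨i, hi, hE⟩
            · exact hwH v x hv hx i' hi' ((hReslow i' k v x hk hkn hv hx).1 hR)
            · exact hwD (v, x) (by simp only [D, mem_filter, mem_univ, true_and]; exact ⟨hv, hx, i, hi, hE⟩)
          · intro e he
            simp only [D, mem_filter, mem_univ, true_and] at he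
            obtain ⟨h1, h2, i, hi, hE⟩ := he
            refine ⟨h1, h2, ?_⟩
            intro hH'
            have hij : jj ≠ i := fun h => by
              rw [← h] at hi
              exact absurd hi (lt_irrefl _)
            exact (hC i hi).2 _ _ hE jj hij ((hReslow jj k _ _ hk hkn h1 h2).2 hH')
          · intro v
            apply card_le_of_cover _
              (fun (i : Fin K) x => i.1 < j ∧ x ∉ v ∧ Edge (C i) v (insert x v))
            · rintro i x _ y _ ⟨hi, hx, h1⟩ ⟨_, hy, h2⟩
              exact insert_inj_of_notMem hx hy ((hC i hi).1.edge_up_unique h1 h2)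
            · intro x hx
              simp only [D, mem_filter, mem_univ, true_and] at hx
              obtain ⟨h1, h2, i, hi, hE⟩ := hx
              exact ⟨i, hi, h2, hE⟩
          · intro y
            apply card_le_of_cover _
              (fun (i : Fin K) x => i.1 < j ∧ x ∈ y ∧ Edge (C i) (y.erase x) (insert x (y.erase x)))
            · rintro i x _ x' _ ⟨hi, hx, h1⟩ ⟨_, hx', h2⟩
              rw [insert_erase hx] at h1
              rw [insert_erase hx'] at h2
              exact erase_inj_of_mem hx hx' ((hC i hi).1.edge_down_unique h1 h2)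
            · intro x hx
              simp only [D, mem_filter, mem_univ, true_and] at hx
              obtain ⟨hxy, h1, h2, i, hi, hE⟩ := hx
              exact ⟨i, hi, hxy, hE⟩
        · -- upper flows
          intro k hk hkn
          let D : Finset (Finset (Fin n) × Fin n) := univ.filter (fun e => e.1.card = k ∧ e.2 ∉ e.1 ∧
            ∃ i : Fin K, i.1 < j ∧ Edge (C i) (insert e.2 e.1)ᶜ (e.1)ᶜ)
          have h3 := hH k hk (by omega) jj D ?_ ?_ ?_
          · obtain ⟨w, hw, hwD, hwH⟩ := h3
            refine ⟨w, hw, ?_⟩
            intro v x hv hx hF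
            rcases hF with ⟨i', hi', hR⟩ | ⟨i, hi, hE⟩
            · exact hwH v x hv hx i' hi' ((hResup i' k v x hk hkn hv hx).1 hR)
            · exact hwD (v, x) (by simp only [D, mem_filter, mem_univ, true_and]; exact ⟨hv, hx, i, hi, hE⟩)
          · intro e he
            simp only [D, mem_filter, mem_univ, true_and] at he
            obtain ⟨h1, h2, i, hi, hE⟩ := he
            refine ⟨h1, h2, ?_⟩
            intro hH'
            have hij : jj ≠ i := fun h => by
              rw [← h] at hi
              exact absurd hi (lt_irrefl _)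
            exact (hC i hi).2 _ _ hE jj hij ((hResup jj k _ _ hk hkn h1 h2).2 hH')
          · intro v
            apply card_le_of_cover _
              (fun (i : Fin K) x => i.1 < j ∧ x ∉ v ∧ Edge (C i) (insert x v)ᶜ vᶜ)
            · rintro i x _ y _ ⟨hi, hx, h1⟩ ⟨_, hy, h2⟩
              have := (hC i hi).1.edge_down_unique h1 h2
              rw [compl_inj_iff] at this
              exact insert_inj_of_notMem hx hy this
            · intro x hx
              simp only [D, mem_filter, mem_univ, true_and] at hx
              obtain ⟨h1, h2, i, hi, hE⟩ := hx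
              exact ⟨i, hi, h2, hE⟩
          · intro y
            apply card_le_of_cover _
              (fun (i : Fin K) x => i.1 < j ∧ x ∈ y ∧
                Edge (C i) (insert x (y.erase x))ᶜ (y.erase x)ᶜ)
            · rintro i x _ x' _ ⟨hi, hx, h1⟩ ⟨_, hx', h2⟩
              rw [insert_erase hx] at h1
              rw [insert_erase hx'] at h2
              have := (hC i hi).1.edge_up_unique h1 h2
              rw [compl_inj_iff] at this
              exact erase_inj_of_mem hx hx' this
            · intro x hx
              simp only [D, mem_filter, mem_univ, true_and] at hx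
              obtain ⟨hxy, h1, h2, i, hi, hE⟩ := hx
              exact ⟨i, hi, hxy, hE⟩
      obtain ⟨Cj, hCj, hEj⟩ := hin
      · refine ⟨Function.update C jj Cj, ?_, ?_⟩
        · intro i hi
          by_cases hij : i = jj
          · subst hij
            rw [Function.update_self]
            refine ⟨hCj, ?_⟩
            intro S T hST i' hi' hR
            exact hEj S T hST (Or.inl ⟨i', hi', hR⟩)
          · rw [Function.update_of_ne hij]
            have : i.1 < j := by
              have h1 : i.1 ≠ j := fun h => hij (Fin.ext h)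
              omega
            exact hC i this
        · intro i i' hi hi' hne S T h1 h2
          by_cases hij : i = jj
          · have hij' : i' ≠ jj := fun h => hne (hij.trans h.symm)
            subst hij
            rw [Function.update_self] at h1
            rw [Function.update_of_ne hij'] at h2
            have : i'.1 < j := by
              have h1 : i'.1 ≠ j := fun h => hij' (Fin.ext h)
              omega
            exact hEj S T h1 (Or.inr ⟨i', this, h2⟩)
          · rw [Function.update_of_ne hij] at h1
            have hi1 : i.1 < j := by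
              have h1 : i.1 ≠ j := fun h => hij (Fin.ext h)
              omega
            by_cases hij' : i' = jj
            · subst hij'
              rw [Function.update_self] at h2
              exact hEj S T h2 (Or.inr ⟨i, hi1, h1⟩)
            · rw [Function.update_of_ne hij'] at h2
              have hi2 : i'.1 < j := by
                have h1 : i'.1 ≠ j := fun h => hij' (Fin.ext h)
                omega
              exact hCC i i' hi1 hi2 hne S T h1 h2
  obtain ⟨C, hC, hCC⟩ := hmain K le_rfl
  exact ⟨C, fun i => (hC i i.2).1, fun i i' h S T => hCC i i' i.2 i'.2 h S T⟩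

end Pool.MP_0ccee8_co.Lib
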