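import Mathlib
import Pool.Agent.Lib.MP_0ccee8_co.Seq

/-!
# The deterministic conditions on the reserved classes which give the property `ML`
-/

set_option autoImplicit false

namespace Pool.MP_0ccee8_co.Lib

open Finset

variable {n : ℕ}

/-- The pairs `(a, b)` which give a hexagon through the edge `(v, x)`. -/
def Q (v : Finset (Fin n)) (x : Fin n) : Finset (Fin n × Fin n) := v ×ˢ (insert x v)ᶜ

theorem mem_Q {v : Finset (Fin n)} {x : Fin n} {g : Fin n × Fin n} :
    g ∈ Q v x ↔ g.1 ∈ v ∧ g.2 ≠ x ∧ g.2 ∉ v := by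
  unfold Q
  rw [mem_product, mem_compl, mem_insert, not_or]

theorem card_compl_insert {k : ℕ} {v : Finset (Fin n)} {x : Fin n} (hv : v.card = k) (hx : x ∉ v) :
    (((insert x v)ᶜ).card : ℝ) = (n : ℝ) - k - 1 := by
  rw [card_compl, Fintype.card_fin, card_insert_of_notMem hx, hv]
  have hle : k + 1 ≤ n := by
    have := card_le_univ (insert x v)
    rw [card_insert_of_notMem hx, hv, Fintype.card_fin] at this
    exact this
  rw [Nat.cast_sub hle]
  push_cast
  ring

theorem card_Q {k : ℕ} {v : Finset (Fin n)} {x : Fin n} (hv : v.card = k) (hx : x ∉ v) :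
    ((Q v x).card : ℝ) = k * ((n : ℝ) - k - 1) := by
  unfold Q
  rw [card_product, Nat.cast_mul, card_compl_insert hv hx, hv]

open Classical in
theorem cnt2 {k : ℕ} {v : Finset (Fin n)} {x : Fin n} (hv : v.card = k)
    (F : Finset (Fin n) → Fin n → Prop) (Du : ℝ)
    (hu : ∀ v : Finset (Fin n), v.card = k → (((univ.filter (fun x => x ∉ v ∧ F v x)).card : ℕ) : ℝ) ≤ Du) :
    ((((Q v x).filter (fun g => F v g.2)).card : ℕ) : ℝ) ≤ k * Du := by
  have := card_le_of_map ((Q v x).filter (fun g => F v g.2)) Prod.fst Prod.snd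
    (fun a _ b _ h1 h2 => Prod.ext h1 h2) v (fun _ => univ.filter (fun x => x ∉ v ∧ F v x))
    (fun g hg => (mem_Q.1 (mem_filter.1 hg).1).1)
    (fun g hg => by
      have h1 := mem_filter.1 hg
      simp only [mem_filter, mem_univ, true_and]
      exact ⟨(mem_Q.1 h1.1).2.2, h1.2⟩) Du (fun _ _ => hu v hv)
  rwa [hv] at this

open Classical in
theorem cnt3 {k : ℕ} {v : Finset (Fin n)} {x : Fin n} (hv : v.card = k) (hx : x ∉ v)
    (F : Finset (Fin n) → Fin n → Prop) (Dd : ℝ)
    (hd : ∀ y : Finset (Fin n), y.card = k + 1 →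
      (((y.filter (fun x => F (y.erase x) x)).card : ℕ) : ℝ) ≤ Dd) :
    ((((Q v x).filter (fun g => F (insert g.2 (v.erase g.1)) g.1)).card : ℕ) : ℝ) ≤
      ((n : ℝ) - k - 1) * Dd := by
  have := card_le_of_map ((Q v x).filter (fun g => F (insert g.2 (v.erase g.1)) g.1))
    Prod.snd Prod.fst
    (fun a _ b _ h1 h2 => Prod.ext h2 h1) ((insert x v)ᶜ)
    (fun b => (insert b v).filter (fun a => F ((insert b v).erase a) a))
    (fun g hg => by
      have h1 := mem_Q.1 (mem_filter.1 hg).1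
      simp [h1.2.1, h1.2.2])
    (fun g hg => by
      have h1 := mem_filter.1 hg
      have h2 := mem_Q.1 h1.1
      have hne : g.2 ≠ g.1 := fun h => h2.2.2 (h ▸ h2.1)
      simp only [mem_filter]
      refine ⟨mem_insert_of_mem h2.1, ?_⟩
      rw [erase_insert_of_ne hne]
      exact h1.2) Dd (fun b hb => hd _ (by
        simp only [mem_compl, mem_insert, not_or] at hb
        rw [card_insert_of_notMem hb.2, hv]))
  rwa [card_compl_insert hv hx] at this

open Classical in
theorem cnt5 {k : ℕ} {v : Finset (Fin n)} {x : Fin n} (hv : v.card = k) (hx : x ∉ v)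
    (F : Finset (Fin n) → Fin n → Prop) (Du : ℝ)
    (hu : ∀ v : Finset (Fin n), v.card = k → (((univ.filter (fun x => x ∉ v ∧ F v x)).card : ℕ) : ℝ) ≤ Du) :
    ((((Q v x).filter (fun g => F (insert x (v.erase g.1)) g.2)).card : ℕ) : ℝ) ≤ k * Du := by
  have := card_le_of_map ((Q v x).filter (fun g => F (insert x (v.erase g.1)) g.2)) Prod.fst Prod.snd
    (fun a _ b _ h1 h2 => Prod.ext h1 h2) v
    (fun a => univ.filter (fun b => b ∉ insert x (v.erase a) ∧ F (insert x (v.erase a)) b))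
    (fun g hg => (mem_Q.1 (mem_filter.1 hg).1).1)
    (fun g hg => by
      have h1 := mem_filter.1 hg
      have h2 := mem_Q.1 h1.1
      simp only [mem_filter, mem_univ, true_and]
      refine ⟨?_, h1.2⟩
      simp [h2.2.1, h2.2.2]) Du (fun a ha => hu _ (by
        have hx' : x ∉ v.erase a := fun h => hx (mem_of_mem_erase h)
        rw [card_insert_of_notMem hx', card_erase_of_mem ha, hv]
        have : 0 < v.card := card_pos.2 ⟨a, ha⟩
        omega))
  rwa [hv] at this

open Classical in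
theorem cnt6 {k : ℕ} {v : Finset (Fin n)} {x : Fin n} (hv : v.card = k) (hx : x ∉ v)
    (F : Finset (Fin n) → Fin n → Prop) (Dd : ℝ)
    (hd : ∀ y : Finset (Fin n), y.card = k + 1 →
      (((y.filter (fun x => F (y.erase x) x)).card : ℕ) : ℝ) ≤ Dd) :
    ((((Q v x).filter (fun g => F (insert x (v.erase g.1)) g.1)).card : ℕ) : ℝ) ≤
      ((n : ℝ) - k - 1) * Dd := by
  have := card_le_of_map ((Q v x).filter (fun g => F (insert x (v.erase g.1)) g.1))
    Prod.snd Prod.fst
    (fun a _ b _ h1 h2 => Prod.ext h2 h1) ((insert x v)ᶜ)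
    (fun b => (insert x v).filter (fun a => F ((insert x v).erase a) a))
    (fun g hg => by
      have h1 := mem_Q.1 (mem_filter.1 hg).1
      simp [h1.2.1, h1.2.2])
    (fun g hg => by
      have h1 := mem_filter.1 hg
      have h2 := mem_Q.1 h1.1
      have hne : x ≠ g.1 := fun h => hx (h ▸ h2.1)
      simp only [mem_filter]
      refine ⟨mem_insert_of_mem h2.1, ?_⟩
      rw [erase_insert_of_ne hne]
      exact h1.2) Dd (fun b hb => hd _ (by rw [card_insert_of_notMem hx, hv]))
  rwa [card_compl_insert hv hx] at this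

/-- The hexagon given by `g = (a, b)` through `(v, x)` uses no edge of `F` except possibly its first
edge. -/
def Clear (F : Finset (Fin n) → Fin n → Prop) (v : Finset (Fin n)) (x : Fin n)
    (g : Fin n × Fin n) : Prop :=
  ¬ F v g.2 ∧ ¬ F (insert g.2 (v.erase g.1)) g.1 ∧ ¬ F (insert g.2 (v.erase g.1)) x ∧
    ¬ F (insert x (v.erase g.1)) g.2 ∧ ¬ F (insert x (v.erase g.1)) g.1

/-- The edges reserved for the classes other than `j`. -/
def Oth {K : ℕ} (H : Fin K → Finset (Fin n) → Fin n → Prop) (j : Fin K) (v : Finset (Fin n))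
    (x : Fin n) : Prop := ∃ j', j' ≠ j ∧ H j' v x

/-- The edges reserved for some class. -/
def Any {K : ℕ} (H : Fin K → Finset (Fin n) → Fin n → Prop) (v : Finset (Fin n))
    (x : Fin n) : Prop := ∃ j', H j' v x

open Classical in
/-- The deterministic conditions, first part. -/
structure Cond0 {n : ℕ} (k K : ℕ) (H : Fin K → Finset (Fin n) → Fin n → Prop) : Prop where
  up : ∀ v : Finset (Fin n), v.card = k →
    (((univ.filter (fun x => x ∉ v ∧ Any H v x)).card : ℕ) : ℝ) ≤ ((n : ℝ) - k - 1) / 32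
  down : ∀ y : Finset (Fin n), y.card = k + 1 →
    (((y.filter (fun x => Any H (y.erase x) x)).card : ℕ) : ℝ) ≤ (k : ℝ) / 32
  opp : ∀ v : Finset (Fin n), v.card = k → ∀ x, x ∉ v →
    ((((Q v x).filter (fun g => Any H (insert g.2 (v.erase g.1)) x)).card : ℕ) : ℝ) ≤
      k * ((n : ℝ) - k - 1) / 8

open Classical in
/-- The deterministic conditions. -/
structure Cond {n : ℕ} (k K : ℕ) (H : Fin K → Finset (Fin n) → Fin n → Prop) : Prop
    extends Cond0 k K H where
  many : ∀ v : Finset (Fin n), v.card = k → ∀ x, x ∉ v → ∀ j,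
    20 * K * ((n : ℝ) - k - 1) ≤ ((((Q v x).filter (fun g => Clear (Oth H j) v x g ∧
      H j (insert g.2 (v.erase g.1)) x)).card : ℕ) : ℝ)

theorem card_insert_erase {k : ℕ} {v : Finset (Fin n)} {a b : Fin n} (hv : v.card = k) (ha : a ∈ v)
    (hb : b ∉ v) : (insert b (v.erase a)).card = k := by
  have hb' : b ∉ v.erase a := fun h => hb (mem_of_mem_erase h)
  rw [card_insert_of_notMem hb', card_erase_of_mem ha, hv]
  have : 0 < v.card := card_pos.2 ⟨a, ha⟩
  omega

open Classical in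
theorem clear_card {k K : ℕ} {H : Fin K → Finset (Fin n) → Fin n → Prop} (hH : Cond0 k K H)
    (v : Finset (Fin n)) (hv : v.card = k) (x : Fin n) (hx : x ∉ v) (j : Fin K) :
    3 / 4 * (k * ((n : ℝ) - k - 1)) ≤ ((((Q v x).filter (Clear (Oth H j) v x)).card : ℕ) : ℝ) := by
  have hOA : ∀ v x, Oth H j v x → Any H v x := fun v x ⟨j', _, h⟩ => ⟨j', h⟩
  have c2 := cnt2 (x := x) hv (Any H) _ hH.up
  have c3 := cnt3 hv hx (Any H) _ hH.down
  have c4 := hH.opp v hv x hx
  have c5 := cnt5 hv hx (Any H) _ hH.up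
  have c6 := cnt6 hv hx (Any H) _ hH.down
  have hsub : Q v x ⊆ (Q v x).filter (Clear (Oth H j) v x) ∪
      (((Q v x).filter (fun g => Any H v g.2)) ∪
      ((Q v x).filter (fun g => Any H (insert g.2 (v.erase g.1)) g.1)) ∪
      ((Q v x).filter (fun g => Any H (insert g.2 (v.erase g.1)) x)) ∪
      ((Q v x).filter (fun g => Any H (insert x (v.erase g.1)) g.2)) ∪
      ((Q v x).filter (fun g => Any H (insert x (v.erase g.1)) g.1))) := by
    intro g hg
    by_cases h : Clear (Oth H j) v x g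
    · exact mem_union_left _ (mem_filter.2 ⟨hg, h⟩)
    · apply mem_union_right
      unfold Clear at h
      simp only [mem_union, mem_filter, hg, true_and]
      by_contra hcon
      push Not at hcon
      apply h
      refine ⟨fun h => hcon.1.1.1.1 (hOA _ _ h), fun h => hcon.1.1.1.2 (hOA _ _ h),
        fun h => hcon.1.1.2 (hOA _ _ h), fun h => hcon.1.2 (hOA _ _ h), fun h => hcon.2 (hOA _ _ h)⟩
  have h1 := card_le_card hsub
  have h2 := h1.trans (card_union_le _ _)
  have h3 : (Q v x).card ≤ ((Q v x).filter (Clear (Oth H j) v x)).card +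
      (((Q v x).filter (fun g => Any H v g.2)).card +
      ((Q v x).filter (fun g => Any H (insert g.2 (v.erase g.1)) g.1)).card +
      ((Q v x).filter (fun g => Any H (insert g.2 (v.erase g.1)) x)).card +
      ((Q v x).filter (fun g => Any H (insert x (v.erase g.1)) g.2)).card +
      ((Q v x).filter (fun g => Any H (insert x (v.erase g.1)) g.1)).card) := by
    refine h2.trans (Nat.add_le_add_left ?_ _)
    refine (card_union_le _ _).trans (Nat.add_le_add_right ?_ _)
    refine (card_union_le _ _).trans (Nat.add_le_add_right ?_ _)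
    refine (card_union_le _ _).trans (Nat.add_le_add_right ?_ _)
    exact card_union_le _ _
  have h4 : ((Q v x).card : ℝ) ≤ (((Q v x).filter (Clear (Oth H j) v x)).card : ℝ) +
      ((((Q v x).filter (fun g => Any H v g.2)).card : ℝ) +
      (((Q v x).filter (fun g => Any H (insert g.2 (v.erase g.1)) g.1)).card : ℝ) +
      (((Q v x).filter (fun g => Any H (insert g.2 (v.erase g.1)) x)).card : ℝ) +
      (((Q v x).filter (fun g => Any H (insert x (v.erase g.1)) g.2)).card : ℝ) +
      (((Q v x).filter (fun g => Any H (insert x (v.erase g.1)) g.1)).card : ℝ)) := by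
    exact_mod_cast h3
  rw [card_Q hv hx] at h4
  linarith

open Classical in
theorem clear_loss {k : ℕ} (F : Finset (Fin n) → Fin n → Prop) (Du Dd : ℝ)
    (hu : ∀ v : Finset (Fin n), v.card = k →
      (((univ.filter (fun x => x ∉ v ∧ F v x)).card : ℕ) : ℝ) ≤ Du)
    (hd : ∀ y : Finset (Fin n), y.card = k + 1 →
      (((y.filter (fun x => F (y.erase x) x)).card : ℕ) : ℝ) ≤ Dd)
    (v : Finset (Fin n)) (hv : v.card = k) (x : Fin n) (hx : x ∉ v)
    (M0 : Finset (Fin n × Fin n)) (hM0 : M0 ⊆ Q v x)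
    (h4 : ∀ g ∈ M0, ¬ F (insert g.2 (v.erase g.1)) x) :
    (M0.card : ℝ) ≤ (((M0.filter (Clear F v x)).card : ℕ) : ℝ) +
      2 * (k * Du + ((n : ℝ) - k - 1) * Dd) := by
  have c2 := cnt2 (x := x) hv F _ hu
  have c3 := cnt3 hv hx F _ hd
  have c5 := cnt5 hv hx F _ hu
  have c6 := cnt6 hv hx F _ hd
  have hsub : M0 ⊆ M0.filter (Clear F v x) ∪
      (((Q v x).filter (fun g => F v g.2)) ∪
      ((Q v x).filter (fun g => F (insert g.2 (v.erase g.1)) g.1)) ∪
      ((Q v x).filter (fun g => F (insert x (v.erase g.1)) g.2)) ∪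
      ((Q v x).filter (fun g => F (insert x (v.erase g.1)) g.1))) := by
    intro g hg
    have hgQ : g ∈ Q v x := hM0 hg
    have h4' := h4 g hg
    by_cases h : Clear F v x g
    · exact mem_union_left _ (mem_filter.2 ⟨hg, h⟩)
    · apply mem_union_right
      unfold Clear at h
      simp only [mem_union, mem_filter, hgQ, true_and]
      by_contra hcon
      push Not at hcon
      apply h
      exact ⟨hcon.1.1.1, hcon.1.1.2, h4', hcon.1.2, hcon.2⟩
  have h1 := card_le_card hsub
  have h3 : M0.card ≤ (M0.filter (Clear F v x)).card +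
    (((Q v x).filter (fun g => F v g.2)).card +
    ((Q v x).filter (fun g => F (insert g.2 (v.erase g.1)) g.1)).card +
    ((Q v x).filter (fun g => F (insert x (v.erase g.1)) g.2)).card +
    ((Q v x).filter (fun g => F (insert x (v.erase g.1)) g.1)).card) := by
    refine (h1.trans (card_union_le _ _)).trans (Nat.add_le_add_left ?_ _)
    refine (card_union_le _ _).trans (Nat.add_le_add_right ?_ _)
    refine (card_union_le _ _).trans (Nat.add_le_add_right ?_ _)
    exact card_union_le _ _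
  have h5 : (M0.card : ℝ) ≤ ((M0.filter (Clear F v x)).card : ℝ) +
    ((((Q v x).filter (fun g => F v g.2)).card : ℝ) +
    (((Q v x).filter (fun g => F (insert g.2 (v.erase g.1)) g.1)).card : ℝ) +
    (((Q v x).filter (fun g => F (insert x (v.erase g.1)) g.2)).card : ℝ) +
    (((Q v x).filter (fun g => F (insert x (v.erase g.1)) g.1)).card : ℝ)) := by
    exact_mod_cast h3
  linarith

/-- The deterministic conditions imply the property `ML`. -/
theorem ML_of_cond {k K : ℕ} (hK : 1 ≤ K) (hk : 1 ≤ k) (hkn : 2 * (k + 1) ≤ n + 1)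
    {H : Fin K → Finset (Fin n) → Fin n → Prop} (hH : Cond k K H) : ML n k K := by
  classical
  refine ⟨H, ?_⟩
  intro j D hD hDu hDd
  have hk0 : (1 : ℝ) ≤ k := by exact_mod_cast hk
  have hK0 : (1 : ℝ) ≤ K := by exact_mod_cast hK
  have hkb : (k : ℝ) ≤ (n : ℝ) - k - 1 := by
    have : ((2 * (k + 1) : ℕ) : ℝ) ≤ ((n + 1 : ℕ) : ℝ) := by exact_mod_cast hkn
    push_cast at this
    linarith
  set b0 : ℝ := (n : ℝ) - k - 1 with hb0
  have hb1 : 1 ≤ b0 := hk0.trans hkb
  -- first stage
  set R1 : Finset (Finset (Fin n) × Fin n) :=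
    univ.filter (fun e => e.1.card = k ∧ e.2 ∉ e.1 ∧ Oth H j e.1 e.2) with hR1
  have hmemR1 : ∀ v x, (v, x) ∈ R1 ↔ v.card = k ∧ x ∉ v ∧ Oth H j v x := by
    intro v x; simp [hR1]
  set P1 : Finset (Fin n) → Fin n → Prop := fun v x => v.card = k ∧ x ∉ v ∧ ¬ Oth H j v x with hP1
  have hOA : ∀ v x, Oth H j v x → Any H v x := fun v x ⟨j', _, h⟩ => ⟨j', h⟩
  have hc1 : (1 : ℝ) / (3 / 4 * (k * b0)) * (k * (b0 / 32) + b0 * (k / 32)) = 1 / 12 := by
    have h1 : (k : ℝ) ≠ 0 := by positivity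
    have h2 : b0 ≠ 0 := by positivity
    field_simp
    norm_num
  have hc2 : (1 : ℝ) / (3 / 4 * (k * b0)) * (k * (b0 / 32) + b0 * (k / 32) + k * b0) = 17 / 12 := by
    have h1 : (k : ℝ) ≠ 0 := by positivity
    have h2 : b0 ≠ 0 := by positivity
    field_simp
    norm_num
  obtain ⟨w₁, hw₁, hz₁, _, hlo₁, hhi₁⟩ := reroute (fun _ _ => 1) (NF.one (n := n) (k := k)) R1
    (fun e => (Q e.1 e.2).filter (Clear (Oth H j) e.1 e.2)) P1
    (fun v x h h' => h.2.2 ((hmemR1 v x).1 h').2.2) 1 (3 / 4 * (k * b0)) (b0 / 32) (k / 32)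
    (by positivity) zero_le_one (by positivity) (by positivity)
    (fun e he => ⟨((hmemR1 e.1 e.2).1 he).1, ((hmemR1 e.1 e.2).1 he).2.1⟩)
    (fun _ _ => le_rfl)
    (fun e he => clear_card hH.toCond0 e.1 ((hmemR1 e.1 e.2).1 he).1 e.2 ((hmemR1 e.1 e.2).1 he).2.1 j)
    (fun e he g hg => by
      have := mem_Q.1 (mem_filter.1 hg).1
      exact ⟨this.1, this.2.2, this.2.1⟩)
    (fun e he g hg => by
      have hv := ((hmemR1 e.1 e.2).1 he).1
      have hx := ((hmemR1 e.1 e.2).1 he).2.1
      obtain ⟨h1, h2⟩ := mem_filter.1 hg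
      obtain ⟨h3, h4, h5⟩ := mem_Q.1 h1
      obtain ⟨q1, q2, q3, q4, q5⟩ := h2
      have hab : g.1 ≠ g.2 := fun h => h5 (h ▸ h3)
      have hax : g.1 ≠ e.2 := fun h => hx (h ▸ h3)
      refine ⟨⟨hv, h5, q1⟩, ⟨card_insert_erase hv h3 h5, ?_, q2⟩,
        ⟨card_insert_erase hv h3 h5, ?_, q3⟩, ⟨card_insert_erase hv h3 hx, ?_, q4⟩,
        ⟨card_insert_erase hv h3 hx, ?_, q5⟩⟩
      · simp [hab]
      · simp [h4.symm, hx]
      · simp [h4, h5]
      · simp [hax])
    (fun v hv => by
      refine le_trans ?_ (hH.up v hv)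
      have : (univ.filter (fun x => (v, x) ∈ R1)).card ≤
          (univ.filter (fun x => x ∉ v ∧ Any H v x)).card := by
        apply card_le_card
        intro x hx
        simp only [mem_filter, mem_univ, true_and] at hx ⊢
        have := (hmemR1 v x).1 hx
        exact ⟨this.2.1, hOA _ _ this.2.2⟩
      exact_mod_cast this)
    (fun y hy => by
      refine le_trans ?_ (hH.down y hy)
      have : (y.filter (fun x => (y.erase x, x) ∈ R1)).card ≤
          (y.filter (fun x => Any H (y.erase x) x)).card := by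
        apply card_le_card
        intro x hx
        simp only [mem_filter] at hx ⊢
        have := (hmemR1 _ x).1 hx.2
        exact ⟨hx.1, hOA _ _ this.2.2⟩
      exact_mod_cast this)
    (fun v x hv hx _ => by
      rw [hc1]; norm_num)
  rw [hc1] at hlo₁
  rw [hc2] at hhi₁
  -- second stage
  set P2 : Finset (Fin n) → Fin n → Prop :=
    fun v x => v.card = k ∧ x ∉ v ∧ ¬ Oth H j v x ∧ (v, x) ∉ D with hP2
  set G2 : Finset (Fin n) × Fin n → Finset (Fin n × Fin n) := fun e =>
    ((Q e.1 e.2).filter (fun g => Clear (Oth H j) e.1 e.2 g ∧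
      H j (insert g.2 (e.1.erase g.1)) e.2)).filter (fun g => Clear (fun v x => (v, x) ∈ D) e.1 e.2 g)
    with hG2
  have hDu' : ∀ v : Finset (Fin n), v.card = k →
      (((univ.filter (fun x => x ∉ v ∧ (v, x) ∈ D)).card : ℕ) : ℝ) ≤ K := by
    intro v _
    have : (univ.filter (fun x => x ∉ v ∧ (v, x) ∈ D)).card ≤ K := by
      refine le_trans (card_le_card ?_) (hDu v)
      intro x hx
      simp only [mem_filter, mem_univ, true_and] at hx ⊢
      exact hx.2
    exact_mod_cast this
  have hDd' : ∀ y : Finset (Fin n), y.card = k + 1 →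
      (((y.filter (fun x => (y.erase x, x) ∈ D)).card : ℕ) : ℝ) ≤ K := by
    intro y _
    exact_mod_cast hDd y
  have hG2card : ∀ e ∈ D, 16 * K * b0 ≤ ((G2 e).card : ℝ) := by
    intro e he
    obtain ⟨hv, hx, hHe⟩ := hD e he
    have hm := hH.many e.1 hv e.2 hx j
    have hl := clear_loss (fun v x => (v, x) ∈ D) K K (fun v hv => by convert hDu' v hv)
      (fun y hy => by convert hDd' y hy) e.1 hv e.2 hx
      ((Q e.1 e.2).filter (fun g => Clear (Oth H j) e.1 e.2 g ∧
      H j (insert g.2 (e.1.erase g.1)) e.2)) (filter_subset _ _)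
      (fun g hg h => (hD _ h).2.2 (mem_filter.1 hg).2.2)
    have h5 : (k : ℝ) * K ≤ b0 * K := mul_le_mul_of_nonneg_right hkb (by positivity)
    rw [← hb0] at hl hm
    have h6 : (((((Q e.1 e.2).filter (fun g => Clear (Oth H j) e.1 e.2 g ∧
      H j (insert g.2 (e.1.erase g.1)) e.2)).filter
        (Clear (fun v x => (v, x) ∈ D) e.1 e.2)).card : ℕ) : ℝ) = ((G2 e).card : ℝ) := by
      simp only [hG2]
    rw [h6] at hl
    linarith
  have hc3 : (4 : ℝ) / (16 * K * b0) * (k * K + b0 * K) ≤ 1 / 2 := by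
    rw [div_mul_eq_mul_div, div_le_iff₀ (by positivity)]
    have h5 : (k : ℝ) * K ≤ b0 * K := mul_le_mul_of_nonneg_right hkb (by positivity)
    linarith
  have hlow1 : ∀ v x, v.card = k → x ∉ v → ¬ Oth H j v x → 11 / 12 ≤ w₁ v x := by
    intro v x hv hx hO
    have := hlo₁ v x hv hx (fun h => hO ((hmemR1 v x).1 h).2.2)
    linarith
  obtain ⟨w₂, hw₂, hz₂, hsame₂, _, _⟩ := reroute w₁ hw₁ D G2 P2 (fun v x h => h.2.2.2)
    4 (16 * K * b0) K K (by positivity) (by norm_num) (by positivity) (by positivity)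
    (fun e he => ⟨(hD e he).1, (hD e he).2.1⟩)
    (fun e he => by
      have := hhi₁ e.1 e.2 (hD e he).1 (hD e he).2.1
      linarith)
    hG2card
    (fun e he g hg => by
      have := mem_Q.1 (mem_filter.1 (mem_filter.1 hg).1).1
      exact ⟨this.1, this.2.2, this.2.1⟩)
    (fun e he g hg => by
      have hv := (hD e he).1
      have hx := (hD e he).2.1
      obtain ⟨h1', h2'⟩ := mem_filter.1 hg
      obtain ⟨h1, h2⟩ := mem_filter.1 h1'
      obtain ⟨h3, h4, h5⟩ := mem_Q.1 h1
      obtain ⟨⟨q1, q2, q3, q4, q5⟩, _⟩ := h2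
      obtain ⟨s1, s2, s3, s4, s5⟩ := h2'
      have hab : g.1 ≠ g.2 := fun h => h5 (h ▸ h3)
      have hax : g.1 ≠ e.2 := fun h => hx (h ▸ h3)
      refine ⟨⟨hv, h5, q1, s1⟩, ⟨card_insert_erase hv h3 h5, ?_, q2, s2⟩,
        ⟨card_insert_erase hv h3 h5, ?_, q3, s3⟩, ⟨card_insert_erase hv h3 hx, ?_, q4, s4⟩,
        ⟨card_insert_erase hv h3 hx, ?_, q5, s5⟩⟩
      · simp [hab]
      · simp [h4.symm, hx]
      · simp [h4, h5]
      · simp [hax])
    (fun v hv => by exact_mod_cast hDu v)
    hDd'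
    (fun v x hv hx hP => by
      have := hlow1 v x hv hx hP.2.2.1
      rw [← hb0]
      linarith)
  refine ⟨w₂, hw₂, hz₂, ?_⟩
  intro v x hv hx j' hj' hHj'
  by_cases hDvx : (v, x) ∈ D
  · exact hz₂ _ hDvx
  · have hO : Oth H j v x := ⟨j', hj', hHj'⟩
    rw [hsame₂ v x hDvx (fun h => h.2.2.1 hO)]
    exact hz₁ (v, x) ((hmemR1 v x).2 ⟨hv, hx, hO⟩)

end Pool.MP_0ccee8_co.Lib
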