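import Mathlib
import Pool.Agent.Lib.MP_0ccee8_co.Chains

/-!
# Expansion between two low levels (from the Kruskal–Katona theorem)
-/

set_option autoImplicit false

namespace Pool.MP_0ccee8_co.Lib

open Finset
open scoped FinsetFamily

variable {n : ℕ}

theorem choose_diff (m d k : ℕ) :
    (m + d).choose (k + 1) ≤ m.choose (k + 1) + d * (m + d - 1).choose k := by
  induction d with
  | zero => simp
  | succ d ih =>
    have h1 : (m + (d + 1)).choose (k + 1) = (m + d).choose k + (m + d).choose (k + 1) := by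
      rw [← add_assoc, Nat.choose_succ_succ]
    have h2 : (m + d - 1).choose k ≤ (m + d).choose k := Nat.choose_le_choose k (by omega)
    have h3 : m + (d + 1) - 1 = m + d := by omega
    rw [h1, h3]
    calc (m + d).choose k + (m + d).choose (k + 1)
        ≤ (m + d).choose k + (m.choose (k + 1) + d * (m + d - 1).choose k) :=
          Nat.add_le_add_left ih _
      _ ≤ (m + d).choose k + (m.choose (k + 1) + d * (m + d).choose k) :=
          Nat.add_le_add_left (Nat.add_le_add_left (Nat.mul_le_mul_left _ h2) _) _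
      _ = m.choose (k + 1) + (d + 1) * (m + d).choose k := by ring

theorem choose_half {m k : ℕ} (hk : 1 ≤ k) (hkn : k ≤ n) (hm : m ≤ n)
    (h : 2 * m.choose k ≤ n.choose k) : n ≤ 2 * k * (n - m) := by
  obtain ⟨k, rfl⟩ : ∃ k', k = k' + 1 := ⟨k - 1, by omega⟩
  obtain ⟨d, rfl⟩ : ∃ d, n = m + d := ⟨n - m, by omega⟩
  obtain ⟨N, hN⟩ : ∃ N, m + d = N + 1 := ⟨m + d - 1, by omega⟩
  have h1 := choose_diff m d k
  have h2 : (N + 1) * N.choose k = (N + 1).choose (k + 1) * (k + 1) := by
    have := Nat.add_one_mul_choose_eq N k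
    simpa using this
  have hNd : m + d - 1 = N := by omega
  rw [hNd] at h1
  rw [hN] at h1 h ⊢
  have hsub : N + 1 - m = d := by omega
  rw [hsub]
  have hpos : 0 < (N + 1).choose (k + 1) := Nat.choose_pos (by omega)
  have h3 : (N + 1) * (N + 1).choose (k + 1) ≤
      2 * (k + 1) * d * (N + 1).choose (k + 1) := by
    have h4 : 2 * ((N + 1) * (N + 1).choose (k + 1)) ≤
        (N + 1) * (2 * m.choose (k + 1)) + 2 * (d * ((N + 1) * N.choose k)) := by
      calc 2 * ((N + 1) * (N + 1).choose (k + 1)) ≤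
          2 * ((N + 1) * (m.choose (k + 1) + d * N.choose k)) :=
            Nat.mul_le_mul_left _ (Nat.mul_le_mul_left _ h1)
        _ = _ := by ring
    have h5 : (N + 1) * (2 * m.choose (k + 1)) ≤ (N + 1) * (N + 1).choose (k + 1) :=
      Nat.mul_le_mul_left _ h
    rw [h2] at h4
    have h6 : 2 * (d * ((N + 1).choose (k + 1) * (k + 1))) =
        2 * (k + 1) * d * (N + 1).choose (k + 1) := by ring
    rw [h6] at h4
    omega
  exact Nat.le_of_mul_le_mul_right h3 hpos

/-- A form of the Kruskal–Katona theorem. -/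
theorem kk {k : ℕ} (hn : 3 * (k + 1) ^ 2 ≤ n) (𝒜 P : Finset (Finset (Fin n)))
    (h𝒜 : ∀ b ∈ 𝒜, b.card = k + 1) (hP : ∂ 𝒜 ⊆ P) (h2 : 2 * P.card ≤ n.choose k) :
    6 * (k + 1) * ((k + 1) * 𝒜.card) ≤ (n - k) * (6 * k + 5) * P.card := by
  rcases 𝒜.eq_empty_or_nonempty with h | hne
  · simp [h]
  have hn1 : 3 * k ^ 2 + 6 * k + 3 ≤ n := by nlinarith
  have hsz : (𝒜 : Set (Finset (Fin n))).Sized (k + 1) := fun b hb => h𝒜 b hb
  have hpos : 0 < 𝒜.card := card_pos.2 hne
  -- the maximal `m`
  set p : ℕ → Prop := fun m => m.choose (k + 1) ≤ 𝒜.card with hp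
  have hbase : p (k + 1) := by simp only [hp, Nat.choose_self]; omega
  have hkk : ∀ m, k + 1 ≤ m → m ≤ n → p m → m.choose k ≤ P.card := by
    intro m h1 h2 h3
    have := kruskal_katona_lovasz_form (i := 1) (by omega) h1 h2 hsz h3
    simp only [Function.iterate_one, Nat.add_sub_cancel] at this
    exact this.trans (card_le_card hP)
  have hnot : ¬ p n := by
    intro h
    have h3 := hkk n (by nlinarith) le_rfl h
    have h4 : 0 < n.choose k := Nat.choose_pos (by nlinarith)
    omega
  obtain ⟨m, hm1, hm2, hm3, hm4⟩ : ∃ m, k + 1 ≤ m ∧ m < n ∧ p m ∧ ¬ p (m + 1) := by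
    by_contra hcon
    push Not at hcon
    have : ∀ d, k + 1 + d ≤ n → p (k + 1 + d) := by
      intro d
      induction d with
      | zero => intro _; exact hbase
      | succ d ih =>
        intro hd
        have h1 := ih (by omega)
        have h2 := hcon (k + 1 + d) (by omega) (by omega) h1
        exact h2
    apply hnot
    have h5 := this (n - (k + 1)) (by omega)
    have h6 : k + 1 + (n - (k + 1)) = n := by
      have : k + 1 ≤ n := by nlinarith
      omega
    rwa [h6] at h5
  have hmP := hkk m hm1 hm2.le hm3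
  simp only [hp, not_le] at hm4
  have hk1 : 1 ≤ k := by
    by_contra hk0
    have hk0' : k = 0 := by omega
    subst hk0'
    simp only [Nat.choose_zero_right] at hmP h2
    omega
  have h3 := choose_half (n := n) hk1 (by nlinarith) hm2.le (by omega)
  have h4 : (m + 1) * m.choose k = (m + 1).choose (k + 1) * (k + 1) := by
    have := Nat.add_one_mul_choose_eq m k
    simpa using this
  have h5 : (k + 1) * 𝒜.card ≤ (m + 1) * P.card := by
    calc (k + 1) * 𝒜.card ≤ (k + 1) * (m + 1).choose (k + 1) := Nat.mul_le_mul_left _ hm4.le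
      _ = (m + 1) * m.choose k := by rw [h4]; ring
      _ ≤ (m + 1) * P.card := Nat.mul_le_mul_left _ hmP
  have h6 : 6 * (k + 1) * (m + 1) ≤ (n - k) * (6 * k + 5) := by
    obtain ⟨d, hd⟩ : ∃ d, n = m + d := ⟨n - m, by omega⟩
    have hd' : n - m = d := by omega
    rw [hd'] at h3
    have hkn : k ≤ n := by nlinarith
    zify [hkn]
    have e1 : (n : ℤ) ≤ 2 * k * d := by exact_mod_cast h3
    have e2 : (m : ℤ) = n - d := by rw [hd]; push_cast; ring
    have e3 : 3 * (k : ℤ) ^ 2 + 6 * k + 3 ≤ n := by exact_mod_cast hn1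
    have e4 : (0 : ℤ) ≤ d := Int.natCast_nonneg _
    rw [e2]
    nlinarith
  calc 6 * (k + 1) * ((k + 1) * 𝒜.card) ≤ 6 * (k + 1) * ((m + 1) * P.card) :=
        Nat.mul_le_mul_left _ h5
    _ = 6 * (k + 1) * (m + 1) * P.card := by ring
    _ ≤ (n - k) * (6 * k + 5) * P.card := Nat.mul_le_mul_right _ h6

theorem card_above {k : ℕ} (a : Lev n k) :
    n - k ≤ (univ.filter (fun b : Lev n (k + 1) => a.1 ⊆ b.1)).card := by
  classical
  have h1 : Fintype.card {x : Fin n // x ∈ (a.1)ᶜ} = n - k := by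
    rw [Fintype.card_coe, card_compl, Fintype.card_fin, a.2]
  rw [← h1, ← card_univ]
  have hx' : ∀ x : {x : Fin n // x ∈ (a.1)ᶜ}, x.1 ∉ a.1 := fun x => mem_compl.1 x.2
  apply Finset.card_le_card_of_injOn (fun x : {x : Fin n // x ∈ (a.1)ᶜ} =>
    (⟨insert x.1 a.1, by rw [card_insert_of_notMem (hx' x), a.2]⟩ : Lev n (k + 1)))
  · intro x _
    simp
  · intro x _ y _ hxy
    simp only [Subtype.mk.injEq] at hxy
    apply Subtype.ext
    have : x.1 ∈ insert y.1 a.1 := hxy ▸ mem_insert_self _ _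
    rcases mem_insert.1 this with h | h
    · exact h
    · exact absurd h (hx' x)

theorem card_below {k : ℕ} (b : Lev n (k + 1)) (Z : Finset (Lev n k)) :
    (Z.filter (fun a => a.1 ⊆ b.1)).card ≤ k + 1 := by
  classical
  have h1 : ((Z.filter (fun a => a.1 ⊆ b.1)).image (fun a : Lev n k => a.1)).card =
      (Z.filter (fun a => a.1 ⊆ b.1)).card :=
    card_image_of_injective _ Subtype.val_injective
  rw [← h1]
  calc _ ≤ (b.1.image (fun x => b.1.erase x)).card := by
        apply card_le_card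
        intro S hS
        rw [mem_image] at hS ⊢
        obtain ⟨a, ha, rfl⟩ := hS
        have hab := (mem_filter.1 ha).2
        have hc : (b.1 \ a.1).card = 1 := by
          rw [card_sdiff_of_subset hab, a.2, b.2]; omega
        obtain ⟨x, hx⟩ := card_eq_one.1 hc
        have hxb : x ∈ b.1 \ a.1 := by rw [hx]; simp
        rw [mem_sdiff] at hxb
        refine ⟨x, hxb.1, ?_⟩
        symm
        apply eq_of_subset_of_card_le
        · intro z hz
          rw [mem_erase]
          exact ⟨fun h => hxb.2 (h ▸ hz), hab hz⟩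
        · rw [card_erase_of_mem hxb.1, a.2, b.2]; omega
    _ ≤ b.1.card := card_image_le
    _ = k + 1 := b.2

/-- The upper neighbours of `Z`. -/
def up {k : ℕ} (Z : Finset (Lev n k)) : Finset (Lev n (k + 1)) :=
  univ.filter (fun b => ∃ a ∈ Z, a.1 ⊆ b.1)

/-- The sets all of whose lower neighbours are in `P`. -/
def inn {k : ℕ} (P : Finset (Lev n k)) : Finset (Lev n (k + 1)) :=
  univ.filter (fun b => ∀ a : Lev n k, a.1 ⊆ b.1 → a ∈ P)

theorem card_up {k : ℕ} (Z : Finset (Lev n k)) : (n - k) * Z.card ≤ (k + 1) * (up Z).card := by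
  classical
  rw [mul_comm, mul_comm (k + 1)]
  apply card_mul_le_card_mul (fun (a : Lev n k) (b : Lev n (k + 1)) => a.1 ⊆ b.1)
  · intro a ha
    refine (card_above a).trans (card_le_card ?_)
    intro b hb
    simp only [mem_filter, mem_univ, true_and] at hb
    simp only [bipartiteAbove, up, mem_filter, mem_univ, true_and]
    exact ⟨⟨a, ha, hb⟩, hb⟩
  · intro b _
    exact card_below b Z

theorem card_inn {k : ℕ} (hn : 3 * (k + 1) ^ 2 ≤ n) (P : Finset (Lev n k))
    (h2 : 2 * P.card ≤ Fintype.card (Lev n k)) :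
    6 * (k + 1) * ((k + 1) * (inn P).card) ≤ (n - k) * (6 * k + 5) * P.card := by
  classical
  have hcard : Fintype.card (Lev n k) = n.choose k := by
    rw [Fintype.card_finset_len, Fintype.card_fin]
  rw [hcard] at h2
  have h1 := kk hn ((inn P).map (Function.Embedding.subtype _)) (P.map (Function.Embedding.subtype _))
    (by
      intro b hb
      rw [mem_map] at hb
      obtain ⟨b', _, rfl⟩ := hb
      exact b'.2)
    (by
      intro a ha
      rw [mem_shadow_iff] at ha
      obtain ⟨b, hb, x, hx, rfl⟩ := ha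
      rw [mem_map] at hb
      obtain ⟨b', hb', rfl⟩ := hb
      simp only [Function.Embedding.subtype_apply] at hx ⊢
      have hc : (b'.1.erase x).card = k := by rw [card_erase_of_mem hx, b'.2]; omega
      simp only [inn, mem_filter, mem_univ, true_and] at hb'
      rw [mem_map]
      exact ⟨⟨b'.1.erase x, hc⟩, hb' _ (erase_subset _ _), rfl⟩)
    (by rw [card_map]; exact h2)
  rwa [card_map, card_map] at h1

/-- Expansion. -/
theorem expansion {k L : ℕ} (hn : 3 * (k + 1) ^ 2 ≤ n) (hL : 6 * (k + 1) ^ 2 * L ≤ n - k)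
    (ζ : Lev n (k + 1) ≃ Lev n (k + 1)) (Z P : Finset (Lev n k)) (hPZ : P.card ≤ Z.card)
    (h2 : 2 * P.card ≤ Fintype.card (Lev n k)) :
    L * Z.card ≤ (univ.filter (fun b : Lev n (k + 1) => (∃ a ∈ Z, a.1 ⊆ b.1) ∧
      ∃ a : Lev n k, a ∉ P ∧ a.1 ⊆ (ζ b).1)).card := by
  classical
  set Y := univ.filter (fun b : Lev n (k + 1) => (∃ a ∈ Z, a.1 ⊆ b.1) ∧
      ∃ a : Lev n k, a ∉ P ∧ a.1 ⊆ (ζ b).1) with hY
  have h1 : up Z ⊆ Y ∪ (inn P).map ζ.symm.toEmbedding := by
    intro b hb
    simp only [up, mem_filter, mem_univ, true_and] at hb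
    rw [mem_union]
    by_cases h : ∃ a : Lev n k, a ∉ P ∧ a.1 ⊆ (ζ b).1
    · left
      rw [hY, mem_filter]
      exact ⟨mem_univ _, hb, h⟩
    · right
      rw [mem_map]
      refine ⟨ζ b, ?_, by simp⟩
      simp only [inn, mem_filter, mem_univ, true_and]
      intro a ha
      by_contra hcon
      exact h ⟨a, hcon, ha⟩
  have h3 : (up Z).card ≤ Y.card + (inn P).card := by
    refine (card_le_card h1).trans ((card_union_le _ _).trans ?_)
    rw [card_map]
  have h4 := card_up Z
  have h5 := card_inn hn P h2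
  -- arithmetic
  have h6 : 6 * (k + 1) * ((n - k) * Z.card) ≤
      6 * (k + 1) * ((k + 1) * Y.card) + (n - k) * (6 * k + 5) * Z.card := by
    calc 6 * (k + 1) * ((n - k) * Z.card) ≤ 6 * (k + 1) * ((k + 1) * (up Z).card) :=
          Nat.mul_le_mul_left _ h4
      _ ≤ 6 * (k + 1) * ((k + 1) * (Y.card + (inn P).card)) :=
          Nat.mul_le_mul_left _ (Nat.mul_le_mul_left _ h3)
      _ = 6 * (k + 1) * ((k + 1) * Y.card) + 6 * (k + 1) * ((k + 1) * (inn P).card) := by ring
      _ ≤ 6 * (k + 1) * ((k + 1) * Y.card) + (n - k) * (6 * k + 5) * P.card :=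
          Nat.add_le_add_left h5 _
      _ ≤ _ := Nat.add_le_add_left (Nat.mul_le_mul_left _ hPZ) _
  have h7 : (n - k) * Z.card ≤ 6 * (k + 1) ^ 2 * Y.card := by
    have e1 : 6 * (k + 1) * ((n - k) * Z.card) =
        (n - k) * Z.card + (n - k) * (6 * k + 5) * Z.card := by ring
    have e2 : 6 * (k + 1) * ((k + 1) * Y.card) = 6 * (k + 1) ^ 2 * Y.card := by ring
    omega
  have h8 : 6 * (k + 1) ^ 2 * (L * Z.card) ≤ 6 * (k + 1) ^ 2 * Y.card := by
    calc 6 * (k + 1) ^ 2 * (L * Z.card) = (6 * (k + 1) ^ 2 * L) * Z.card := by ring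
      _ ≤ (n - k) * Z.card := Nat.mul_le_mul_right _ hL
      _ ≤ _ := h7
  exact Nat.le_of_mul_le_mul_left h8 (by positivity)

end Pool.MP_0ccee8_co.Lib
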