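import Mathlib

/-!
# Elementary counting versions of exponential tail bounds
-/

set_option autoImplicit false

namespace Pool.MP_0ccee8_co.Lib

open Finset

/-- Swapping a coordinate with an independent copy of it. -/
theorem swap_sum {Ω β : Type*} [Fintype Ω] [Fintype β] (get : Ω → β) (set : Ω → β → Ω)
    (h1 : ∀ ω b, get (set ω b) = b) (h2 : ∀ ω b, set (set ω b) (get ω) = ω) (F : Ω → β → ℝ) :
    ∑ ω, ∑ b, F (set ω b) (get ω) = ∑ ω, ∑ b, F ω b := by
  rw [← Fintype.sum_prod_type' (fun ω b => F (set ω b) (get ω)), ← Fintype.sum_prod_type' F]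
  refine Finset.sum_nbij' (fun p => (set p.1 p.2, get p.1)) (fun p => (set p.1 p.2, get p.1))
    (fun _ _ => mem_univ _) (fun _ _ => mem_univ _) ?_ ?_ ?_
  · rintro ⟨ω, b⟩ _
    simp only [h1, h2]
  · rintro ⟨ω, b⟩ _
    simp only [h1, h2]
  · rintro ⟨ω, b⟩ _
    rfl

theorem avg_sum {Ω β : Type*} [Fintype Ω] [Fintype β] (get : Ω → β) (set : Ω → β → Ω)
    (h1 : ∀ ω b, get (set ω b) = b) (h2 : ∀ ω b, set (set ω b) (get ω) = ω) (G : Ω → ℝ) :
    (Fintype.card β : ℝ) * ∑ ω, G ω = ∑ ω, ∑ b, G (set ω b) := by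
  rw [swap_sum get set h1 h2 (fun ω _ => G ω)]
  simp [mul_sum]

theorem indep_sum {Ω β : Type*} [Fintype Ω] [Fintype β] (get : Ω → β) (set : Ω → β → Ω)
    (h1 : ∀ ω b, get (set ω b) = b) (h2 : ∀ ω b, set (set ω b) (get ω) = ω) (f : β → ℝ)
    (G : Ω → ℝ) (hG : ∀ ω b, G (set ω b) = G ω) :
    (Fintype.card β : ℝ) * ∑ ω, f (get ω) * G ω = (∑ b, f b) * ∑ ω, G ω := by
  have h := swap_sum get set h1 h2 (fun ω b => f b * G ω)
  simp only [hG] at h
  have h3 : ∑ ω, ∑ b, f b * G ω = (∑ b, f b) * ∑ ω, G ω := by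
    rw [sum_mul, sum_comm]
    apply sum_congr rfl
    intro b _
    rw [mul_sum]
  rw [h3] at h
  rw [← h, mul_sum]
  apply sum_congr rfl
  intro ω _
  simp

/-- Product formula for functions of distinct coordinates. -/
theorem prod_formula {ι β τ : Type*} [Fintype ι] [DecidableEq ι] [Fintype β] (T : Finset τ)
    (y : τ → ι) (hy : Set.InjOn y T) (f : τ → β → ℝ) :
    (Fintype.card β : ℝ) ^ T.card * ∑ ω : ι → β, ∏ t ∈ T, f t (ω (y t)) =
      (∏ t ∈ T, ∑ b, f t b) * Fintype.card (ι → β) := by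
  classical
  induction T using Finset.induction_on with
  | empty => simp
  | insert t T ht ih =>
    have hyT : Set.InjOn y T := hy.mono (by simp)
    have ih' := ih hyT
    have hne : ∀ s ∈ T, y s ≠ y t := by
      intro s hs h
      have : s = t := hy (by simp [hs]) (by simp) h
      exact ht (this ▸ hs)
    have hi := indep_sum (Ω := ι → β) (fun ω => ω (y t)) (fun ω b => Function.update ω (y t) b)
      (fun ω b => by simp) (fun ω b => by simp) (f t) (fun ω => ∏ s ∈ T, f s (ω (y s)))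
      (fun ω b => by
        apply prod_congr rfl
        intro s hs
        rw [Function.update_of_ne (hne s hs)])
    rw [card_insert_of_notMem ht, prod_insert ht, pow_succ]
    have e1 : ∑ ω : ι → β, ∏ s ∈ insert t T, f s (ω (y s)) =
        ∑ ω : ι → β, f t (ω (y t)) * ∏ s ∈ T, f s (ω (y s)) := by
      apply sum_congr rfl
      intro ω _
      rw [prod_insert ht]
    rw [e1, mul_assoc, hi, mul_left_comm, ih']
    ring

open Classical in
/-- Upper tail. -/
theorem tail_upper {ι β τ : Type*} [Fintype ι] [DecidableEq ι] [Fintype β] [Nonempty β] (T : Finset τ)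
    (y : τ → ι) (hy : Set.InjOn y T) (A : τ → β → Prop) (B : ℝ) (hB : 1 ≤ B)
    (hA : ∀ t ∈ T, B * ((univ.filter (A t)).card : ℝ) ≤ Fintype.card β) (m : ℕ) :
    B ^ m * (((univ.filter (fun ω : ι → β => m ≤ (T.filter (fun t => A t (ω (y t)))).card)).card : ℕ) : ℝ)
      ≤ 2 ^ T.card * Fintype.card (ι → β) := by
  classical
  set f : τ → β → ℝ := fun t b => if A t b then B else 1 with hf
  have hc : (0 : ℝ) < Fintype.card β := by exact_mod_cast Fintype.card_pos
  have h1 := prod_formula T y hy f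
  have hB0 : (0 : ℝ) ≤ B := by linarith
  have hf0 : ∀ t b, 0 ≤ f t b := by
    intro t b; simp only [hf]; split_ifs <;> linarith
  have h2 : ∏ t ∈ T, ∑ b, f t b ≤ (2 * Fintype.card β) ^ T.card := by
    rw [← prod_const]
    apply prod_le_prod
    · intro t _; exact sum_nonneg (fun b _ => hf0 t b)
    · intro t ht
      have e1 : ∑ b, f t b ≤ ∑ b, ((if A t b then B else 0) + 1) := by
        apply sum_le_sum
        intro b _
        simp only [hf]
        split_ifs <;> linarith
      have e2 : ∑ b, ((if A t b then B else 0) + 1) = B * ((univ.filter (A t)).card : ℝ) +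
          Fintype.card β := by
        rw [sum_add_distrib, ← sum_filter]
        simp [mul_comm]
      have := hA t ht
      linarith
  have h3 : (Fintype.card β : ℝ) ^ T.card * ∑ ω : ι → β, ∏ t ∈ T, f t (ω (y t)) ≤
      (Fintype.card β : ℝ) ^ T.card * (2 ^ T.card * Fintype.card (ι → β)) := by
    rw [h1]
    calc (∏ t ∈ T, ∑ b, f t b) * (Fintype.card (ι → β) : ℝ)
        ≤ (2 * Fintype.card β) ^ T.card * (Fintype.card (ι → β) : ℝ) :=
          mul_le_mul_of_nonneg_right h2 (Nat.cast_nonneg _)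
      _ = _ := by rw [mul_pow]; ring
  have h4 := le_of_mul_le_mul_left h3 (by positivity)
  refine le_trans ?_ h4
  have h5 : ∀ ω : ι → β, ∏ t ∈ T, f t (ω (y t)) = B ^ (T.filter (fun t => A t (ω (y t)))).card := by
    intro ω
    simp only [hf]
    rw [prod_ite]
    simp
  calc B ^ m * (((univ.filter (fun ω : ι → β => m ≤ (T.filter (fun t => A t (ω (y t)))).card)).card : ℕ) : ℝ)
      = ∑ ω ∈ univ.filter (fun ω : ι → β => m ≤ (T.filter (fun t => A t (ω (y t)))).card), B ^ m := by
        simp [mul_comm]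
    _ ≤ ∑ ω ∈ univ.filter (fun ω : ι → β => m ≤ (T.filter (fun t => A t (ω (y t)))).card),
          ∏ t ∈ T, f t (ω (y t)) := by
        apply sum_le_sum
        intro ω hω
        rw [h5]
        exact pow_le_pow_right₀ hB (mem_filter.1 hω).2
    _ ≤ ∑ ω : ι → β, ∏ t ∈ T, f t (ω (y t)) := by
        apply sum_le_sum_of_subset_of_nonneg (subset_univ _)
        intro ω _ _
        exact prod_nonneg (fun t _ => hf0 _ _)

open Classical in
/-- Lower tail. -/
theorem tail_lower {ι β τ : Type*} [Fintype ι] [DecidableEq ι] [Fintype β] [Nonempty β] (T : Finset τ)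
    (y : τ → ι) (hy : Set.InjOn y T) (A : τ → β → Prop) (q : ℝ) (_hq : q ≤ 1)
    (hA : ∀ t ∈ T, q * Fintype.card β ≤ ((univ.filter (A t)).card : ℝ)) (m : ℕ) :
    (((univ.filter (fun ω : ι → β => (T.filter (fun t => A t (ω (y t)))).card < m)).card : ℕ) : ℝ)
      ≤ 2 ^ m * ((1 - q / 2) ^ T.card * Fintype.card (ι → β)) := by
  classical
  set f : τ → β → ℝ := fun t b => if A t b then 1 / 2 else 1 with hf
  have hc : (0 : ℝ) < Fintype.card β := by exact_mod_cast Fintype.card_pos
  have h1 := prod_formula T y hy f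
  have hf0 : ∀ t b, 0 ≤ f t b := by
    intro t b; simp only [hf]; split_ifs <;> norm_num
  have h2 : ∏ t ∈ T, ∑ b, f t b ≤ ((1 - q / 2) * Fintype.card β) ^ T.card := by
    rw [← prod_const]
    apply prod_le_prod
    · intro t _; exact sum_nonneg (fun b _ => hf0 t b)
    · intro t ht
      have e1 : ∑ b, f t b = ∑ b, (1 - (if A t b then (1 / 2 : ℝ) else 0)) := by
        apply sum_congr rfl
        intro b _
        simp only [hf]
        split_ifs <;> norm_num
      have e2 : ∑ b, (1 - (if A t b then (1 / 2 : ℝ) else 0)) = Fintype.card β -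
          1 / 2 * ((univ.filter (A t)).card : ℝ) := by
        rw [sum_sub_distrib, ← sum_filter]
        simp [mul_comm]
      have := hA t ht
      rw [e1, e2]
      linarith
  have h3 : (Fintype.card β : ℝ) ^ T.card * ∑ ω : ι → β, ∏ t ∈ T, f t (ω (y t)) ≤
      (Fintype.card β : ℝ) ^ T.card * ((1 - q / 2) ^ T.card * Fintype.card (ι → β)) := by
    rw [h1]
    calc (∏ t ∈ T, ∑ b, f t b) * (Fintype.card (ι → β) : ℝ)
        ≤ ((1 - q / 2) * Fintype.card β) ^ T.card * (Fintype.card (ι → β) : ℝ) :=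
          mul_le_mul_of_nonneg_right h2 (Nat.cast_nonneg _)
      _ = _ := by rw [mul_pow]; ring
  have h4 := le_of_mul_le_mul_left h3 (by positivity)
  have h5 : ∀ ω : ι → β, ∏ t ∈ T, f t (ω (y t)) =
      (1 / 2) ^ (T.filter (fun t => A t (ω (y t)))).card := by
    intro ω
    simp only [hf]
    rw [prod_ite]
    simp
  have h6 : (1 / 2 : ℝ) ^ m * (((univ.filter (fun ω : ι → β => (T.filter (fun t => A t (ω (y t)))).card < m)).card : ℕ) : ℝ)
      ≤ (1 - q / 2) ^ T.card * Fintype.card (ι → β) := by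
    refine le_trans ?_ h4
    calc (1 / 2 : ℝ) ^ m * (((univ.filter (fun ω : ι → β => (T.filter (fun t => A t (ω (y t)))).card < m)).card : ℕ) : ℝ)
        = ∑ ω ∈ univ.filter (fun ω : ι → β => (T.filter (fun t => A t (ω (y t)))).card < m),
            (1 / 2 : ℝ) ^ m := by
          simp [mul_comm]
      _ ≤ ∑ ω ∈ univ.filter (fun ω : ι → β => (T.filter (fun t => A t (ω (y t)))).card < m),
            ∏ t ∈ T, f t (ω (y t)) := by
          apply sum_le_sum
          intro ω hω
          rw [h5]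
          exact pow_le_pow_of_le_one (by norm_num) (by norm_num) (mem_filter.1 hω).2.le
      _ ≤ ∑ ω : ι → β, ∏ t ∈ T, f t (ω (y t)) := by
          apply sum_le_sum_of_subset_of_nonneg (subset_univ _)
          intro ω _ _
          exact prod_nonneg (fun t _ => hf0 _ _)
  have h7 := mul_le_mul_of_nonneg_left h6 (by positivity : (0 : ℝ) ≤ 2 ^ m)
  have h8 : (2 : ℝ) ^ m * (1 / 2) ^ m = 1 := by
    rw [← mul_pow]; norm_num
  rwa [← mul_assoc, h8, one_mul] at h7

open Classical in
/-- Union bound. -/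
theorem card_exists_le {Ω κ : Type*} [Fintype Ω] [Fintype κ] (B : κ → Ω → Prop) (δ : ℝ)
    (h : ∀ i, (((univ.filter (B i)).card : ℕ) : ℝ) ≤ δ) :
    (((univ.filter (fun ω => ∃ i, B i ω)).card : ℕ) : ℝ) ≤ Fintype.card κ * δ := by
  classical
  have h1 : univ.filter (fun ω => ∃ i, B i ω) ⊆ (univ : Finset κ).biUnion (fun i => univ.filter (B i)) := by
    intro ω hω
    simpa using hω
  have h2 := (card_le_card h1).trans card_biUnion_le
  calc (((univ.filter (fun ω => ∃ i, B i ω)).card : ℕ) : ℝ)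
      ≤ ((∑ i : κ, (univ.filter (B i)).card : ℕ) : ℝ) := by exact_mod_cast h2
    _ = ∑ i : κ, ((univ.filter (B i)).card : ℝ) := by push_cast; rfl
    _ ≤ ∑ i : κ, δ := sum_le_sum (fun i _ => h i)
    _ = Fintype.card κ * δ := by simp

end Pool.MP_0ccee8_co.Lib
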