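import Mathlib
import Pool.Agent.Lib.MP_0ccee8_co.Low1
import Pool.Agent.Lib.MP_0ccee8_co.Link
import Pool.Agent.Lib.MP_0ccee8_co.Tail

/-!
# Simultaneous linking of all the families at a low level
-/

set_option autoImplicit false

namespace Pool.MP_0ccee8_co.Lib

open Finset

variable {n : ℕ}

/-- Simultaneous linking property. -/
def LL (n k K : ℕ) : Prop :=
  ∀ ζ : Fin K → (Lev n (k + 1) ≃ Lev n (k + 1)),
    ∃ (u : Fin K → Lev n k → Lev n (k + 1)) (τ : Fin K → (Lev n k ≃ Lev n k)),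
      (∀ i, Function.Injective (u i)) ∧
      (∀ i a, a.1 ⊆ (u i a).1 ∧ (τ i a).1 ⊆ (ζ i (u i a)).1) ∧
      (∀ i i' a a', i ≠ i' → u i a ≠ u i' a' ∧ ζ i (u i a) ≠ ζ i' (u i' a'))

open Classical in
theorem card_exists_sum {Ω κ : Type*} [Fintype Ω] [Fintype κ] (B : κ → Ω → Prop) (g : κ → ℝ)
    (h : ∀ i, (((univ.filter (B i)).card : ℕ) : ℝ) ≤ g i) :
    (((univ.filter (fun ω => ∃ i, B i ω)).card : ℕ) : ℝ) ≤ ∑ i, g i := by
  classical
  have h1 : univ.filter (fun ω => ∃ i, B i ω) ⊆ (univ : Finset κ).biUnion (fun i => univ.filter (B i)) := by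
    intro ω hω
    simpa using hω
  have h2 := (card_le_card h1).trans card_biUnion_le
  calc (((univ.filter (fun ω => ∃ i, B i ω)).card : ℕ) : ℝ)
      ≤ ((∑ i : κ, (univ.filter (B i)).card : ℕ) : ℝ) := by exact_mod_cast h2
    _ = ∑ i : κ, ((univ.filter (B i)).card : ℝ) := by push_cast; rfl
    _ ≤ ∑ i : κ, g i := sum_le_sum (fun i _ => h i)

/-- Reorganising a pair of colourings along `ζ`. -/
def pairEquiv {B κ : Type*} (ζ : B ≃ B) : ((B → κ) × (B → κ)) ≃ (B → κ × κ) where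
  toFun ω := fun b => (ω.1 b, ω.2 (ζ b))
  invFun f := (fun b => (f b).1, fun b => (f (ζ.symm b)).2)
  left_inv ω := by
    ext b <;> simp
  right_inv f := by
    funext b
    simp

open Classical in
theorem colour_tail {B : Type*} [Fintype B] [DecidableEq B] {K L z : ℕ} (hK : 1 ≤ K) (ζ : B ≃ B)
    (i : Fin K) (Y : Finset B) (hY : L * z ≤ Y.card) :
    (((univ.filter (fun ω : (B → Fin K) × (B → Fin K) =>
      (Y.filter (fun b => ω.1 b = i ∧ ω.2 (ζ b) = i)).card < z)).card : ℕ) : ℝ) ≤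
      (2 * (1 - 1 / (K : ℝ) ^ 2 / 2) ^ L) ^ z * Fintype.card ((B → Fin K) × (B → Fin K)) := by
  have hKR : (1 : ℝ) ≤ K := by exact_mod_cast hK
  have hK2 : (1 : ℝ) ≤ (K : ℝ) ^ 2 := one_le_pow₀ hKR
  have hK2' : 1 / (K : ℝ) ^ 2 ≤ 1 := by rw [div_le_one (by positivity)]; exact hK2
  have hK2'' : 0 ≤ 1 / (K : ℝ) ^ 2 := by positivity
  have : Nonempty (Fin K × Fin K) := ⟨(i, i)⟩
  have ht := tail_lower (ι := B) (β := Fin K × Fin K) Y id (Set.injOn_id _)
    (fun _ c => c = (i, i)) (1 / (K : ℝ) ^ 2) hK2'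
    (fun t _ => by
      have h1 : (univ.filter (fun c : Fin K × Fin K => c = (i, i))).card = 1 := by
        rw [card_eq_one]
        exact ⟨(i, i), by ext c; simp⟩
      have h2 : (((univ.filter (fun c : Fin K × Fin K => c = (i, i))).card : ℕ) : ℝ) = 1 := by
        rw [h1]; simp
      rw [Fintype.card_prod, Fintype.card_fin]
      refine le_trans (le_of_eq ?_) (le_of_eq h2.symm |>.trans (le_of_eq ?_))
      · push_cast; field_simp
      · congr!) z
  have hcard : (univ.filter (fun ω : (B → Fin K) × (B → Fin K) =>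
      (Y.filter (fun b => ω.1 b = i ∧ ω.2 (ζ b) = i)).card < z)).card =
      (univ.filter (fun ω : B → Fin K × Fin K =>
        (Y.filter (fun t => ω (id t) = (i, i))).card < z)).card := by
    apply Finset.card_equiv (pairEquiv ζ)
    intro ω
    simp only [mem_filter, mem_univ, true_and, pairEquiv, Equiv.coe_fn_mk, id_eq, Prod.mk.injEq]
  have hcard2 : Fintype.card ((B → Fin K) × (B → Fin K)) = Fintype.card (B → Fin K × Fin K) :=
    Fintype.card_congr (pairEquiv ζ)
  rw [hcard, hcard2]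
  refine le_trans (le_trans (le_of_eq ?_) ht) ?_
  · congr!
  · rw [← mul_assoc]
    apply mul_le_mul_of_nonneg_right _ (Nat.cast_nonneg _)
    rw [mul_pow, ← pow_mul]
    apply mul_le_mul_of_nonneg_left _ (by positivity)
    exact pow_le_pow_of_le_one (by linarith) (by linarith) hY

theorem sum_bound {A : Type*} [Fintype A] [DecidableEq A] {K : ℕ} (hK : 1 ≤ K)
    (hN : 1 ≤ Fintype.card A) {γ : ℝ} (hγ : γ = 1 / (8 * K * Fintype.card A)) :
    ∑ p : Fin K × (Finset A × Finset A), (if p.2.1 = ∅ then 0 else γ ^ p.2.1.card * γ ^ p.2.2.card)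
      ≤ 5 / 16 := by
  classical
  have hKR : (1 : ℝ) ≤ K := by exact_mod_cast hK
  have hNR : (1 : ℝ) ≤ Fintype.card A := by exact_mod_cast hN
  have hγ0 : 0 < γ := by rw [hγ]; positivity
  have hNγ : (Fintype.card A : ℝ) * γ = 1 / (8 * K) := by
    rw [hγ]; field_simp
  have h8 : (1 : ℝ) / (8 * K) ≤ 1 / 8 := by
    rw [div_le_div_iff₀ (by positivity) (by norm_num)]; linarith
  have h1 : ∑ s : Finset A, γ ^ s.card = (γ + 1) ^ Fintype.card A := by
    have := Fintype.sum_pow_mul_eq_add_pow A γ 1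
    simpa using this
  have h2 : ∑ s : Finset A, (if s = ∅ then (0 : ℝ) else γ ^ s.card) = (γ + 1) ^ Fintype.card A - 1 := by
    rw [← h1, ← Finset.sum_erase_add _ _ (mem_univ (∅ : Finset A)),
      ← Finset.sum_erase_add (univ : Finset (Finset A)) (fun s => γ ^ s.card) (mem_univ (∅ : Finset A))]
    simp only [if_true, add_zero, card_empty, pow_zero, add_sub_cancel_right]
    apply sum_congr rfl
    intro s hs
    rw [if_neg (ne_of_mem_erase hs)]
  have h3 : (γ + 1) ^ Fintype.card A ≤ 1 + 2 * (1 / (8 * K)) := by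
    calc (γ + 1) ^ Fintype.card A ≤ Real.exp γ ^ Fintype.card A :=
          pow_le_pow_left₀ (by positivity) (Real.add_one_le_exp γ) _
      _ = Real.exp (1 / (8 * K)) := by rw [← Real.exp_nat_mul, hNγ]
      _ ≤ 1 + 2 * (1 / (8 * K)) := by
          have hx : |(1 : ℝ) / (8 * K)| ≤ 1 := by
            rw [abs_of_nonneg (by positivity)]; linarith
          have := Real.abs_exp_sub_one_le hx
          rw [abs_of_nonneg (a := (1 : ℝ) / (8 * K)) (by positivity)] at this
          have h4 := le_abs_self (Real.exp (1 / (8 * K)) - 1)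
          linarith
  have h4 : 1 ≤ (γ + 1) ^ Fintype.card A := one_le_pow₀ (by linarith)
  rw [Fintype.sum_prod_type]
  simp only [sum_const, card_univ, Fintype.card_fin, nsmul_eq_mul]
  rw [Fintype.sum_prod_type]
  have h5 : ∑ x : Finset A, ∑ y : Finset A, (if x = ∅ then (0 : ℝ) else γ ^ x.card * γ ^ y.card) =
      ((γ + 1) ^ Fintype.card A - 1) * (γ + 1) ^ Fintype.card A := by
    rw [← h2, sum_mul]
    apply sum_congr rfl
    intro s _
    rw [← h1, mul_sum]
    apply sum_congr rfl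
    intro t _
    split_ifs <;> simp
  rw [h5]
  have h6 : (γ + 1) ^ Fintype.card A - 1 ≤ 1 / (4 * K) := by
    have : (2 : ℝ) * (1 / (8 * K)) = 1 / (4 * K) := by field_simp; norm_num
    linarith
  have h7 : (γ + 1) ^ Fintype.card A ≤ 5 / 4 := by linarith
  calc (K : ℝ) * (((γ + 1) ^ Fintype.card A - 1) * (γ + 1) ^ Fintype.card A)
      ≤ K * (1 / (4 * K) * (5 / 4)) := by
        apply mul_le_mul_of_nonneg_left _ (by positivity)
        exact mul_le_mul h6 h7 (by positivity) (by positivity)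
    _ = 5 / 16 := by field_simp; norm_num

theorem LL_of {k K L : ℕ} (hK : 1 ≤ K) (hn : 3 * (k + 1) ^ 2 ≤ n) (hL : 6 * (k + 1) ^ 2 * L ≤ n - k)
    (hβ : 2 * (1 - 1 / (K : ℝ) ^ 2 / 2) ^ L ≤ (1 / (8 * K * Fintype.card (Lev n k))) ^ 2) :
    LL n k K := by
  classical
  intro ζ
  have hkn : k ≤ n := by nlinarith
  have hN : 1 ≤ Fintype.card (Lev n k) := by
    rw [Fintype.card_finset_len, Fintype.card_fin]
    exact Nat.choose_pos hkn
  have hKR : (1 : ℝ) ≤ K := by exact_mod_cast hK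
  have hNR : (1 : ℝ) ≤ Fintype.card (Lev n k) := by exact_mod_cast hN
  set γ : ℝ := 1 / (8 * K * Fintype.card (Lev n k)) with hγ
  have hγ0 : 0 < γ := by rw [hγ]; positivity
  have hγ1 : γ ≤ 1 := by
    rw [hγ, div_le_one (by positivity)]
    nlinarith
  have hβ0 : 0 ≤ 2 * (1 - 1 / (K : ℝ) ^ 2 / 2) ^ L := by
    have hK2 : (1 : ℝ) ≤ (K : ℝ) ^ 2 := one_le_pow₀ hKR
    have hK2' : 1 / (K : ℝ) ^ 2 ≤ 1 := by rw [div_le_one (by positivity)]; exact hK2
    have : 0 ≤ 1 - 1 / (K : ℝ) ^ 2 / 2 := by linarith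
    positivity
  set W : ℝ := (Fintype.card ((Lev n (k + 1) → Fin K) × (Lev n (k + 1) → Fin K)) : ℝ) with hW
  have hW0 : 0 < W := by
    have : Nonempty (Fin K) := ⟨⟨0, hK⟩⟩
    have : 0 < Fintype.card ((Lev n (k + 1) → Fin K) × (Lev n (k + 1) → Fin K)) := Fintype.card_pos
    rw [hW]; exact_mod_cast this
  -- the sets in question
  let Y : (Lev n (k + 1) ≃ Lev n (k + 1)) → Finset (Lev n k) → Finset (Lev n k) →
      Finset (Lev n (k + 1)) := fun z Z P =>
    univ.filter (fun b : Lev n (k + 1) => (∃ a ∈ Z, a.1 ⊆ b.1) ∧ ∃ a : Lev n k, a ∉ P ∧ a.1 ⊆ (z b).1)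
  -- bad events
  have hbound : ∀ (z : Lev n (k + 1) ≃ Lev n (k + 1)) (i : Fin K) (Z P : Finset (Lev n k)),
      (((univ.filter (fun ω : (Lev n (k + 1) → Fin K) × (Lev n (k + 1) → Fin K) =>
        P.card < Z.card ∧ 2 * P.card ≤ Fintype.card (Lev n k) ∧
        ((Y z Z P).filter (fun b => ω.1 b = i ∧ ω.2 (z b) = i)).card < Z.card)).card : ℕ) : ℝ) ≤
      (if Z = ∅ then 0 else γ ^ Z.card * γ ^ P.card) * W := by
    intro z i Z P
    by_cases h1 : P.card < Z.card ∧ 2 * P.card ≤ Fintype.card (Lev n k)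
    · have hZ : Z ≠ ∅ := by
        rintro rfl
        simp at h1
      rw [if_neg hZ]
      have h2 := colour_tail (z := Z.card) hK z i (Y z Z P) (expansion hn hL z Z P h1.1.le h1.2)
      simp only [h1.1, h1.2, true_and]
      refine le_trans (le_trans (le_of_eq ?_) h2) ?_
      · congr!
      · rw [← hW]
        apply mul_le_mul_of_nonneg_right _ hW0.le
        calc (2 * (1 - 1 / (K : ℝ) ^ 2 / 2) ^ L) ^ Z.card ≤ (γ ^ 2) ^ Z.card :=
              pow_le_pow_left₀ hβ0 hβ _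
          _ = γ ^ Z.card * γ ^ Z.card := by rw [← pow_mul, two_mul, pow_add]
          _ ≤ γ ^ Z.card * γ ^ P.card := by
              apply mul_le_mul_of_nonneg_left _ (by positivity)
              exact pow_le_pow_of_le_one hγ0.le hγ1 h1.1.le
    · have : univ.filter (fun ω : (Lev n (k + 1) → Fin K) × (Lev n (k + 1) → Fin K) =>
        P.card < Z.card ∧ 2 * P.card ≤ Fintype.card (Lev n k) ∧
        ((Y z Z P).filter (fun b => ω.1 b = i ∧ ω.2 (z b) = i)).card < Z.card) = ∅ := by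
        rw [filter_eq_empty_iff]
        rintro ω _ ⟨h2, h3, _⟩
        exact h1 ⟨h2, h3⟩
      rw [this, card_empty, Nat.cast_zero]
      split_ifs <;> positivity
  have hbound' : ∀ (z : Lev n (k + 1) ≃ Lev n (k + 1)) (i : Fin K) (Z P : Finset (Lev n k)),
      (((univ.filter (fun ω : (Lev n (k + 1) → Fin K) × (Lev n (k + 1) → Fin K) =>
        P.card < Z.card ∧ 2 * P.card ≤ Fintype.card (Lev n k) ∧
        ((Y z Z P).filter (fun b => ω.2 b = i ∧ ω.1 (z b) = i)).card < Z.card)).card : ℕ) : ℝ) ≤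
      (if Z = ∅ then 0 else γ ^ Z.card * γ ^ P.card) * W := by
    intro z i Z P
    rw [← Finset.card_equiv (Equiv.prodComm _ _) (s := univ.filter
      (fun ω : (Lev n (k + 1) → Fin K) × (Lev n (k + 1) → Fin K) =>
        P.card < Z.card ∧ 2 * P.card ≤ Fintype.card (Lev n k) ∧
        ((Y z Z P).filter (fun b => ω.1 b = i ∧ ω.2 (z b) = i)).card < Z.card)) (by
        intro ω
        simp only [mem_filter, mem_univ, true_and, Equiv.prodComm_apply, Prod.fst_swap,
          Prod.snd_swap])]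
    exact hbound z i Z P
  have hE1 := card_exists_sum
    (fun (p : Fin K × (Finset (Lev n k) × Finset (Lev n k)))
      (ω : (Lev n (k + 1) → Fin K) × (Lev n (k + 1) → Fin K)) =>
        p.2.2.card < p.2.1.card ∧ 2 * p.2.2.card ≤ Fintype.card (Lev n k) ∧
        ((Y (ζ p.1) p.2.1 p.2.2).filter (fun b => ω.1 b = p.1 ∧ ω.2 (ζ p.1 b) = p.1)).card <
          p.2.1.card)
    (fun p => (if p.2.1 = ∅ then 0 else γ ^ p.2.1.card * γ ^ p.2.2.card) * W)
    (fun p => by
      refine le_trans (le_of_eq ?_) (hbound (ζ p.1) p.1 p.2.1 p.2.2)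
      congr!)
  have hE2 := card_exists_sum
    (fun (p : Fin K × (Finset (Lev n k) × Finset (Lev n k)))
      (ω : (Lev n (k + 1) → Fin K) × (Lev n (k + 1) → Fin K)) =>
        p.2.2.card < p.2.1.card ∧ 2 * p.2.2.card ≤ Fintype.card (Lev n k) ∧
        ((Y (ζ p.1).symm p.2.1 p.2.2).filter
          (fun b => ω.2 b = p.1 ∧ ω.1 ((ζ p.1).symm b) = p.1)).card < p.2.1.card)
    (fun p => (if p.2.1 = ∅ then 0 else γ ^ p.2.1.card * γ ^ p.2.2.card) * W)
    (fun p => by
      refine le_trans (le_of_eq ?_) (hbound' (ζ p.1).symm p.1 p.2.1 p.2.2)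
      congr!)
  rw [← sum_mul] at hE1 hE2
  have hS := sum_bound (A := Lev n k) hK hN hγ
  have hSW := mul_le_mul_of_nonneg_right hS hW0.le
  -- a good colouring
  have hex : ∃ ω : (Lev n (k + 1) → Fin K) × (Lev n (k + 1) → Fin K),
      (¬ ∃ p : Fin K × (Finset (Lev n k) × Finset (Lev n k)),
        p.2.2.card < p.2.1.card ∧ 2 * p.2.2.card ≤ Fintype.card (Lev n k) ∧
        ((Y (ζ p.1) p.2.1 p.2.2).filter (fun b => ω.1 b = p.1 ∧ ω.2 (ζ p.1 b) = p.1)).card <
          p.2.1.card) ∧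
      (¬ ∃ p : Fin K × (Finset (Lev n k) × Finset (Lev n k)),
        p.2.2.card < p.2.1.card ∧ 2 * p.2.2.card ≤ Fintype.card (Lev n k) ∧
        ((Y (ζ p.1).symm p.2.1 p.2.2).filter
          (fun b => ω.2 b = p.1 ∧ ω.1 ((ζ p.1).symm b) = p.1)).card < p.2.1.card) := by
    by_contra hcon
    have hall : (univ : Finset ((Lev n (k + 1) → Fin K) × (Lev n (k + 1) → Fin K))) ⊆
        (univ.filter (fun ω => ∃ p : Fin K × (Finset (Lev n k) × Finset (Lev n k)),
        p.2.2.card < p.2.1.card ∧ 2 * p.2.2.card ≤ Fintype.card (Lev n k) ∧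
        ((Y (ζ p.1) p.2.1 p.2.2).filter (fun b => ω.1 b = p.1 ∧ ω.2 (ζ p.1 b) = p.1)).card <
          p.2.1.card)) ∪
        (univ.filter (fun ω => ∃ p : Fin K × (Finset (Lev n k) × Finset (Lev n k)),
        p.2.2.card < p.2.1.card ∧ 2 * p.2.2.card ≤ Fintype.card (Lev n k) ∧
        ((Y (ζ p.1).symm p.2.1 p.2.2).filter
          (fun b => ω.2 b = p.1 ∧ ω.1 ((ζ p.1).symm b) = p.1)).card < p.2.1.card)) := by
      intro ω _
      by_contra hω
      apply hcon
      refine ⟨ω, ?_, ?_⟩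
      · intro h
        exact hω (mem_union_left _ (mem_filter.2 ⟨mem_univ _, h⟩))
      · intro h
        exact hω (mem_union_right _ (mem_filter.2 ⟨mem_univ _, h⟩))
    have h1 := (card_le_card hall).trans (card_union_le _ _)
    rw [card_univ] at h1
    have h2 : W ≤ (((univ.filter (fun ω : (Lev n (k + 1) → Fin K) × (Lev n (k + 1) → Fin K) =>
        ∃ p : Fin K × (Finset (Lev n k) × Finset (Lev n k)),
        p.2.2.card < p.2.1.card ∧ 2 * p.2.2.card ≤ Fintype.card (Lev n k) ∧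
        ((Y (ζ p.1) p.2.1 p.2.2).filter (fun b => ω.1 b = p.1 ∧ ω.2 (ζ p.1 b) = p.1)).card <
          p.2.1.card)).card : ℕ) : ℝ) +
        (((univ.filter (fun ω : (Lev n (k + 1) → Fin K) × (Lev n (k + 1) → Fin K) =>
        ∃ p : Fin K × (Finset (Lev n k) × Finset (Lev n k)),
        p.2.2.card < p.2.1.card ∧ 2 * p.2.2.card ≤ Fintype.card (Lev n k) ∧
        ((Y (ζ p.1).symm p.2.1 p.2.2).filter
          (fun b => ω.2 b = p.1 ∧ ω.1 ((ζ p.1).symm b) = p.1)).card < p.2.1.card)).card : ℕ) : ℝ) := by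
      rw [hW]; exact_mod_cast h1
    have h3 : W ≤ 5 / 16 * W + 5 / 16 * W := by
      refine le_trans h2 (add_le_add ?_ ?_)
      · refine le_trans (le_trans (le_of_eq ?_) hE1) hSW
        congr!
      · refine le_trans (le_trans (le_of_eq ?_) hE2) hSW
        congr!
    linarith
  obtain ⟨ω, hω1, hω2⟩ := hex
  have hlink : ∀ i : Fin K, ∃ (u : Lev n k → Lev n (k + 1)) (τ : Lev n k ≃ Lev n k),
      Function.Injective u ∧ ∀ a, (a.1 ⊆ (u a).1 ∧ ω.1 (u a) = i) ∧
        ((τ a).1 ⊆ (ζ i (u a)).1 ∧ ω.2 (ζ i (u a)) = i) := by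
    intro i
    apply link_hall (fun (a : Lev n k) (b : Lev n (k + 1)) => a.1 ⊆ b.1 ∧ ω.1 b = i)
      (fun (a : Lev n k) (b : Lev n (k + 1)) => a.1 ⊆ b.1 ∧ ω.2 b = i) (ζ i)
    intro Z P
    by_cases hPZ : P.card < Z.card
    · by_cases h2 : 2 * P.card ≤ Fintype.card (Lev n k)
      · refine ⟨(Y (ζ i) Z P).filter (fun b => ω.1 b = i ∧ ω.2 (ζ i b) = i), ?_, ?_⟩
        · intro b hb
          simp only [Y, mem_filter, mem_univ, true_and] at hb
          obtain ⟨⟨⟨a, ha, hab⟩, ⟨a', ha', hab'⟩⟩, h3, h4⟩ := hb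
          exact ⟨⟨a, ha, hab, h3⟩, ⟨a', ha', hab', h4⟩⟩
        · have h3 : ¬ ((Y (ζ i) Z P).filter (fun b => ω.1 b = i ∧ ω.2 (ζ i b) = i)).card < Z.card :=
            fun h => hω1 ⟨(i, (Z, P)), hPZ, h2, h⟩
          omega
      · have hPc : (Pᶜ).card = Fintype.card (Lev n k) - P.card := card_compl P
        have hZc : (Zᶜ).card = Fintype.card (Lev n k) - Z.card := card_compl Z
        have hZle : Z.card ≤ Fintype.card (Lev n k) := card_le_univ Z
        refine ⟨((Y (ζ i).symm Pᶜ Zᶜ).filter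
          (fun b => ω.2 b = i ∧ ω.1 ((ζ i).symm b) = i)).map (ζ i).symm.toEmbedding, ?_, ?_⟩
        · intro b hb
          rw [mem_map] at hb
          obtain ⟨b', hb', rfl⟩ := hb
          simp only [Y, mem_filter, mem_univ, true_and, mem_compl, not_not] at hb'
          obtain ⟨⟨⟨a, ha, hab⟩, ⟨a', ha', hab'⟩⟩, h3, h4⟩ := hb'
          simp only [Equiv.coe_toEmbedding, Equiv.apply_symm_apply]
          exact ⟨⟨a', ha', hab', h4⟩, ⟨a, ha, hab, h3⟩⟩
        · rw [card_map]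
          have h3 : ¬ ((Y (ζ i).symm Pᶜ Zᶜ).filter
            (fun b => ω.2 b = i ∧ ω.1 ((ζ i).symm b) = i)).card < (Pᶜ).card :=
            fun h => hω2 ⟨(i, (Pᶜ, Zᶜ)), by simp only; omega, by simp only; omega, h⟩
          omega
    · exact ⟨∅, by simp, by simp; omega⟩
  choose u τ hu huτ using hlink
  refine ⟨u, τ, hu, fun i a => ⟨(huτ i a).1.1, (huτ i a).2.1⟩, ?_⟩
  intro i i' a a' hne
  constructor
  · intro h
    apply hne
    rw [← (huτ i a).1.2, ← (huτ i' a').1.2, h]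
  · intro h
    apply hne
    rw [← (huτ i a).2.2, ← (huτ i' a').2.2, h]

end Pool.MP_0ccee8_co.Lib
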