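import Mathlib
import Pool.Agent.Lib.MP_0ccee8_co.Det
import Pool.Agent.Lib.MP_0ccee8_co.Tail

/-!
# Random reserved classes
-/

set_option autoImplicit false

namespace Pool.MP_0ccee8_co.Lib

open Finset

variable {n : ℕ}

/-- The rank of `x` in `y`. -/
def rk (y : Finset (Fin n)) (x : Fin n) : ℕ := (y.filter (· < x)).card

theorem rk_injOn (y : Finset (Fin n)) : Set.InjOn (rk y) y := by
  have key : ∀ x ∈ y, ∀ x', x < x' → rk y x < rk y x' := by
    intro x hx x' hlt
    unfold rk
    apply card_lt_card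
    rw [ssubset_iff_of_subset]
    · exact ⟨x, by simp [hx, hlt], by simp⟩
    · intro z hz
      simp only [mem_filter] at hz ⊢
      exact ⟨hz.1, hz.2.trans hlt⟩
  intro x hx x' hx' h
  rcases lt_trichotomy x x' with hlt | heq | hlt
  · have := key x hx x' hlt
    omega
  · exact heq
  · have := key x' hx' x hlt
    omega

theorem rk_le (y : Finset (Fin n)) (x : Fin n) : rk y x ≤ y.card := card_filter_le _ _

/-- The reserved classes given by `ω`. -/
def HH {K M : ℕ} (ω : Finset (Fin n) → Fin K → Fin M) (j : Fin K) (v : Finset (Fin n)) (x : Fin n) :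
    Prop := (ω (insert x v) j).val = rk (insert x v) x % M

open Classical in
theorem down_card {K M : ℕ} (hM : 0 < M) (ω : Finset (Fin n) → Fin K → Fin M)
    (y : Finset (Fin n)) :
    (((y.filter (fun x => Any (HH ω) (y.erase x) x)).card : ℕ) : ℝ) ≤ K * ((y.card : ℝ) / M + 1) := by
  classical
  have hj : ∀ x, ∃ j : Option (Fin K), x ∈ y.filter (fun x => Any (HH ω) (y.erase x) x) →
      ∃ j', j = some j' ∧ HH ω j' (y.erase x) x := by
    intro x
    by_cases hx : x ∈ y.filter (fun x => Any (HH ω) (y.erase x) x)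
    · obtain ⟨j', hj'⟩ := (mem_filter.1 hx).2
      exact ⟨some j', fun _ => ⟨j', rfl, hj'⟩⟩
    · exact ⟨none, fun h => absurd h hx⟩
  choose f hf using hj
  have := card_le_of_map (y.filter (fun x => Any (HH ω) (y.erase x) x)) f (fun x => rk y x / M)
    (fun x hx x' hx' h1 h2 => by
      obtain ⟨j, hj1, hj2⟩ := hf x hx
      obtain ⟨j', hj1', hj2'⟩ := hf x' hx'
      have hxy := (mem_filter.1 hx).1
      have hxy' := (mem_filter.1 hx').1
      have hjj : j = j' := by
        rw [hj1, hj1'] at h1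
        exact Option.some.inj h1
      subst hjj
      unfold HH at hj2 hj2'
      rw [insert_erase hxy] at hj2
      rw [insert_erase hxy'] at hj2'
      rw [hj2] at hj2'
      have e1 := Nat.div_add_mod (rk y x) M
      have e2 := Nat.div_add_mod (rk y x') M
      apply rk_injOn y hxy hxy'
      rw [← e1, ← e2, hj2', h2])
    ((univ : Finset (Fin K)).map Function.Embedding.some) (fun _ => range (y.card / M + 1))
    (fun x hx => by
      obtain ⟨j, hj1, _⟩ := hf x hx
      rw [hj1]; simp)
    (fun x hx => by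
      simp only [mem_range]
      exact Nat.lt_succ_of_le (Nat.div_le_div_right (rk_le y x)))
    ((y.card : ℝ) / M + 1)
    (fun _ _ => by
      rw [card_range]
      push_cast
      have := @Nat.cast_div_le ℝ _ _ _ y.card M
      linarith)
  simpa using this

theorem card_val_eq {M : ℕ} (hM : 0 < M) (r : ℕ) :
    (univ.filter (fun b : Fin M => b.val = r % M)).card = 1 := by
  rw [card_eq_one]
  refine ⟨⟨r % M, Nat.mod_lt _ hM⟩, ?_⟩
  ext b
  simp [Fin.ext_iff]

open Classical in
theorem card_coord {K M : ℕ} (hM : 0 < M) (j : Fin K) (r : ℕ) :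
    (M : ℝ) * ((univ.filter (fun c : Fin K → Fin M => (c j).val = r % M)).card : ℝ) =
      Fintype.card (Fin K → Fin M) := by
  classical
  have h := indep_sum (Ω := Fin K → Fin M) (fun c => c j) (fun c b => Function.update c j b)
    (fun c b => by simp) (fun c b => by simp) (fun b => if b.val = r % M then (1 : ℝ) else 0)
    (fun _ => 1) (fun _ _ => rfl)
  simp only [Fintype.card_fin, mul_one, sum_boole] at h
  rw [card_val_eq hM] at h
  simp only [Nat.cast_one, one_mul, sum_const, card_univ, nsmul_eq_mul, mul_one] at h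
  exact h

open Classical in
theorem card_any {K M : ℕ} (hM : 0 < M) (r : ℕ) :
    (M : ℝ) * ((univ.filter (fun c : Fin K → Fin M => ∃ j, (c j).val = r % M)).card : ℝ) ≤
      K * Fintype.card (Fin K → Fin M) := by
  have hM' : (0 : ℝ) < M := by exact_mod_cast hM
  have h := card_exists_le (fun (j : Fin K) (c : Fin K → Fin M) => (c j).val = r % M)
    ((Fintype.card (Fin K → Fin M) : ℝ) / M)
    (fun j => by
      rw [le_div_iff₀ hM', mul_comm]
      have := card_coord hM j r
      refine le_of_eq ?_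
      rw [← this]
      congr!)
  rw [Fintype.card_fin] at h
  calc (M : ℝ) * ((univ.filter (fun c : Fin K → Fin M => ∃ j, (c j).val = r % M)).card : ℝ)
      ≤ M * (K * ((Fintype.card (Fin K → Fin M) : ℝ) / M)) := by
        refine mul_le_mul_of_nonneg_left (le_trans (le_of_eq ?_) h) hM'.le
        congr!
    _ = K * Fintype.card (Fin K → Fin M) := by
        field_simp

theorem bound_aux {B W cnt N : ℝ} {m t : ℕ} (hN : 0 < N) (hW : 0 ≤ W)
    (h : B ^ m * cnt ≤ 2 ^ t * W) (h2 : 2 ^ t * (8 * N) ≤ B ^ m) : cnt ≤ W / (8 * N) := by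
  have h3 : (0 : ℝ) < 2 ^ t * (8 * N) := by positivity
  have h4 : 0 < B ^ m := lt_of_lt_of_le h3 h2
  rw [le_div_iff₀ (by positivity)]
  by_cases hc : 0 ≤ cnt
  · have h5 : 2 ^ t * (cnt * (8 * N)) ≤ 2 ^ t * W := by
      calc 2 ^ t * (cnt * (8 * N)) = (2 ^ t * (8 * N)) * cnt := by ring
        _ ≤ B ^ m * cnt := mul_le_mul_of_nonneg_right h2 hc
        _ ≤ _ := h
    exact le_of_mul_le_mul_left h5 (by positivity)
  · push Not at hc
    nlinarith [mul_pos (neg_pos.2 hc) hN]

open Classical in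
theorem card_any' {K M : ℕ} (hK : 1 ≤ K) (hM : M = 2 ^ 128 * K) (r : ℕ) :
    (2 : ℝ) ^ 128 * ((univ.filter (fun c : Fin K → Fin M => ∃ j, (c j).val = r % M)).card : ℝ) ≤
      Fintype.card (Fin K → Fin M) := by
  have hK' : (0 : ℝ) < K := by exact_mod_cast hK
  have hM0 : 0 < M := by rw [hM]; positivity
  have h := card_any (K := K) hM0 r
  have hMR : (M : ℝ) = 2 ^ 128 * K := by rw [hM]; push_cast; ring
  rw [hMR] at h
  have h2 : (K : ℝ) * (2 ^ 128 * ((univ.filter (fun c : Fin K → Fin M => ∃ j, (c j).val = r % M)).card : ℝ))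
      ≤ K * Fintype.card (Fin K → Fin M) := by
    calc _ = 2 ^ 128 * (K : ℝ) * ((univ.filter (fun c : Fin K → Fin M => ∃ j, (c j).val = r % M)).card : ℝ) := by
          ring
      _ ≤ _ := h
  exact le_of_mul_le_mul_left h2 hK'

open Classical in
theorem bad1 {k K M b0 : ℕ} (hK : 1 ≤ K) (hM : M = 2 ^ 128 * K) (hn : n = k + 1 + b0)
    (hkb : k ≤ b0) (hb5 : 5 ≤ b0) (v : Finset (Fin n)) (hv : v.card = k) :
    (((univ.filter (fun ω : Finset (Fin n) → Fin K → Fin M =>
      ¬ ((((univ.filter (fun x => x ∉ v ∧ Any (HH ω) v x)).card : ℕ) : ℝ) ≤ (b0 : ℝ) / 32))).card : ℕ) : ℝ)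
      ≤ Fintype.card (Finset (Fin n) → Fin K → Fin M) / (8 * 2 ^ n) := by
  have hM0 : 0 < M := by rw [hM]; positivity
  have : Nonempty (Fin M) := ⟨⟨0, hM0⟩⟩
  set m := b0 / 32 + 1 with hm
  have ht := tail_upper (ι := Finset (Fin n)) (β := Fin K → Fin M) vᶜ (fun x => insert x v)
    (fun x hx x' hx' h => insert_inj_of_notMem (by simpa using hx) (by simpa using hx') h)
    (fun x c => ∃ j, (c j).val = rk (insert x v) x % M) (2 ^ 128) (by norm_num)
    (fun x _ => by
      have := card_any' hK hM (rk (insert x v) x)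
      refine le_trans (le_of_eq ?_) this
      congr!) m
  have hvc : (vᶜ).card = b0 + 1 := by
    rw [card_compl, Fintype.card_fin, hv]; omega
  rw [hvc] at ht
  have hsub : (((univ.filter (fun ω : Finset (Fin n) → Fin K → Fin M =>
      ¬ ((((univ.filter (fun x => x ∉ v ∧ Any (HH ω) v x)).card : ℕ) : ℝ) ≤ (b0 : ℝ) / 32))).card : ℕ) : ℝ)
      ≤ (((univ.filter (fun ω : Finset (Fin n) → Fin K → Fin M =>
        m ≤ ((vᶜ).filter (fun t => ∃ j, (ω (insert t v) j).val = rk (insert t v) t % M)).card)).card : ℕ) : ℝ) := by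
    have : univ.filter (fun ω : Finset (Fin n) → Fin K → Fin M =>
      ¬ ((((univ.filter (fun x => x ∉ v ∧ Any (HH ω) v x)).card : ℕ) : ℝ) ≤ (b0 : ℝ) / 32)) ⊆
      univ.filter (fun ω : Finset (Fin n) → Fin K → Fin M =>
        m ≤ ((vᶜ).filter (fun t => ∃ j, (ω (insert t v) j).val = rk (insert t v) t % M)).card) := by
      intro ω hω
      simp only [mem_filter, mem_univ, true_and, not_le] at hω ⊢
      have h1 : (vᶜ).filter (fun t => ∃ j, (ω (insert t v) j).val = rk (insert t v) t % M) =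
          univ.filter (fun x => x ∉ v ∧ Any (HH ω) v x) := by
        ext x
        simp only [mem_filter, mem_compl, mem_univ, true_and]
        rfl
      rw [h1]
      by_contra hcon
      push Not at hcon
      have h2 : (univ.filter (fun x => x ∉ v ∧ Any (HH ω) v x)).card ≤ b0 / 32 := by omega
      have h3 : (((univ.filter (fun x => x ∉ v ∧ Any (HH ω) v x)).card : ℕ) : ℝ) ≤ ((b0 / 32 : ℕ) : ℝ) := by
        exact_mod_cast h2
      have h4 : ((b0 / 32 : ℕ) : ℝ) ≤ (b0 : ℝ) / 32 := by
        have := @Nat.cast_div_le ℝ _ _ _ b0 32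
        simpa using this
      linarith
    exact_mod_cast card_le_card this
  refine le_trans hsub ?_
  refine bound_aux (B := 2 ^ 128) (m := m) (t := b0 + 1) (by positivity) (by positivity) ?_ ?_
  · refine le_trans (le_of_eq ?_) ht
    congr!
  · have h1 : b0 + 1 + (3 + n) ≤ 128 * m := by omega
    calc (2 : ℝ) ^ (b0 + 1) * (8 * 2 ^ n) = 2 ^ (b0 + 1 + (3 + n)) := by
          rw [pow_add _ (b0 + 1), pow_add _ 3 n]; norm_num
      _ ≤ 2 ^ (128 * m) := pow_le_pow_right₀ (by norm_num) h1
      _ = (2 ^ 128) ^ m := by rw [pow_mul]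

theorem y_inj {v : Finset (Fin n)} {x : Fin n} (_hx : x ∉ v) :
    Set.InjOn (fun g : Fin n × Fin n => insert x (insert g.2 (v.erase g.1))) (Q v x) := by
  rintro ⟨a, b⟩ hg ⟨a', b'⟩ hg' h
  have hg := mem_Q.1 hg
  have hg' := mem_Q.1 hg'
  simp only at hg hg' h
  obtain ⟨h1, h2, h3⟩ := hg
  obtain ⟨h1', h2', h3'⟩ := hg'
  have hb : b = b' := by
    have : b ∈ insert x (insert b' (v.erase a')) := by rw [← h]; simp
    rw [mem_insert, mem_insert] at this
    rcases this with h | h | h
    · exact absurd h h2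
    · exact h
    · exact absurd (mem_of_mem_erase h) h3
  have ha : a = a' := by
    by_contra hne
    have : a ∈ insert x (insert b' (v.erase a')) := by
      apply mem_insert_of_mem
      apply mem_insert_of_mem
      exact mem_erase.2 ⟨hne, h1⟩
    rw [← h, mem_insert, mem_insert] at this
    rcases this with h | h | h
    · exact _hx (h ▸ h1)
    · exact h3 (h ▸ h1)
    · simp at h
  rw [ha, hb]

open Classical in
theorem bad2 {k K M b0 : ℕ} (hK : 1 ≤ K) (hM : M = 2 ^ 128 * K) (hn : n = k + 1 + b0)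
    (hk : 1 ≤ k) (hkb : k ≤ b0) (hb5 : 5 ≤ b0) (v : Finset (Fin n)) (hv : v.card = k) (x : Fin n)
    (hx : x ∉ v) :
    (((univ.filter (fun ω : Finset (Fin n) → Fin K → Fin M =>
      ¬ (((((Q v x).filter (fun g => Any (HH ω) (insert g.2 (v.erase g.1)) x)).card : ℕ) : ℝ) ≤
        (k : ℝ) * b0 / 8))).card : ℕ) : ℝ)
      ≤ Fintype.card (Finset (Fin n) → Fin K → Fin M) / (8 * 2 ^ (2 * n)) := by
  have hM0 : 0 < M := by rw [hM]; positivity
  have : Nonempty (Fin M) := ⟨⟨0, hM0⟩⟩
  set m := k * b0 / 8 + 1 with hm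
  have ht := tail_upper (ι := Finset (Fin n)) (β := Fin K → Fin M) (Q v x)
    (fun g => insert x (insert g.2 (v.erase g.1))) (y_inj hx)
    (fun g c => ∃ j, (c j).val = rk (insert x (insert g.2 (v.erase g.1))) x % M) (2 ^ 128)
    (by norm_num)
    (fun g _ => by
      have := card_any' hK hM (rk (insert x (insert g.2 (v.erase g.1))) x)
      refine le_trans (le_of_eq ?_) this
      congr!) m
  have hQ : (Q v x).card = k * b0 := by
    have h1 := card_Q hv hx
    have h2 : ((Q v x).card : ℝ) = ((k * b0 : ℕ) : ℝ) := by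
      rw [h1, hn]; push_cast; ring
    exact_mod_cast h2
  rw [hQ] at ht
  have hsub : (((univ.filter (fun ω : Finset (Fin n) → Fin K → Fin M =>
      ¬ (((((Q v x).filter (fun g => Any (HH ω) (insert g.2 (v.erase g.1)) x)).card : ℕ) : ℝ) ≤
        (k : ℝ) * b0 / 8))).card : ℕ) : ℝ)
      ≤ (((univ.filter (fun ω : Finset (Fin n) → Fin K → Fin M =>
        m ≤ ((Q v x).filter (fun g => ∃ j, (ω (insert x (insert g.2 (v.erase g.1))) j).val =
          rk (insert x (insert g.2 (v.erase g.1))) x % M)).card)).card : ℕ) : ℝ) := by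
    have : univ.filter (fun ω : Finset (Fin n) → Fin K → Fin M =>
      ¬ (((((Q v x).filter (fun g => Any (HH ω) (insert g.2 (v.erase g.1)) x)).card : ℕ) : ℝ) ≤
        (k : ℝ) * b0 / 8)) ⊆
      univ.filter (fun ω : Finset (Fin n) → Fin K → Fin M =>
        m ≤ ((Q v x).filter (fun g => ∃ j, (ω (insert x (insert g.2 (v.erase g.1))) j).val =
          rk (insert x (insert g.2 (v.erase g.1))) x % M)).card) := by
      intro ω hω
      simp only [mem_filter, mem_univ, true_and, not_le] at hω ⊢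
      have h1 : (Q v x).filter (fun g => ∃ j, (ω (insert x (insert g.2 (v.erase g.1))) j).val =
          rk (insert x (insert g.2 (v.erase g.1))) x % M) =
          (Q v x).filter (fun g => Any (HH ω) (insert g.2 (v.erase g.1)) x) := by
        ext g
        simp only [mem_filter]
        rfl
      rw [h1]
      by_contra hcon
      push Not at hcon
      have h2 : ((Q v x).filter (fun g => Any (HH ω) (insert g.2 (v.erase g.1)) x)).card ≤
        k * b0 / 8 := by omega
      have h3 : ((((Q v x).filter (fun g => Any (HH ω) (insert g.2 (v.erase g.1)) x)).card : ℕ) : ℝ)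
          ≤ ((k * b0 / 8 : ℕ) : ℝ) := by
        exact_mod_cast h2
      have h4 : ((k * b0 / 8 : ℕ) : ℝ) ≤ (k : ℝ) * b0 / 8 := by
        have := @Nat.cast_div_le ℝ _ _ _ (k * b0) 8
        simpa using this
      linarith
    exact_mod_cast card_le_card this
  refine le_trans hsub ?_
  refine bound_aux (B := 2 ^ 128) (m := m) (t := k * b0) (by positivity) (by positivity) ?_ ?_
  · refine le_trans (le_of_eq ?_) ht
    congr!
  · have h1 : k * b0 + (3 + 2 * n) ≤ 128 * m := by
      have : b0 ≤ k * b0 := Nat.le_mul_of_pos_left _ hk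
      omega
    calc (2 : ℝ) ^ (k * b0) * (8 * 2 ^ (2 * n)) = 2 ^ (k * b0 + (3 + 2 * n)) := by
          rw [pow_add _ (k * b0), pow_add _ 3 (2 * n)]; norm_num
      _ ≤ 2 ^ (128 * m) := pow_le_pow_right₀ (by norm_num) h1
      _ = (2 ^ 128) ^ m := by rw [pow_mul]

theorem exp_bound {q : ℝ} {N L : ℕ} (hq1 : q ≤ 1) (h : (L : ℝ) ≤ q * N / 2) :
    (1 - q / 2) ^ N ≤ (1 / 2 : ℝ) ^ L := by
  have h1 : 1 - q / 2 ≤ Real.exp (-(q / 2)) := by
    have := Real.add_one_le_exp (-(q / 2))
    linarith
  have h0 : 0 ≤ 1 - q / 2 := by linarith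
  calc (1 - q / 2) ^ N ≤ Real.exp (-(q / 2)) ^ N := pow_le_pow_left₀ h0 h1 N
    _ = Real.exp (-(q * N / 2)) := by
        rw [← Real.exp_nat_mul]; congr 1; ring
    _ ≤ Real.exp (-(L : ℝ)) := Real.exp_le_exp.2 (by linarith)
    _ = Real.exp (-1) ^ L := by
        rw [← Real.exp_nat_mul]; congr 1; ring
    _ ≤ (1 / 2 : ℝ) ^ L := by
        apply pow_le_pow_left₀ (Real.exp_pos _).le
        rw [Real.exp_neg, one_div]
        apply inv_anti₀ (by norm_num)
        have := Real.add_one_le_exp (1 : ℝ)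
        linarith

end Pool.MP_0ccee8_co.Lib
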