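import Mathlib
import Pool.Agent.Lib.MP_0ccee8_co.ML

/-!
# Random reserved classes, conclusion
-/

set_option autoImplicit false

namespace Pool.MP_0ccee8_co.Lib

open Finset

variable {n : ℕ}

/-- Replacing the values for the class `j`. -/
def rep {K M : ℕ} (j : Fin K) (ω : Finset (Fin n) → Fin K → Fin M) (η : Finset (Fin n) → Fin M) :
    Finset (Fin n) → Fin K → Fin M := fun y => Function.update (ω y) j (η y)

theorem oth_rep {K M : ℕ} (j : Fin K) (ω : Finset (Fin n) → Fin K → Fin M)
    (η : Finset (Fin n) → Fin M) : Oth (HH (rep j ω η)) j = Oth (HH ω) j := by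
  funext v x
  apply propext
  unfold Oth HH rep
  constructor
  · rintro ⟨j', hj', h⟩
    rw [Function.update_of_ne hj'] at h
    exact ⟨j', hj', h⟩
  · rintro ⟨j', hj', h⟩
    refine ⟨j', hj', ?_⟩
    rw [Function.update_of_ne hj']
    exact h

theorem HH_rep {K M : ℕ} (j : Fin K) (ω : Finset (Fin n) → Fin K → Fin M)
    (η : Finset (Fin n) → Fin M) (v : Finset (Fin n)) (x : Fin n) :
    HH (rep j ω η) j v x ↔ (η (insert x v)).val = rk (insert x v) x % M := by
  unfold HH rep
  rw [Function.update_self]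

open Classical in
theorem bad3 {k K M b0 : ℕ} (hK : 1 ≤ K) (hM : M = 2 ^ 128 * K) (hn : n = k + 1 + b0)
    (hk : 2 ^ 136 * K ^ 2 ≤ k) (hkb : k ≤ b0) (hb5 : 5 ≤ b0) (v : Finset (Fin n)) (hv : v.card = k)
    (x : Fin n) (hx : x ∉ v) (j : Fin K) :
    (((univ.filter (fun ω : Finset (Fin n) → Fin K → Fin M => Cond0 k K (HH ω) ∧
      (((Q v x).filter (fun g => Clear (Oth (HH ω) j) v x g ∧
      HH ω j (insert g.2 (v.erase g.1)) x)).card : ℕ) < 20 * K * b0)).card : ℕ) : ℝ)
      ≤ Fintype.card (Finset (Fin n) → Fin K → Fin M) / (8 * 2 ^ (2 * n + K)) := by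
  have hM0 : 0 < M := by rw [hM]; positivity
  have : Nonempty (Fin M) := ⟨⟨0, hM0⟩⟩
  have hKR : (1 : ℝ) ≤ K := by exact_mod_cast hK
  have hMR : (M : ℝ) = 2 ^ 128 * K := by rw [hM]; push_cast; ring
  have hMR0 : (0 : ℝ) < M := by exact_mod_cast hM0
  set δ : ℝ := 2 ^ (20 * K * b0) * (1 / 2) ^ (96 * K * b0) with hδ
  -- the count for a fixed value of the other coordinates
  have hfix : ∀ ω : Finset (Fin n) → Fin K → Fin M,
      (((univ.filter (fun η : Finset (Fin n) → Fin M => Cond0 k K (HH (rep j ω η)) ∧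
      (((Q v x).filter (fun g => Clear (Oth (HH (rep j ω η)) j) v x g ∧
      HH (rep j ω η) j (insert g.2 (v.erase g.1)) x)).card : ℕ) < 20 * K * b0)).card : ℕ) : ℝ)
      ≤ δ * Fintype.card (Finset (Fin n) → Fin M) := by
    intro ω
    set T := (Q v x).filter (Clear (Oth (HH ω) j) v x) with hT
    by_cases hTc : 3 / 4 * (k * ((n : ℝ) - k - 1)) ≤ (T.card : ℝ)
    · have ht := tail_lower (ι := Finset (Fin n)) (β := Fin M) T
        (fun g => insert x (insert g.2 (v.erase g.1))) ((y_inj hx).mono (by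
          intro g hg; exact (mem_filter.1 hg).1))
        (fun g b => b.val = rk (insert x (insert g.2 (v.erase g.1))) x % M) (1 / M)
        (by rw [div_le_one hMR0]; exact_mod_cast hM0)
        (fun g _ => by
          have h1 := card_val_eq hM0 (rk (insert x (insert g.2 (v.erase g.1))) x)
          rw [Fintype.card_fin, one_div, inv_mul_cancel₀ hMR0.ne']
          refine le_of_eq ?_
          have h2 : ((1 : ℕ) : ℝ) = (((univ.filter (fun b : Fin M => b.val =
            rk (insert x (insert g.2 (v.erase g.1))) x % M)).card : ℕ) : ℝ) := by rw [h1]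
          rw [← Nat.cast_one, h2]
          congr!) (20 * K * b0)
      have hexp : (1 - 1 / (M : ℝ) / 2) ^ T.card ≤ (1 / 2 : ℝ) ^ (96 * K * b0) := by
        apply exp_bound
        · rw [div_le_one hMR0]; exact_mod_cast hM0
        · have h1 : (2 : ℝ) ^ 136 * (K : ℝ) ^ 2 ≤ k := by exact_mod_cast hk
          have h2 : (n : ℝ) - k - 1 = b0 := by rw [hn]; push_cast; ring
          rw [h2] at hTc
          have h3 : 256 * (M : ℝ) * K ≤ k := by
            rw [hMR]
            refine le_trans (le_of_eq ?_) h1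
            ring
          have h4 : 256 * (M : ℝ) * K * b0 ≤ k * b0 :=
            mul_le_mul_of_nonneg_right h3 (Nat.cast_nonneg _)
          have h5 : 192 * (M : ℝ) * K * b0 ≤ T.card := by linarith
          push_cast
          rw [div_mul_eq_mul_div, one_mul, div_div, le_div_iff₀ (by positivity)]
          linarith
      have hsub : (((univ.filter (fun η : Finset (Fin n) → Fin M => Cond0 k K (HH (rep j ω η)) ∧
        (((Q v x).filter (fun g => Clear (Oth (HH (rep j ω η)) j) v x g ∧
        HH (rep j ω η) j (insert g.2 (v.erase g.1)) x)).card : ℕ) < 20 * K * b0)).card : ℕ) : ℝ)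
          ≤ (((univ.filter (fun η : Finset (Fin n) → Fin M => (T.filter (fun g =>
            (η (insert x (insert g.2 (v.erase g.1)))).val =
              rk (insert x (insert g.2 (v.erase g.1))) x % M)).card < 20 * K * b0)).card : ℕ) : ℝ) := by
        have : univ.filter (fun η : Finset (Fin n) → Fin M => Cond0 k K (HH (rep j ω η)) ∧
          (((Q v x).filter (fun g => Clear (Oth (HH (rep j ω η)) j) v x g ∧
          HH (rep j ω η) j (insert g.2 (v.erase g.1)) x)).card : ℕ) < 20 * K * b0) ⊆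
          univ.filter (fun η : Finset (Fin n) → Fin M => (T.filter (fun g =>
            (η (insert x (insert g.2 (v.erase g.1)))).val =
              rk (insert x (insert g.2 (v.erase g.1))) x % M)).card < 20 * K * b0) := by
          intro η hη
          simp only [mem_filter, mem_univ, true_and] at hη ⊢
          refine lt_of_le_of_lt (le_of_eq ?_) hη.2
          congr 1
          rw [hT, oth_rep]
          ext g
          simp only [mem_filter, HH_rep]
          tauto
        exact_mod_cast card_le_card this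
      refine le_trans hsub ?_
      have ht' : (((univ.filter (fun η : Finset (Fin n) → Fin M => (T.filter (fun g =>
            (η (insert x (insert g.2 (v.erase g.1)))).val =
              rk (insert x (insert g.2 (v.erase g.1))) x % M)).card < 20 * K * b0)).card : ℕ) : ℝ)
          ≤ 2 ^ (20 * K * b0) * ((1 - 1 / (M : ℝ) / 2) ^ T.card *
            Fintype.card (Finset (Fin n) → Fin M)) := by
        refine le_trans (le_of_eq ?_) ht
        congr!
      refine le_trans ht' ?_
      rw [hδ]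
      refine le_trans (mul_le_mul_of_nonneg_left (mul_le_mul_of_nonneg_right hexp
        (Nat.cast_nonneg _)) (by positivity)) (le_of_eq ?_)
      ring
    · have hemp : univ.filter (fun η : Finset (Fin n) → Fin M => Cond0 k K (HH (rep j ω η)) ∧
        (((Q v x).filter (fun g => Clear (Oth (HH (rep j ω η)) j) v x g ∧
        HH (rep j ω η) j (insert g.2 (v.erase g.1)) x)).card : ℕ) < 20 * K * b0) = ∅ := by
        rw [filter_eq_empty_iff]
        rintro η _ ⟨hC, _⟩
        apply hTc
        have := clear_card hC v hv x hx j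
        rw [oth_rep] at this
        rw [hT]
        exact this
      rw [hemp, card_empty, Nat.cast_zero]
      positivity
  -- averaging over the coordinate `j`
  have havg := avg_sum (Ω := Finset (Fin n) → Fin K → Fin M) (β := Finset (Fin n) → Fin M)
    (fun ω y => ω y j) (fun ω η => rep j ω η) (fun ω η => by funext y; simp [rep])
    (fun ω η => by funext y; simp [rep])
    (fun ω => if Cond0 k K (HH ω) ∧
      (((Q v x).filter (fun g => Clear (Oth (HH ω) j) v x g ∧
      HH ω j (insert g.2 (v.erase g.1)) x)).card : ℕ) < 20 * K * b0 then 1 else 0)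
  simp only [sum_boole] at havg
  have h1 : (Fintype.card (Finset (Fin n) → Fin M) : ℝ) *
      (((univ.filter (fun ω : Finset (Fin n) → Fin K → Fin M => Cond0 k K (HH ω) ∧
      (((Q v x).filter (fun g => Clear (Oth (HH ω) j) v x g ∧
      HH ω j (insert g.2 (v.erase g.1)) x)).card : ℕ) < 20 * K * b0)).card : ℕ) : ℝ) ≤
      (Fintype.card (Finset (Fin n) → Fin M) : ℝ) *
        (δ * Fintype.card (Finset (Fin n) → Fin K → Fin M)) := by
    rw [havg]
    calc _ ≤ ∑ _ω : Finset (Fin n) → Fin K → Fin M, δ * Fintype.card (Finset (Fin n) → Fin M) :=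
          sum_le_sum (fun ω _ => hfix ω)
      _ = _ := by
          rw [sum_const, card_univ, nsmul_eq_mul]; ring
  have h2 := le_of_mul_le_mul_left h1 (by
    have : 0 < Fintype.card (Finset (Fin n) → Fin M) := Fintype.card_pos
    exact_mod_cast this)
  refine le_trans h2 ?_
  rw [le_div_iff₀ (by positivity), mul_comm _ (8 * 2 ^ (2 * n + K) : ℝ), ← mul_assoc]
  have h3 : (8 : ℝ) * 2 ^ (2 * n + K) * δ ≤ 1 := by
    rw [hδ]
    have e1 : (1 / 2 : ℝ) ^ (96 * K * b0) = (1 / 2) ^ (20 * K * b0) * (1 / 2) ^ (76 * K * b0) := by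
      rw [← pow_add]; congr 1; ring
    have e2 : (2 : ℝ) ^ (20 * K * b0) * (1 / 2) ^ (20 * K * b0) = 1 := by
      rw [← mul_pow]; norm_num
    have e3 : (8 : ℝ) * 2 ^ (2 * n + K) = 2 ^ (3 + (2 * n + K)) := by
      rw [pow_add _ 3]; norm_num
    have e4 : 3 + (2 * n + K) ≤ 76 * K * b0 := by
      have a1 : b0 ≤ K * b0 := Nat.le_mul_of_pos_left _ hK
      have a2 : K ≤ K * b0 := Nat.le_mul_of_pos_right _ (by omega)
      have a3 : 76 * K * b0 = 76 * (K * b0) := by ring
      rw [a3]
      omega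
    have e5 : (2 : ℝ) ^ (3 + (2 * n + K)) ≤ 2 ^ (76 * K * b0) := pow_le_pow_right₀ (by norm_num) e4
    have e6 : (2 : ℝ) ^ (76 * K * b0) * (1 / 2) ^ (76 * K * b0) = 1 := by
      rw [← mul_pow]; norm_num
    calc (8 : ℝ) * 2 ^ (2 * n + K) * (2 ^ (20 * K * b0) * (1 / 2) ^ (96 * K * b0))
        = 2 ^ (3 + (2 * n + K)) * (1 / 2) ^ (76 * K * b0) *
          (2 ^ (20 * K * b0) * (1 / 2) ^ (20 * K * b0)) := by rw [e1, e3]; ring
      _ = 2 ^ (3 + (2 * n + K)) * (1 / 2) ^ (76 * K * b0) := by rw [e2, mul_one]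
      _ ≤ 2 ^ (76 * K * b0) * (1 / 2) ^ (76 * K * b0) :=
          mul_le_mul_of_nonneg_right e5 (by positivity)
      _ = 1 := e6
  calc (8 : ℝ) * 2 ^ (2 * n + K) * δ * Fintype.card (Finset (Fin n) → Fin K → Fin M)
      ≤ 1 * Fintype.card (Finset (Fin n) → Fin K → Fin M) :=
        mul_le_mul_of_nonneg_right h3 (Nat.cast_nonneg _)
    _ = _ := one_mul _

theorem ML_large {k K : ℕ} (hK : 1 ≤ K) (hk : 2 ^ 136 * K ^ 2 ≤ k) (hkn : 2 * (k + 1) ≤ n + 1) :
    ML n k K := by
  classical
  obtain ⟨b0, hn⟩ : ∃ b0, n = k + 1 + b0 := ⟨n - k - 1, by omega⟩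
  have hk1 : 2 ^ 136 ≤ k := by
    refine le_trans ?_ hk
    exact Nat.le_mul_of_pos_right _ (by positivity)
  have hk2 : 1 ≤ k := by omega
  have hkb : k ≤ b0 := by omega
  have hb5 : 5 ≤ b0 := by omega
  obtain ⟨M, hM⟩ : ∃ M, M = 2 ^ 128 * K := ⟨_, rfl⟩
  have hM0 : 0 < M := by rw [hM]; positivity
  have : Nonempty (Fin M) := ⟨⟨0, hM0⟩⟩
  have hnb : (n : ℝ) - k - 1 = b0 := by rw [hn]; push_cast; ring
  have hKR : (1 : ℝ) ≤ K := by exact_mod_cast hK
  have hMR : (M : ℝ) = 2 ^ 128 * K := by rw [hM]; push_cast; ring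
  set W : ℝ := (Fintype.card (Finset (Fin n) → Fin K → Fin M) : ℝ) with hW
  have hW0 : 0 < W := by
    have : 0 < Fintype.card (Finset (Fin n) → Fin K → Fin M) := Fintype.card_pos
    rw [hW]; exact_mod_cast this
  -- first kind of bad events
  have hE1 := card_exists_le (Ω := Finset (Fin n) → Fin K → Fin M)
    (fun (v : Finset (Fin n)) ω => v.card = k ∧
      ¬ ((((univ.filter (fun x => x ∉ v ∧ Any (HH ω) v x)).card : ℕ) : ℝ) ≤ (b0 : ℝ) / 32))
    (W / (8 * 2 ^ n)) (fun v => by
      by_cases hv : v.card = k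
      · simp only [hv, true_and]
        refine le_trans (le_of_eq ?_) (bad1 hK hM hn hkb hb5 v hv)
        congr!
      · simp only [hv, false_and, filter_false, card_empty, Nat.cast_zero]
        positivity)
  have hE2 := card_exists_le (Ω := Finset (Fin n) → Fin K → Fin M)
    (fun (e : Finset (Fin n) × Fin n) ω => e.1.card = k ∧ e.2 ∉ e.1 ∧
      ¬ (((((Q e.1 e.2).filter (fun g => Any (HH ω) (insert g.2 (e.1.erase g.1)) e.2)).card : ℕ) : ℝ) ≤
        (k : ℝ) * b0 / 8))
    (W / (8 * 2 ^ (2 * n))) (fun e => by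
      by_cases hv : e.1.card = k
      · by_cases hx : e.2 ∈ e.1
        · simp only [hv, hx, not_true_eq_false, false_and, and_false, filter_false, card_empty,
            Nat.cast_zero]
          positivity
        · simp only [hv, hx, not_false_eq_true, true_and]
          refine le_trans (le_of_eq ?_) (bad2 hK hM hn hk2 hkb hb5 e.1 hv e.2 hx)
          congr!
      · simp only [hv, false_and, filter_false, card_empty, Nat.cast_zero]
        positivity)
  have hE3 := card_exists_le (Ω := Finset (Fin n) → Fin K → Fin M)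
    (fun (e : (Finset (Fin n) × Fin n) × Fin K) ω => e.1.1.card = k ∧ e.1.2 ∉ e.1.1 ∧
      (Cond0 k K (HH ω) ∧ (((Q e.1.1 e.1.2).filter (fun g => Clear (Oth (HH ω) e.2) e.1.1 e.1.2 g ∧
        HH ω e.2 (insert g.2 (e.1.1.erase g.1)) e.1.2)).card : ℕ) < 20 * K * b0))
    (W / (8 * 2 ^ (2 * n + K))) (fun e => by
      by_cases hv : e.1.1.card = k
      · by_cases hx : e.1.2 ∈ e.1.1
        · simp only [hv, hx, not_true_eq_false, false_and, and_false, filter_false, card_empty,
            Nat.cast_zero]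
          positivity
        · simp only [hv, hx, not_false_eq_true, true_and]
          refine le_trans (le_of_eq ?_) (bad3 hK hM hn hk hkb hb5 e.1.1 hv e.1.2 hx e.2)
          congr!
      · simp only [hv, false_and, filter_false, card_empty, Nat.cast_zero]
        positivity)
  have hn2 : n ≤ 2 ^ n := Nat.lt_two_pow_self.le
  have hK2 : K ≤ 2 ^ K := Nat.lt_two_pow_self.le
  have c1 : (Fintype.card (Finset (Fin n)) : ℝ) * (W / (8 * 2 ^ n)) = W / 8 := by
    rw [Fintype.card_finset, Fintype.card_fin]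
    push_cast
    field_simp
  have c2 : (Fintype.card (Finset (Fin n) × Fin n) : ℝ) * (W / (8 * 2 ^ (2 * n))) ≤ W / 8 := by
    have h1 : (Fintype.card (Finset (Fin n) × Fin n) : ℝ) ≤ 2 ^ (2 * n) := by
      rw [Fintype.card_prod, Fintype.card_finset, Fintype.card_fin]
      have : 2 ^ n * n ≤ 2 ^ (2 * n) := by
        rw [two_mul, pow_add]; exact Nat.mul_le_mul_left _ hn2
      exact_mod_cast this
    calc _ ≤ (2 : ℝ) ^ (2 * n) * (W / (8 * 2 ^ (2 * n))) :=
          mul_le_mul_of_nonneg_right h1 (by positivity)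
      _ = W / 8 := by field_simp
  have c3 : (Fintype.card ((Finset (Fin n) × Fin n) × Fin K) : ℝ) * (W / (8 * 2 ^ (2 * n + K)))
      ≤ W / 8 := by
    have h1 : (Fintype.card ((Finset (Fin n) × Fin n) × Fin K) : ℝ) ≤ 2 ^ (2 * n + K) := by
      rw [Fintype.card_prod, Fintype.card_prod, Fintype.card_finset, Fintype.card_fin,
        Fintype.card_fin]
      have : 2 ^ n * n * K ≤ 2 ^ (2 * n + K) := by
        rw [two_mul, pow_add, pow_add]
        exact Nat.mul_le_mul (Nat.mul_le_mul_left _ hn2) hK2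
      exact_mod_cast this
    calc _ ≤ (2 : ℝ) ^ (2 * n + K) * (W / (8 * 2 ^ (2 * n + K))) :=
          mul_le_mul_of_nonneg_right h1 (by positivity)
      _ = W / 8 := by field_simp
  -- a good choice exists
  have hex : ∃ ω : Finset (Fin n) → Fin K → Fin M,
      (¬ ∃ v : Finset (Fin n), v.card = k ∧
      ¬ ((((univ.filter (fun x => x ∉ v ∧ Any (HH ω) v x)).card : ℕ) : ℝ) ≤ (b0 : ℝ) / 32)) ∧
      (¬ ∃ e : Finset (Fin n) × Fin n, e.1.card = k ∧ e.2 ∉ e.1 ∧
      ¬ (((((Q e.1 e.2).filter (fun g => Any (HH ω) (insert g.2 (e.1.erase g.1)) e.2)).card : ℕ) : ℝ) ≤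
        (k : ℝ) * b0 / 8)) ∧
      (¬ ∃ e : (Finset (Fin n) × Fin n) × Fin K, e.1.1.card = k ∧ e.1.2 ∉ e.1.1 ∧
      (Cond0 k K (HH ω) ∧ (((Q e.1.1 e.1.2).filter (fun g => Clear (Oth (HH ω) e.2) e.1.1 e.1.2 g ∧
        HH ω e.2 (insert g.2 (e.1.1.erase g.1)) e.1.2)).card : ℕ) < 20 * K * b0)) := by
    by_contra hcon
    have hall : (univ : Finset (Finset (Fin n) → Fin K → Fin M)) ⊆
        (univ.filter (fun ω => ∃ v : Finset (Fin n), v.card = k ∧
      ¬ ((((univ.filter (fun x => x ∉ v ∧ Any (HH ω) v x)).card : ℕ) : ℝ) ≤ (b0 : ℝ) / 32))) ∪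
        (univ.filter (fun ω => ∃ e : Finset (Fin n) × Fin n, e.1.card = k ∧ e.2 ∉ e.1 ∧
      ¬ (((((Q e.1 e.2).filter (fun g => Any (HH ω) (insert g.2 (e.1.erase g.1)) e.2)).card : ℕ) : ℝ) ≤
        (k : ℝ) * b0 / 8))) ∪
        (univ.filter (fun ω => ∃ e : (Finset (Fin n) × Fin n) × Fin K, e.1.1.card = k ∧ e.1.2 ∉ e.1.1 ∧
      (Cond0 k K (HH ω) ∧ (((Q e.1.1 e.1.2).filter (fun g => Clear (Oth (HH ω) e.2) e.1.1 e.1.2 g ∧
        HH ω e.2 (insert g.2 (e.1.1.erase g.1)) e.1.2)).card : ℕ) < 20 * K * b0))) := by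
      intro ω _
      by_contra hω
      apply hcon
      refine ⟨ω, ?_, ?_, ?_⟩
      · intro h
        exact hω (mem_union_left _ (mem_union_left _ (mem_filter.2 ⟨mem_univ _, h⟩)))
      · intro h
        exact hω (mem_union_left _ (mem_union_right _ (mem_filter.2 ⟨mem_univ _, h⟩)))
      · intro h
        exact hω (mem_union_right _ (mem_filter.2 ⟨mem_univ _, h⟩))
    have h1 := (card_le_card hall).trans ((card_union_le _ _).trans
      (Nat.add_le_add_right (card_union_le _ _) _))
    rw [card_univ] at h1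
    have h2 : W ≤ (((univ.filter (fun ω : Finset (Fin n) → Fin K → Fin M =>
        ∃ v : Finset (Fin n), v.card = k ∧
      ¬ ((((univ.filter (fun x => x ∉ v ∧ Any (HH ω) v x)).card : ℕ) : ℝ) ≤ (b0 : ℝ) / 32))).card : ℕ) : ℝ) +
        (((univ.filter (fun ω : Finset (Fin n) → Fin K → Fin M =>
        ∃ e : Finset (Fin n) × Fin n, e.1.card = k ∧ e.2 ∉ e.1 ∧
      ¬ (((((Q e.1 e.2).filter (fun g => Any (HH ω) (insert g.2 (e.1.erase g.1)) e.2)).card : ℕ) : ℝ) ≤
        (k : ℝ) * b0 / 8))).card : ℕ) : ℝ) +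
        (((univ.filter (fun ω : Finset (Fin n) → Fin K → Fin M =>
        ∃ e : (Finset (Fin n) × Fin n) × Fin K, e.1.1.card = k ∧ e.1.2 ∉ e.1.1 ∧
      (Cond0 k K (HH ω) ∧ (((Q e.1.1 e.1.2).filter (fun g => Clear (Oth (HH ω) e.2) e.1.1 e.1.2 g ∧
        HH ω e.2 (insert g.2 (e.1.1.erase g.1)) e.1.2)).card : ℕ) < 20 * K * b0))).card : ℕ) : ℝ) := by
      rw [hW]; exact_mod_cast h1
    have h3 : W ≤ W / 8 + W / 8 + W / 8 := by
      refine le_trans h2 (add_le_add (add_le_add ?_ ?_) ?_)
      · rw [← c1]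
        refine le_trans (le_of_eq ?_) hE1
        congr!
      · refine le_trans ?_ c2
        refine le_trans (le_of_eq ?_) hE2
        congr!
      · refine le_trans ?_ c3
        refine le_trans (le_of_eq ?_) hE3
        congr!
    linarith
  obtain ⟨ω, hω1, hω2, hω3⟩ := hex
  have hC0 : Cond0 k K (HH ω) := by
    refine ⟨?_, ?_, ?_⟩
    · intro v hv
      by_contra h
      apply hω1
      refine ⟨v, hv, ?_⟩
      rw [hnb] at h
      intro h'
      apply h
      refine le_trans (le_of_eq ?_) h'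
      congr!
    · intro y hy
      refine le_trans (down_card hM0 ω y) ?_
      rw [hy, hMR]
      have hk' : (2 : ℝ) ^ 136 * (K : ℝ) ^ 2 ≤ k := by exact_mod_cast hk
      have h2 : (K : ℝ) ≤ (K : ℝ) ^ 2 := by nlinarith
      have h3 : (K : ℝ) * (((k + 1 : ℕ) : ℝ) / (2 ^ 128 * K) + 1) = ((k : ℝ) + 1) / 2 ^ 128 + K := by
        push_cast
        field_simp
      rw [h3]
      have h4 : ((k : ℝ) + 1) / 2 ^ 128 ≤ k / 64 := by
        rw [div_le_div_iff₀ (by positivity) (by positivity)]
        have : (1 : ℝ) ≤ k := by exact_mod_cast hk2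
        nlinarith
      nlinarith
    · intro v hv x hx
      by_contra h
      apply hω2
      refine ⟨(v, x), hv, hx, ?_⟩
      rw [hnb] at h
      intro h'
      apply h
      refine le_trans (le_of_eq ?_) h'
      congr!
  refine ML_of_cond hK hk2 hkn (H := HH ω) ⟨hC0, ?_⟩
  intro v hv x hx j
  by_contra h
  apply hω3
  refine ⟨((v, x), j), hv, hx, hC0, ?_⟩
  rw [hnb] at h
  push Not at h
  by_contra h'
  push Not at h'
  have h'' : ((20 * K * b0 : ℕ) : ℝ) ≤ (((Q v x).filter (fun g => Clear (Oth (HH ω) j) v x g ∧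
        HH ω j (insert g.2 (v.erase g.1)) x)).card : ℝ) := by exact_mod_cast h'
  push_cast at h''
  apply absurd h
  rw [not_lt]
  refine le_trans h'' (le_of_eq ?_)
  congr!

end Pool.MP_0ccee8_co.Lib
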