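import Mathlib
import Pool.Agent.Lib.MP_0ccee8_co.ML2
import Pool.Agent.Lib.MP_0ccee8_co.Low2

/-!
# Putting everything together
-/

set_option autoImplicit false

namespace Pool.MP_0ccee8_co.Lib

open Finset

variable {n : ℕ}

/-- Extending pairwise edge-disjoint families to the bottom. -/
theorem lower {K : ℕ} (k₁ : ℕ) (hk1 : 2 * k₁ ≤ n) (hLL : ∀ k, k < k₁ → LL n k K)
    (C : Fin K → Set (List (Finset (Fin n)))) (hC : ∀ i, Good n k₁ (C i))
    (hE : ∀ i i', i ≠ i' → ∀ S T, Edge (C i) S T → ¬ Edge (C i') S T) :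
    ∃ C' : Fin K → Set (List (Finset (Fin n))), (∀ i, Good n 0 (C' i)) ∧
      ∀ i i', i ≠ i' → ∀ S T, Edge (C' i) S T → ¬ Edge (C' i') S T := by
  induction k₁ generalizing C with
  | zero => exact ⟨C, hC, hE⟩
  | succ k ih =>
    have h1 : ∀ i, ∃ ζ : Lev n (k + 1) ≃ Lev n (k + 1), ∀ y : Lev n (k + 1), ∃ c ∈ C i,
        c.head? = some y.1 ∧ c.getLast? = some ((ζ y).1)ᶜ := fun i => (hC i).linkEquiv hk1
    choose ζ hζ using h1
    obtain ⟨u, τ, hu, hut, hdis⟩ := hLL k (Nat.lt_succ_self k) ζ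
    have h2 := fun i => (hC i).extend hk1 (ζ i) (hζ i) (u i) (τ i) (hu i)
      (fun a => (hut i a).1) (fun a => (hut i a).2)
    choose C' hC' hE' using h2
    refine ih (by omega) (fun k' hk' => hLL k' (by omega)) C' hC' ?_
    intro i i' hne S T h h'
    have hc1 : ∀ (i : Fin K) (a : Lev n k), (((τ i a).1)ᶜ).card = n - k := by
      intro i a
      rw [card_compl, Fintype.card_fin, (τ i a).2]
    have hc2 : ∀ (i : Fin K) (a : Lev n k), (((ζ i (u i a)).1)ᶜ).card = n - (k + 1) := by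
      intro i a
      rw [card_compl, Fintype.card_fin, (ζ i (u i a)).2]
    rcases hE' i S T h with h1 | ⟨a, h1, h2⟩ | ⟨a, h1, h2⟩
    · rcases hE' i' S T h' with h1' | ⟨a', h1', h2'⟩ | ⟨a', h1', h2'⟩
      · exact hE i i' hne S T h1 h1'
      · have h3 := (hC i).edge_cover h1
        rw [h1', a'.2] at h3
        omega
      · have h3 := (hC i).edge_cover h1
        rw [h2', hc1] at h3
        omega
    · rcases hE' i' S T h' with h1' | ⟨a', h1', h2'⟩ | ⟨a', h1', h2'⟩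
      · have h3 := (hC i').edge_cover h1'
        rw [h1, a.2] at h3
        omega
      · exact (hdis i i' a a' hne).1 (Subtype.ext (h2.symm.trans h2'))
      · have h3 : S.card = k := by rw [h1, a.2]
        have h4 : S.card = n - (k + 1) := by rw [h1', hc2]
        omega
    · rcases hE' i' S T h' with h1' | ⟨a', h1', h2'⟩ | ⟨a', h1', h2'⟩
      · have h3 := (hC i').edge_cover h1'
        rw [h2, hc1] at h3
        omega
      · have h3 : S.card = k := by rw [h1', a'.2]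
        have h4 : S.card = n - (k + 1) := by rw [h1, hc2]
        omega
      · exact (hdis i i' a a' hne).2 (Subtype.ext (compl_injective (h1.symm.trans h1')))

/-- The numerical condition at the low levels. -/
theorem LL_num {k K : ℕ} {c : ℝ} (hc : 1 ≤ c) (hK : 1 ≤ K) (hn128 : 128 ≤ n)
    (hkR : (k : ℝ) + 1 ≤ c * (K : ℝ) ^ 2)
    (hnum : 40 * (c ^ 3 * (K : ℝ) ^ 8 * (Real.log n + 1)) ≤ n) : LL n k K := by
  have hKR : (1 : ℝ) ≤ K := by exact_mod_cast hK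
  have hnR : (128 : ℝ) ≤ n := by exact_mod_cast hn128
  have hlog : 0 ≤ Real.log n := Real.log_nonneg (by linarith)
  have hk0 : (0 : ℝ) ≤ k := Nat.cast_nonneg _
  have hK4 : (1 : ℝ) ≤ (K : ℝ) ^ 4 := one_le_pow₀ hKR
  -- the main quantity
  set E : ℝ := c ^ 3 * (K : ℝ) ^ 8 * (Real.log n + 1) with hE
  have hE1 : c * (K : ℝ) ^ 2 ≤ E := by
    have h1 : c ≤ c ^ 3 := le_self_pow₀ hc (by norm_num)
    have h2 : (K : ℝ) ^ 2 ≤ (K : ℝ) ^ 8 := pow_le_pow_right₀ hKR (by norm_num)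
    calc c * (K : ℝ) ^ 2 ≤ c ^ 3 * (K : ℝ) ^ 8 := mul_le_mul h1 h2 (by positivity) (by positivity)
      _ = c ^ 3 * (K : ℝ) ^ 8 * 1 := (mul_one _).symm
      _ ≤ E := mul_le_mul_of_nonneg_left (by linarith) (by positivity)
  have hE2 : c ^ 2 * (K : ℝ) ^ 4 ≤ E := by
    have h1 : c ^ 2 ≤ c ^ 3 := pow_le_pow_right₀ hc (by norm_num)
    have h2 : (K : ℝ) ^ 4 ≤ (K : ℝ) ^ 8 := pow_le_pow_right₀ hKR (by norm_num)
    calc c ^ 2 * (K : ℝ) ^ 4 ≤ c ^ 3 * (K : ℝ) ^ 8 := mul_le_mul h1 h2 (by positivity) (by positivity)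
      _ = c ^ 3 * (K : ℝ) ^ 8 * 1 := (mul_one _).symm
      _ ≤ E := mul_le_mul_of_nonneg_left (by linarith) (by positivity)
  have hE3 : (K : ℝ) ≤ E := by
    refine le_trans ?_ hE1
    have h2 : (K : ℝ) ≤ (K : ℝ) ^ 2 := le_self_pow₀ hKR (by norm_num)
    calc (K : ℝ) ≤ (K : ℝ) ^ 2 := h2
      _ = 1 * (K : ℝ) ^ 2 := (one_mul _).symm
      _ ≤ c * (K : ℝ) ^ 2 := mul_le_mul_of_nonneg_right hc (by positivity)
  have hE0 : 0 ≤ E := by positivity
  have hkE : (k : ℝ) ≤ E := by linarith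
  have hKn : (K : ℝ) ≤ n := by linarith
  have hkn : (k : ℝ) ≤ n := by linarith
  -- the number `L`
  set Lr : ℝ := 6 * c * (K : ℝ) ^ 4 * Real.log n with hLr
  set L : ℕ := ⌈Lr⌉₊ with hL
  have hLr0 : 0 ≤ Lr := by positivity
  have hL1 : Lr ≤ L := Nat.le_ceil _
  have hL2 : (L : ℝ) ≤ Lr + 1 := (Nat.ceil_lt_add_one hLr0).le
  have hL3 : (L : ℝ) ≤ 6 * c * (K : ℝ) ^ 4 * (Real.log n + 1) := by
    have h1 : 1 ≤ 6 * c * (K : ℝ) ^ 4 := by
      have : 1 ≤ c * (K : ℝ) ^ 4 := one_le_mul_of_one_le_of_one_le hc hK4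
      linarith
    calc (L : ℝ) ≤ Lr + 1 := hL2
      _ ≤ Lr + 6 * c * (K : ℝ) ^ 4 := by linarith
      _ = _ := by rw [hLr]; ring
  have hkk : ((k : ℝ) + 1) ^ 2 ≤ c ^ 2 * (K : ℝ) ^ 4 := by
    calc ((k : ℝ) + 1) ^ 2 ≤ (c * (K : ℝ) ^ 2) ^ 2 := pow_le_pow_left₀ (by positivity) hkR 2
      _ = c ^ 2 * (K : ℝ) ^ 4 := by ring
  have hmain : 6 * ((k : ℝ) + 1) ^ 2 * L + k ≤ n := by
    have h1 : 6 * ((k : ℝ) + 1) ^ 2 * L ≤
        6 * (c ^ 2 * (K : ℝ) ^ 4) * (6 * c * (K : ℝ) ^ 4 * (Real.log n + 1)) := by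
      apply mul_le_mul _ hL3 (Nat.cast_nonneg _) (by positivity)
      exact mul_le_mul_of_nonneg_left hkk (by norm_num)
    have h2 : 6 * (c ^ 2 * (K : ℝ) ^ 4) * (6 * c * (K : ℝ) ^ 4 * (Real.log n + 1)) =
        36 * E := by rw [hE]; ring
    rw [h2] at h1
    linarith
  have hmainN : 6 * (k + 1) ^ 2 * L + k ≤ n := by exact_mod_cast hmain
  have hn3R : 3 * ((k : ℝ) + 1) ^ 2 ≤ n := by linarith
  have hn3 : 3 * (k + 1) ^ 2 ≤ n := by exact_mod_cast hn3R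
  refine LL_of hK hn3 (L := L) (by omega) ?_
  -- the probability estimate
  have hK2 : (1 : ℝ) ≤ (K : ℝ) ^ 2 := one_le_pow₀ hKR
  have hKK : 1 / (K : ℝ) ^ 2 / 2 ≤ 1 := by
    rw [div_div, div_le_one (by positivity)]; linarith
  have h1 : (1 - 1 / (K : ℝ) ^ 2 / 2) ^ L ≤ Real.exp (-(3 * c * (K : ℝ) ^ 2 * Real.log n)) := by
    calc (1 - 1 / (K : ℝ) ^ 2 / 2) ^ L ≤ Real.exp (-(1 / (K : ℝ) ^ 2 / 2)) ^ L := by
          apply pow_le_pow_left₀ (by linarith)
          have := Real.add_one_le_exp (-(1 / (K : ℝ) ^ 2 / 2))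
          linarith
      _ = Real.exp (-(L / (2 * (K : ℝ) ^ 2))) := by
          rw [← Real.exp_nat_mul]; congr 1; field_simp
      _ ≤ Real.exp (-(3 * c * (K : ℝ) ^ 2 * Real.log n)) := by
          apply Real.exp_le_exp.2
          rw [neg_le_neg_iff, le_div_iff₀ (by positivity)]
          calc 3 * c * (K : ℝ) ^ 2 * Real.log n * (2 * (K : ℝ) ^ 2) = Lr := by
                rw [hLr]; ring
            _ ≤ L := hL1
  have hcard : (Fintype.card (Lev n k) : ℝ) ≤ (n : ℝ) ^ k := by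
    rw [Fintype.card_finset_len, Fintype.card_fin]
    exact_mod_cast Nat.choose_le_pow n k
  have hcard0 : (1 : ℝ) ≤ Fintype.card (Lev n k) := by
    rw [Fintype.card_finset_len, Fintype.card_fin]
    have hkn : k ≤ n := by exact_mod_cast hkn
    exact_mod_cast Nat.choose_pos hkn
  have hn0 : (0 : ℝ) < n := by linarith
  have h2 : 128 * (K : ℝ) ^ 2 * (Fintype.card (Lev n k) : ℝ) ^ 2 ≤ Real.exp ((2 * k + 3) * Real.log n) := by
    have e1 : Real.exp ((2 * k + 3) * Real.log n) = (n : ℝ) ^ (2 * k + 3) := by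
      have h3 : ((2 : ℝ) * k + 3) = ((2 * k + 3 : ℕ) : ℝ) := by push_cast; ring
      rw [h3, Real.exp_nat_mul, Real.exp_log hn0]
    rw [e1]
    have e2 : (n : ℝ) ^ (2 * k + 3) = n * (n : ℝ) ^ 2 * ((n : ℝ) ^ k) ^ 2 := by
      rw [← pow_mul]; ring
    rw [e2]
    apply mul_le_mul
    · apply mul_le_mul hnR _ (by positivity) (by positivity)
      exact pow_le_pow_left₀ (by positivity) hKn 2
    · exact pow_le_pow_left₀ (by positivity) hcard 2
    · positivity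
    · positivity
  have h3 : Real.exp ((2 * k + 3) * Real.log n) ≤
      Real.exp (3 * c * (K : ℝ) ^ 2 * Real.log n) := by
    apply Real.exp_le_exp.2
    apply mul_le_mul_of_nonneg_right _ hlog
    linarith
  rw [div_pow, one_pow, le_div_iff₀ (by positivity)]
  calc 2 * (1 - 1 / (K : ℝ) ^ 2 / 2) ^ L * (8 * K * (Fintype.card (Lev n k) : ℝ)) ^ 2
      = (1 - 1 / (K : ℝ) ^ 2 / 2) ^ L *
        (128 * (K : ℝ) ^ 2 * (Fintype.card (Lev n k) : ℝ) ^ 2) := by ring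
    _ ≤ Real.exp (-(3 * c * (K : ℝ) ^ 2 * Real.log n)) *
        Real.exp (3 * c * (K : ℝ) ^ 2 * Real.log n) := by
        apply mul_le_mul h1 (h2.trans h3) (by positivity) (Real.exp_pos _).le
    _ = 1 := by rw [← Real.exp_add]; simp

/-- Existence of many pairwise edge-disjoint decompositions under a numerical condition. -/
theorem many {K : ℕ} (hK : 1 ≤ K) (hn128 : 128 ≤ n) {c : ℝ} (hc : c = 2 ^ 136)
    (hnum : 40 * (c ^ 3 * (K : ℝ) ^ 8 * (Real.log n + 1)) ≤ n) :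
    ∃ C : Fin K → Set (List (Finset (Fin n))), (∀ i, Good n 0 (C i)) ∧
      ∀ i i', i ≠ i' → ∀ S T, Edge (C i) S T → ¬ Edge (C i') S T := by
  have hKR : (1 : ℝ) ≤ K := by exact_mod_cast hK
  have hnR : (128 : ℝ) ≤ n := by exact_mod_cast hn128
  have hlog : 0 ≤ Real.log n := Real.log_nonneg (by linarith)
  have hc1 : 1 ≤ c := by rw [hc]; norm_num
  have hk1 : 2 * (2 ^ 136 * K ^ 2) ≤ n := by
    have h1 : (2 : ℝ) * (2 ^ 136 * (K : ℝ) ^ 2) ≤ n := by
      rw [← hc]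
      have h1 : c ≤ c ^ 3 := le_self_pow₀ hc1 (by norm_num)
      have h2 : (K : ℝ) ^ 2 ≤ (K : ℝ) ^ 8 := pow_le_pow_right₀ hKR (by norm_num)
      have h3 : c * (K : ℝ) ^ 2 ≤ c ^ 3 * (K : ℝ) ^ 8 * (Real.log n + 1) := by
        calc c * (K : ℝ) ^ 2 ≤ c ^ 3 * (K : ℝ) ^ 8 :=
              mul_le_mul h1 h2 (by positivity) (by positivity)
          _ = c ^ 3 * (K : ℝ) ^ 8 * 1 := (mul_one _).symm
          _ ≤ _ := mul_le_mul_of_nonneg_left (by linarith) (by positivity)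
      have h4 : 0 ≤ c ^ 3 * (K : ℝ) ^ 8 * (Real.log n + 1) := by positivity
      linarith
    exact_mod_cast h1
  obtain ⟨C, hC, hE⟩ := sequential hk1 (fun k hk hkn => ML_large hK hk hkn)
  refine lower _ hk1 (fun k hk => LL_num hc1 hK hn128 ?_ hnum) C hC hE
  rw [hc]
  exact_mod_cast hk

end Pool.MP_0ccee8_co.Lib
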