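import Mathlib
import Pool.Agent.Lib.MP_0ccee8_co.Final

set_option autoImplicit false

namespace Pool.MP_0ccee8_co.Lib

open Finset

/-- Polynomially many pairwise edge-disjoint symmetric chain decompositions. -/
theorem poly_many : ∃ c : ℝ, 0 < c ∧ ∀ n : ℕ, 2 ≤ n → ∀ K : ℕ, (K : ℝ) ^ 8 * Real.log n ≤ c * n →
    ∃ D : Fin K → Set (List (Finset (Fin n))),
      (∀ i : Fin K,
        (∀ c ∈ D i,
          (∃ a b : Finset (Fin n), c.head? = some a ∧ c.getLast? = some b ∧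
              a.card + b.card = n) ∧
          (∀ a b : Finset (Fin n), List.IsInfix [a, b] c →
              a ⊆ b ∧ b.card = a.card + 1)) ∧
        (∀ S : Finset (Fin n), ∃! c : List (Finset (Fin n)), c ∈ D i ∧ S ∈ c)) ∧
      (∀ i j : Fin K, i ≠ j →
        ∀ c ∈ D i, ∀ c' ∈ D j, ∀ a b : Finset (Fin n),
          List.IsInfix [a, b] c → List.IsInfix [a, b] c' → False) := by
  obtain ⟨c₀, hc₀⟩ : ∃ c₀ : ℝ, c₀ = 2 ^ 136 := ⟨_, rfl⟩
  have hc1 : 1 ≤ c₀ := by rw [hc₀]; norm_num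
  have hc3 : 1 ≤ c₀ ^ 3 := one_le_pow₀ hc1
  refine ⟨1 / (1000 * c₀ ^ 3), by positivity, ?_⟩
  intro n hn K hK
  rcases Nat.eq_zero_or_pos K with rfl | hKpos
  · exact ⟨fun _ => ∅, fun i => i.elim0, fun i => i.elim0⟩
  have hKR : (1 : ℝ) ≤ K := by exact_mod_cast hKpos
  have hnR : (2 : ℝ) ≤ n := by exact_mod_cast hn
  have hlog : 1 / 2 ≤ Real.log n := by
    have h1 := Real.log_two_gt_d9
    have h2 : Real.log 2 ≤ Real.log n := Real.log_le_log (by norm_num) hnR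
    linarith
  have hK8 : (1 : ℝ) ≤ (K : ℝ) ^ 8 := one_le_pow₀ hKR
  have h1 : 1000 * (c₀ ^ 3 * ((K : ℝ) ^ 8 * Real.log n)) ≤ n := by
    have h2 := mul_le_mul_of_nonneg_left hK (by positivity : (0 : ℝ) ≤ 1000 * c₀ ^ 3)
    have h3 : 1000 * c₀ ^ 3 * (1 / (1000 * c₀ ^ 3) * (n : ℝ)) = n := by
      field_simp
    rw [h3] at h2
    linarith
  have h128 : (128 : ℝ) ≤ n := by
    have h2 : (1 : ℝ) * (1 * (1 / 2)) ≤ c₀ ^ 3 * ((K : ℝ) ^ 8 * Real.log n) := by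
      apply mul_le_mul hc3 _ (by norm_num) (by positivity)
      exact mul_le_mul hK8 hlog (by norm_num) (by positivity)
    linarith
  have hnum : 40 * (c₀ ^ 3 * (K : ℝ) ^ 8 * (Real.log n + 1)) ≤ n := by
    have h2 : c₀ ^ 3 * (K : ℝ) ^ 8 * (Real.log n + 1) ≤ 3 * (c₀ ^ 3 * ((K : ℝ) ^ 8 * Real.log n)) := by
      have h3 : c₀ ^ 3 * (K : ℝ) ^ 8 * (Real.log n + 1) ≤ c₀ ^ 3 * (K : ℝ) ^ 8 * (3 * Real.log n) :=
        mul_le_mul_of_nonneg_left (by linarith) (by positivity)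
      linarith
    have h4 : 0 ≤ c₀ ^ 3 * ((K : ℝ) ^ 8 * Real.log n) := by positivity
    linarith
  obtain ⟨C, hC, hE⟩ := many hKpos (by exact_mod_cast h128) hc₀ hnum
  refine ⟨C, ?_, ?_⟩
  · intro i
    refine ⟨?_, ?_⟩
    · intro c hc
      obtain ⟨a, b, ha, hb, hab, _⟩ := (hC i).ends c hc
      exact ⟨⟨a, b, ha, hb, hab⟩, (hC i).chain c hc⟩
    · intro S
      have hS : S.card ≤ n := by simpa using card_le_univ S
      exact (hC i).cover S (Nat.zero_le _) (by omega)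
  · intro i j hij c hc c' hc' a b h h'
    exact hE i j hij a b ⟨c, hc, h⟩ ⟨c', hc', h'⟩

end Pool.MP_0ccee8_co.Lib
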